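import Pool.Agent.T2H20.AH.Hc

/-! # Three linear forms with integral coefficients and abc triples -/

set_option autoImplicit false

namespace Pool.Agent.T2H20.VS

open Finset Pool.Agent.H785R2.ABC Pool.Agent.T2H20.ABC

/-- the determinant of two integral vectors; `x ↦ dt P x` is the linear form which vanishes at `P` -/
def dt (P x : ℤ × ℤ) : ℤ := P.1 * x.2 - P.2 * x.1

/-- the size of an integral vector -/
def sz (x : ℤ × ℤ) : ℕ := max x.1.natAbs x.2.natAbs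

/-- the coefficients of the relation of three linear forms -/
def cf (P : Fin 3 → ℤ × ℤ) : Fin 3 → ℤ := ![dt (P 1) (P 2), dt (P 2) (P 0), dt (P 0) (P 1)]

/-- the three proportional forms with sum zero -/
def av (P : Fin 3 → ℤ × ℤ) (x : ℤ × ℤ) (l : Fin 3) : ℤ := cf P l * dt (P l) x

theorem av_sum (P : Fin 3 → ℤ × ℤ) (x : ℤ × ℤ) : av P x 0 + av P x 1 + av P x 2 = 0 := by
  simp only [av, cf, dt, Matrix.cons_val_zero, Matrix.cons_val_one, Matrix.cons_val]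
  ring

/-- the greatest common divisor -/
def gg (P : Fin 3 → ℤ × ℤ) (x : ℤ × ℤ) : ℕ := Int.gcd (av P x 0) (av P x 1)

theorem gg_dvd (P : Fin 3 → ℤ × ℤ) (x : ℤ × ℤ) (l : Fin 3) : (gg P x : ℤ) ∣ av P x l := by
  have h : ∀ i : Fin 3, i = 0 ∨ i = 1 ∨ i = 2 := by decide
  rcases h l with rfl | rfl | rfl
  · exact Int.gcd_dvd_left _ _
  · exact Int.gcd_dvd_right _ _
  · have h1 := av_sum P x
    have h2 : av P x 2 = -(av P x 0 + av P x 1) := by linarith
    rw [h2]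
    exact (dvd_neg.2 (dvd_add (Int.gcd_dvd_left _ _) (Int.gcd_dvd_right _ _)))

/-- a common divisor of two of the three numbers divides the third -/
theorem dvd_third (P : Fin 3 → ℤ × ℤ) (x : ℤ × ℤ) (d : ℤ) {i j : Fin 3} (hij : i ≠ j)
    (h1 : d ∣ av P x i) (h2 : d ∣ av P x j) : ∀ l, d ∣ av P x l := by
  have hs := av_sum P x
  have h : ∀ i : Fin 3, i = 0 ∨ i = 1 ∨ i = 2 := by decide
  intro l
  rcases h i with rfl | rfl | rfl <;> rcases h j with rfl | rfl | rfl <;>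
    rcases h l with rfl | rfl | rfl <;> first
    | exact h1
    | exact h2
    | exact absurd rfl hij
    | (have h3 : av P x 2 = -(av P x 0 + av P x 1) := by linarith
       rw [h3]; exact dvd_neg.2 (dvd_add (by assumption) (by assumption)))
    | (have h3 : av P x 1 = -(av P x 0 + av P x 2) := by linarith
       rw [h3]; exact dvd_neg.2 (dvd_add (by assumption) (by assumption)))
    | (have h3 : av P x 0 = -(av P x 1 + av P x 2) := by linarith
       rw [h3]; exact dvd_neg.2 (dvd_add (by assumption) (by assumption)))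

/-- the bound for the greatest common divisor -/
def DD (P : Fin 3 → ℤ × ℤ) : ℕ := (cf P 0 * cf P 1 * cf P 2).natAbs

theorem gg_dvd_DD (P : Fin 3 → ℤ × ℤ) {x : ℤ × ℤ} (hx : IsCoprime x.1 x.2) :
    (gg P x : ℤ) ∣ cf P 0 * cf P 1 * cf P 2 := by
  obtain ⟨a, b, hab⟩ := hx
  have h0 := gg_dvd P x 0
  have h1 := gg_dvd P x 1
  have e : cf P 0 * cf P 1 * cf P 2 =
      av P x 0 * (cf P 1 * (b * (P 1).2 + a * (P 1).1)) -
      av P x 1 * (cf P 0 * (b * (P 0).2 + a * (P 0).1)) := by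
    have e2 : cf P 2 = cf P 2 * (a * x.1 + b * x.2) := by rw [hab, mul_one]
    rw [e2]
    simp only [av, cf, dt, Matrix.cons_val_zero, Matrix.cons_val_one, Matrix.cons_val]
    ring
  rw [e]
  exact dvd_sub (h0.mul_right _) (h1.mul_right _)

theorem cf_ne {P : Fin 3 → ℤ × ℤ} (hP : ∀ i j, i ≠ j → dt (P i) (P j) ≠ 0) (l : Fin 3) :
    cf P l ≠ 0 := by
  have h : ∀ i : Fin 3, i = 0 ∨ i = 1 ∨ i = 2 := by decide
  rcases h l with rfl | rfl | rfl
  · exact hP 1 2 (by decide)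
  · exact hP 2 0 (by decide)
  · exact hP 0 1 (by decide)

theorem DD_pos {P : Fin 3 → ℤ × ℤ} (hP : ∀ i j, i ≠ j → dt (P i) (P j) ≠ 0) : 0 < DD P := by
  unfold DD
  rw [Int.natAbs_pos]
  exact mul_ne_zero (mul_ne_zero (cf_ne hP 0) (cf_ne hP 1)) (cf_ne hP 2)

theorem av_ne {P : Fin 3 → ℤ × ℤ} (hP : ∀ i j, i ≠ j → dt (P i) (P j) ≠ 0) {x : ℤ × ℤ}
    (hx : ∀ l, dt (P l) x ≠ 0) (l : Fin 3) : av P x l ≠ 0 := mul_ne_zero (cf_ne hP l) (hx l)

theorem gg_pos {P : Fin 3 → ℤ × ℤ} (hP : ∀ i j, i ≠ j → dt (P i) (P j) ≠ 0) {x : ℤ × ℤ}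
    (hx : ∀ l, dt (P l) x ≠ 0) : 0 < gg P x :=
  Int.gcd_pos_of_ne_zero_left _ (av_ne hP hx 0)

theorem gg_le {P : Fin 3 → ℤ × ℤ} (hP : ∀ i j, i ≠ j → dt (P i) (P j) ≠ 0) {x : ℤ × ℤ}
    (hc : IsCoprime x.1 x.2) : gg P x ≤ DD P := by
  apply Nat.le_of_dvd (DD_pos hP)
  have h := gg_dvd_DD P hc
  rwa [Int.natCast_dvd] at h

/-- the quotients by the greatest common divisor -/
def mq (P : Fin 3 → ℤ × ℤ) (x : ℤ × ℤ) (l : Fin 3) : ℕ := (av P x l).natAbs / gg P x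

theorem mq_mul {P : Fin 3 → ℤ × ℤ} {x : ℤ × ℤ} (l : Fin 3) :
    mq P x l * gg P x = (av P x l).natAbs := by
  unfold mq
  exact Nat.div_mul_cancel (Int.natCast_dvd.1 (gg_dvd P x l))

theorem mq_pos {P : Fin 3 → ℤ × ℤ} (hP : ∀ i j, i ≠ j → dt (P i) (P j) ≠ 0) {x : ℤ × ℤ}
    (hx : ∀ l, dt (P l) x ≠ 0) (l : Fin 3) : 0 < mq P x l := by
  have h := mq_mul (P := P) (x := x) l
  have h1 : 0 < (av P x l).natAbs := Int.natAbs_pos.2 (av_ne hP hx l)
  rw [← h] at h1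
  exact Nat.pos_of_mul_pos_right h1

/-- the order of the three members -/
def Good (P : Fin 3 → ℤ × ℤ) (σ : Equiv.Perm (Fin 3)) (x : ℤ × ℤ) : Prop :=
  mq P x (σ 0) ≤ mq P x (σ 1) ∧ mq P x (σ 2) = mq P x (σ 0) + mq P x (σ 1)

theorem perm_ex : ∀ i j k : Fin 3, i ≠ j → j ≠ k → i ≠ k →
    ∃ σ : Equiv.Perm (Fin 3), σ 0 = i ∧ σ 1 = j ∧ σ 2 = k := by decide

theorem exists_good {P : Fin 3 → ℤ × ℤ} (hP : ∀ i j, i ≠ j → dt (P i) (P j) ≠ 0) {x : ℤ × ℤ}
    (hx : ∀ l, dt (P l) x ≠ 0) : ∃ σ, Good P σ x := by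
  have hg := gg_pos hP hx
  have key : ∀ i j k : Fin 3, i ≠ j → j ≠ k → i ≠ k →
      (av P x k).natAbs = (av P x i).natAbs + (av P x j).natAbs → ∃ σ, Good P σ x := by
    intro i j k hij hjk hik h
    have h1 : mq P x k = mq P x i + mq P x j := by
      have : mq P x k * gg P x = (mq P x i + mq P x j) * gg P x := by
        rw [add_mul, mq_mul, mq_mul, mq_mul, h]
      exact Nat.eq_of_mul_eq_mul_right hg this
    rcases Nat.le_total (mq P x i) (mq P x j) with hle | hle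
    · obtain ⟨σ, h2, h3, h4⟩ := perm_ex i j k hij hjk hik
      exact ⟨σ, by rw [h2, h3]; exact hle, by rw [h2, h3, h4]; exact h1⟩
    · obtain ⟨σ, h2, h3, h4⟩ := perm_ex j i k hij.symm hik hjk
      exact ⟨σ, by rw [h2, h3]; exact hle, by rw [h2, h3, h4, h1]; ring⟩
  have hs := av_sum P x
  have hcase : (av P x 2).natAbs = (av P x 0).natAbs + (av P x 1).natAbs ∨
      (av P x 0).natAbs = (av P x 1).natAbs + (av P x 2).natAbs ∨
      (av P x 1).natAbs = (av P x 0).natAbs + (av P x 2).natAbs := by omega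
  rcases hcase with h | h | h
  · exact key 0 1 2 (by decide) (by decide) (by decide) h
  · exact key 1 2 0 (by decide) (by decide) (by decide) h
  · exact key 0 2 1 (by decide) (by decide) (by decide) h

/-- the abc triple of a point -/
def tt (P : Fin 3 → ℤ × ℤ) (σ : Equiv.Perm (Fin 3)) (x : ℤ × ℤ) : ℕ × ℕ :=
  (mq P x (σ 0), mq P x (σ 1))

theorem tt_num {P : Fin 3 → ℤ × ℤ} {σ : Equiv.Perm (Fin 3)} {x : ℤ × ℤ} (h : Good P σ x)
    (l : Fin 3) : num (tri (tt P σ x)) l = mq P x (σ l) := by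
  have hh : ∀ i : Fin 3, i = 0 ∨ i = 1 ∨ i = 2 := by decide
  rcases hh l with rfl | rfl | rfl
  · rfl
  · rfl
  · exact h.2.symm

theorem tt_coprime {P : Fin 3 → ℤ × ℤ} (hP : ∀ i j, i ≠ j → dt (P i) (P j) ≠ 0)
    {σ : Equiv.Perm (Fin 3)} {x : ℤ × ℤ} (hx : ∀ l, dt (P l) x ≠ 0) :
    Nat.Coprime (tt P σ x).1 (tt P σ x).2 := by
  have hg := gg_pos hP hx
  show Nat.Coprime (mq P x (σ 0)) (mq P x (σ 1))
  rw [Nat.coprime_iff_gcd_eq_one]
  obtain ⟨d, hd⟩ : ∃ d, d = Nat.gcd (mq P x (σ 0)) (mq P x (σ 1)) := ⟨_, rfl⟩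
  rw [← hd]
  have h1 : d * gg P x ∣ (av P x (σ 0)).natAbs := by
    rw [← mq_mul]
    exact Nat.mul_dvd_mul_right (hd ▸ Nat.gcd_dvd_left _ _) _
  have h2 : d * gg P x ∣ (av P x (σ 1)).natAbs := by
    rw [← mq_mul]
    exact Nat.mul_dvd_mul_right (hd ▸ Nat.gcd_dvd_right _ _) _
  have h3 : σ 0 ≠ σ 1 := fun h => absurd (σ.injective h) (by decide)
  have h4 := dvd_third P x ((d * gg P x : ℕ) : ℤ) h3 (Int.natCast_dvd.2 h1) (Int.natCast_dvd.2 h2)
  have h5 : ((d * gg P x : ℕ) : ℤ) ∣ ((gg P x : ℕ) : ℤ) := Int.dvd_coe_gcd (h4 0) (h4 1)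
  have h6 : d * gg P x ∣ gg P x := by exact_mod_cast h5
  have h7 := Nat.le_of_dvd hg h6
  have h8 : d ≤ 1 := by
    by_contra hc
    push Not at hc
    nlinarith
  have h9 : d ≠ 0 := by
    rintro rfl
    have h10 := mq_pos hP hx (σ 0)
    have h11 := (Nat.gcd_eq_zero_iff.1 hd.symm).1
    omega
  omega

theorem natAbs_cf_le {P : Fin 3 → ℤ × ℤ} (hP : ∀ i j, i ≠ j → dt (P i) (P j) ≠ 0) (l : Fin 3) :
    (cf P l).natAbs ≤ DD P := by
  apply Nat.le_of_dvd (DD_pos hP)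
  unfold DD
  rw [Int.natAbs_dvd_natAbs]
  have hh : ∀ i : Fin 3, i = 0 ∨ i = 1 ∨ i = 2 := by decide
  rcases hh l with rfl | rfl | rfl
  · exact (Dvd.intro _ rfl : cf P 0 ∣ cf P 0 * cf P 1).mul_right _
  · exact (Dvd.intro_left _ rfl : cf P 1 ∣ cf P 0 * cf P 1).mul_right _
  · exact Dvd.intro_left _ rfl

/-- the radical of a member -/
theorem rad_mq_le {P : Fin 3 → ℤ × ℤ} (hP : ∀ i j, i ≠ j → dt (P i) (P j) ≠ 0) {x : ℤ × ℤ}
    (hx : ∀ l, dt (P l) x ≠ 0) (l : Fin 3) :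
    rad (mq P x l) ≤ DD P * rad (dt (P l) x).natAbs := by
  have h1 : mq P x l ∣ (av P x l).natAbs := Dvd.intro _ (mq_mul l)
  have h2 : (av P x l).natAbs = (cf P l).natAbs * (dt (P l) x).natAbs := by
    unfold av; rw [Int.natAbs_mul]
  have h3 : (cf P l).natAbs ≠ 0 := Int.natAbs_ne_zero.2 (cf_ne hP l)
  have h4 : (dt (P l) x).natAbs ≠ 0 := Int.natAbs_ne_zero.2 (hx l)
  calc rad (mq P x l) ≤ rad ((cf P l).natAbs * (dt (P l) x).natAbs) := by
        rw [← h2]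
        exact Pool.Agent.T2H20.ABC.rad_le_of_dvd (Int.natAbs_ne_zero.2 (av_ne hP hx l)) h1
    _ ≤ rad (cf P l).natAbs * rad (dt (P l) x).natAbs := by
        unfold rad
        rw [Nat.primeFactors_mul h3 h4]
        have := Finset.prod_union_inter (s₁ := (cf P l).natAbs.primeFactors)
          (s₂ := (dt (P l) x).natAbs.primeFactors) (f := fun p => p)
        rw [← this]
        apply Nat.le_mul_of_pos_right
        exact Finset.prod_pos fun p hp =>
          (Nat.prime_of_mem_primeFactors (Finset.mem_of_mem_inter_left hp)).pos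
    _ ≤ DD P * rad (dt (P l) x).natAbs := by
        apply Nat.mul_le_mul_right
        refine le_trans ?_ (natAbs_cf_le hP l)
        unfold rad
        exact Nat.le_of_dvd (Nat.pos_of_ne_zero h3) (Nat.prod_primeFactors_dvd _)

end Pool.Agent.T2H20.VS
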