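import Pool.Agent.T2H20.VS.La

/-! # Counting the points of the line by three linear forms -/

set_option autoImplicit false

namespace Pool.Agent.T2H20.VS

open Finset Pool.Agent.H785R2.ABC Pool.Agent.T2H20.ABC Pool.Agent.T2H20.AH

/-- the constant for the heights -/
def K0 (P : Fin 3 → ℤ × ℤ) : ℕ := 2 * (sz (P 0) + sz (P 1)) * DD P

theorem mq_le_top {P : Fin 3 → ℤ × ℤ} {σ : Equiv.Perm (Fin 3)} {x : ℤ × ℤ} (h : Good P σ x)
    (l : Fin 3) : mq P x l ≤ (tt P σ x).1 + (tt P σ x).2 := by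
  obtain ⟨k, hk⟩ := σ.surjective l
  rw [← hk, ← tt_num h]
  have hh : ∀ i : Fin 3, i = 0 ∨ i = 1 ∨ i = 2 := by decide
  rcases hh k with rfl | rfl | rfl
  · exact Nat.le_add_right _ _
  · exact Nat.le_add_left _ _
  · exact le_rfl

theorem dt_le {P : Fin 3 → ℤ × ℤ} (hP : ∀ i j, i ≠ j → dt (P i) (P j) ≠ 0)
    {σ : Equiv.Perm (Fin 3)} {x : ℤ × ℤ} (hc : IsCoprime x.1 x.2) (h : Good P σ x) (l : Fin 3) :
    (dt (P l) x).natAbs ≤ DD P * ((tt P σ x).1 + (tt P σ x).2) := by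
  calc (dt (P l) x).natAbs ≤ (cf P l).natAbs * (dt (P l) x).natAbs :=
        Nat.le_mul_of_pos_left _ (Int.natAbs_pos.2 (cf_ne hP l))
    _ = (av P x l).natAbs := by unfold av; rw [Int.natAbs_mul]
    _ = mq P x l * gg P x := (mq_mul l).symm
    _ ≤ ((tt P σ x).1 + (tt P σ x).2) * DD P := Nat.mul_le_mul (mq_le_top h l) (gg_le hP hc)
    _ = _ := mul_comm _ _

theorem cramer (P Q x : ℤ × ℤ) : dt P Q * x.1 = dt P x * Q.1 - dt Q x * P.1 ∧
    dt P Q * x.2 = dt P x * Q.2 - dt Q x * P.2 := by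
  constructor <;> (unfold dt; ring)

theorem sz_le {P : Fin 3 → ℤ × ℤ} (hP : ∀ i j, i ≠ j → dt (P i) (P j) ≠ 0)
    {σ : Equiv.Perm (Fin 3)} {x : ℤ × ℤ} (hc : IsCoprime x.1 x.2) (h : Good P σ x) :
    sz x ≤ K0 P * ((tt P σ x).1 + (tt P σ x).2) := by
  obtain ⟨c, hcc⟩ : ∃ c, c = (tt P σ x).1 + (tt P σ x).2 := ⟨_, rfl⟩
  have h0 := dt_le hP hc h 0
  have h1 := dt_le hP hc h 1
  rw [← hcc] at h0 h1 ⊢
  obtain ⟨e1, e2⟩ := cramer (P 0) (P 1) x
  have hd : 0 < (dt (P 0) (P 1)).natAbs := Int.natAbs_pos.2 (hP 0 1 (by decide))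
  have a1 : x.1.natAbs ≤ (dt (P 0) (P 1) * x.1).natAbs := by
    rw [Int.natAbs_mul]; exact Nat.le_mul_of_pos_left _ hd
  have a2 : x.2.natAbs ≤ (dt (P 0) (P 1) * x.2).natAbs := by
    rw [Int.natAbs_mul]; exact Nat.le_mul_of_pos_left _ hd
  have s01 : (P 0).1.natAbs ≤ sz (P 0) := le_max_left _ _
  have s02 : (P 0).2.natAbs ≤ sz (P 0) := le_max_right _ _
  have s11 : (P 1).1.natAbs ≤ sz (P 1) := le_max_left _ _
  have s12 : (P 1).2.natAbs ≤ sz (P 1) := le_max_right _ _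
  have key : ∀ u v : ℤ, u.natAbs ≤ sz (P 1) → v.natAbs ≤ sz (P 0) →
      (dt (P 0) x * u - dt (P 1) x * v).natAbs ≤ K0 P * c := by
    intro u v hu hv
    calc (dt (P 0) x * u - dt (P 1) x * v).natAbs
        ≤ (dt (P 0) x * u).natAbs + (dt (P 1) x * v).natAbs := Int.natAbs_sub_le _ _
      _ = (dt (P 0) x).natAbs * u.natAbs + (dt (P 1) x).natAbs * v.natAbs := by
          rw [Int.natAbs_mul, Int.natAbs_mul]
      _ ≤ (DD P * c) * sz (P 1) + (DD P * c) * sz (P 0) :=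
          Nat.add_le_add (Nat.mul_le_mul h0 hu) (Nat.mul_le_mul h1 hv)
      _ = (sz (P 0) + sz (P 1)) * DD P * c := by ring
      _ ≤ 2 * ((sz (P 0) + sz (P 1)) * DD P * c) := Nat.le_mul_of_pos_left _ (by norm_num)
      _ = K0 P * c := by unfold K0; ring
  apply max_le
  · exact a1.trans (e1 ▸ key _ _ s11 s01)
  · exact a2.trans (e2 ▸ key _ _ s12 s02)

theorem K0_pos {P : Fin 3 → ℤ × ℤ} (hP : ∀ i j, i ≠ j → dt (P i) (P j) ≠ 0) : 0 < K0 P := by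
  have h1 := DD_pos hP
  have h2 : 0 < sz (P 0) + sz (P 1) := by
    by_contra hc
    have h3 : sz (P 0) = 0 := by omega
    have h4 : (P 0).1.natAbs ≤ 0 := h3 ▸ le_max_left _ _
    have h5 : (P 0).2.natAbs ≤ 0 := h3 ▸ le_max_right _ _
    have h6 : (P 0).1 = 0 := by omega
    have h7 : (P 0).2 = 0 := by omega
    apply hP 0 1 (by decide)
    unfold dt
    rw [h6, h7]; ring
  unfold K0
  positivity

/-- the radical of the product of the three forms -/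
def rp (P : Fin 3 → ℤ × ℤ) (x : ℤ × ℤ) : ℕ := rad (∏ l, dt (P l) x).natAbs

theorem rad_mul_le {a b : ℕ} (ha : a ≠ 0) (hb : b ≠ 0) : rad (a * b) ≤ rad a * rad b := by
  unfold rad
  rw [Nat.primeFactors_mul ha hb, ← Finset.prod_union_inter (s₁ := a.primeFactors)
    (s₂ := b.primeFactors) (f := fun p => p)]
  apply Nat.le_mul_of_pos_right
  exact Finset.prod_pos fun p hp =>
    (Nat.prime_of_mem_primeFactors (Finset.mem_of_mem_inter_left hp)).pos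

theorem rad_le_self {a : ℕ} (ha : a ≠ 0) : rad a ≤ a := by
  unfold rad
  exact Nat.le_of_dvd (Nat.pos_of_ne_zero ha) (Nat.prod_primeFactors_dvd _)

/-- the radical of the triple -/
theorem rad_tt_le {P : Fin 3 → ℤ × ℤ} (hP : ∀ i j, i ≠ j → dt (P i) (P j) ≠ 0)
    {σ : Equiv.Perm (Fin 3)} {x : ℤ × ℤ} (hx : ∀ l, dt (P l) x ≠ 0) (h : Good P σ x) :
    rad ((tt P σ x).1 * (tt P σ x).2 * ((tt P σ x).1 + (tt P σ x).2)) ≤ DD P * rp P x := by
  have e1 : (tt P σ x).1 * (tt P σ x).2 * ((tt P σ x).1 + (tt P σ x).2) = ∏ l, mq P x l := by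
    rw [← Equiv.prod_comp σ, Fin.prod_univ_three]
    show _ = mq P x (σ 0) * mq P x (σ 1) * mq P x (σ 2)
    rw [h.2]
    rfl
  have e2 : (∏ l, mq P x l) ∣ (∏ l, av P x l).natAbs := by
    rw [Fin.prod_univ_three, Fin.prod_univ_three, Int.natAbs_mul, Int.natAbs_mul]
    exact Nat.mul_dvd_mul (Nat.mul_dvd_mul (Dvd.intro _ (mq_mul 0)) (Dvd.intro _ (mq_mul 1)))
      (Dvd.intro _ (mq_mul 2))
  have e3 : (∏ l, av P x l).natAbs = DD P * (∏ l, dt (P l) x).natAbs := by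
    unfold DD
    rw [← Int.natAbs_mul]
    congr 1
    rw [Fin.prod_univ_three, Fin.prod_univ_three]
    unfold av
    ring
  have e4 : (∏ l, dt (P l) x).natAbs ≠ 0 :=
    Int.natAbs_ne_zero.2 (Finset.prod_ne_zero_iff.2 fun l _ => hx l)
  have e5 : DD P ≠ 0 := (DD_pos hP).ne'
  rw [e1]
  calc rad (∏ l, mq P x l) ≤ rad (DD P * (∏ l, dt (P l) x).natAbs) := by
        rw [← e3]
        exact Pool.Agent.T2H20.ABC.rad_le_of_dvd (e3 ▸ mul_ne_zero e5 e4) e2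
    _ ≤ rad (DD P) * rad (∏ l, dt (P l) x).natAbs := rad_mul_le e5 e4
    _ ≤ DD P * rp P x := Nat.mul_le_mul_right _ (rad_le_self e5)

/-- the point is determined by the triple and signs -/
theorem tt_inj {P : Fin 3 → ℤ × ℤ} (hP : ∀ i j, i ≠ j → dt (P i) (P j) ≠ 0)
    {σ : Equiv.Perm (Fin 3)} {x y : ℤ × ℤ} (hcx : IsCoprime x.1 x.2) (hcy : IsCoprime y.1 y.2)
    (hx : ∀ l, dt (P l) x ≠ 0) (h : tt P σ x = tt P σ y)
    (h0 : SignType.sign (av P x (σ 0)) = SignType.sign (av P y (σ 0)))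
    (h1 : SignType.sign (av P x (σ 1)) = SignType.sign (av P y (σ 1))) : x = y := by
  have hm0 : mq P x (σ 0) = mq P y (σ 0) := congrArg Prod.fst h
  have hm1 : mq P x (σ 1) = mq P y (σ 1) := congrArg Prod.snd h
  have key : ∀ l, mq P x l = mq P y l → SignType.sign (av P x l) = SignType.sign (av P y l) →
      (gg P y : ℤ) * dt (P l) x = (gg P x : ℤ) * dt (P l) y := by
    intro l hm hs
    have a1 : av P x l = (SignType.sign (av P x l) : ℤ) * ((mq P x l * gg P x : ℕ) : ℤ) := by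
      rw [mq_mul, Int.natCast_natAbs, sign_mul_abs]
    have a2 : av P y l = (SignType.sign (av P y l) : ℤ) * ((mq P y l * gg P y : ℕ) : ℤ) := by
      rw [mq_mul, Int.natCast_natAbs, sign_mul_abs]
    have a3 : (gg P y : ℤ) * av P x l = (gg P x : ℤ) * av P y l := by
      rw [a1, a2, hs, hm]
      push_cast
      ring
    have a4 : cf P l * ((gg P y : ℤ) * dt (P l) x) = cf P l * ((gg P x : ℤ) * dt (P l) y) := by
      unfold av at a3
      linarith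
    exact mul_left_cancel₀ (cf_ne hP l) a4
  have k0 := key _ hm0 h0
  have k1 := key _ hm1 h1
  have hne : σ 0 ≠ σ 1 := fun h => absurd (σ.injective h) (by decide)
  have hdet := hP _ _ hne
  obtain ⟨x1, x2⟩ := cramer (P (σ 0)) (P (σ 1)) x
  obtain ⟨y1, y2⟩ := cramer (P (σ 0)) (P (σ 1)) y
  have e1 : (gg P y : ℤ) * x.1 = (gg P x : ℤ) * y.1 := by
    apply mul_left_cancel₀ hdet
    calc dt (P (σ 0)) (P (σ 1)) * ((gg P y : ℤ) * x.1)
        = (gg P y : ℤ) * (dt (P (σ 0)) (P (σ 1)) * x.1) := by ring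
      _ = ((gg P y : ℤ) * dt (P (σ 0)) x) * (P (σ 1)).1 -
          ((gg P y : ℤ) * dt (P (σ 1)) x) * (P (σ 0)).1 := by rw [x1]; ring
      _ = ((gg P x : ℤ) * dt (P (σ 0)) y) * (P (σ 1)).1 -
          ((gg P x : ℤ) * dt (P (σ 1)) y) * (P (σ 0)).1 := by rw [k0, k1]
      _ = (gg P x : ℤ) * (dt (P (σ 0)) (P (σ 1)) * y.1) := by rw [y1]; ring
      _ = _ := by ring
  have e2 : (gg P y : ℤ) * x.2 = (gg P x : ℤ) * y.2 := by
    apply mul_left_cancel₀ hdet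
    calc dt (P (σ 0)) (P (σ 1)) * ((gg P y : ℤ) * x.2)
        = (gg P y : ℤ) * (dt (P (σ 0)) (P (σ 1)) * x.2) := by ring
      _ = ((gg P y : ℤ) * dt (P (σ 0)) x) * (P (σ 1)).2 -
          ((gg P y : ℤ) * dt (P (σ 1)) x) * (P (σ 0)).2 := by rw [x2]; ring
      _ = ((gg P x : ℤ) * dt (P (σ 0)) y) * (P (σ 1)).2 -
          ((gg P x : ℤ) * dt (P (σ 1)) y) * (P (σ 0)).2 := by rw [k0, k1]
      _ = (gg P x : ℤ) * (dt (P (σ 0)) (P (σ 1)) * y.2) := by rw [y2]; ring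
      _ = _ := by ring
  have g1 : Int.gcd ((gg P y : ℤ) * x.1) ((gg P y : ℤ) * x.2) = gg P y := by
    rw [Int.gcd_mul_left, Int.isCoprime_iff_gcd_eq_one.1 hcx, mul_one, Int.natAbs_natCast]
  have g2 : Int.gcd ((gg P x : ℤ) * y.1) ((gg P x : ℤ) * y.2) = gg P x := by
    rw [Int.gcd_mul_left, Int.isCoprime_iff_gcd_eq_one.1 hcy, mul_one, Int.natAbs_natCast]
  rw [e1, e2, g2] at g1
  have hg : (gg P x : ℤ) ≠ 0 := by exact_mod_cast (gg_pos hP hx).ne'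
  rw [← g1] at e1 e2
  exact Prod.ext (mul_left_cancel₀ hg e1) (mul_left_cancel₀ hg e2)

/-- the points are counted by the triples -/
theorem count_le {P : Fin 3 → ℤ × ℤ} (hP : ∀ i j, i ≠ j → dt (P i) (P j) ≠ 0)
    {T : Set (ℕ × ℕ)} (hT : T.Finite) {S : Set (ℤ × ℤ)}
    (hS : ∀ x ∈ S, IsCoprime x.1 x.2 ∧ (∀ l, dt (P l) x ≠ 0) ∧ ∀ σ, Good P σ x → tt P σ x ∈ T) :
    S.Finite ∧ S.ncard ≤ 54 * T.ncard := by
  classical
  have hex : ∀ x ∈ S, ∃ σ, Good P σ x := fun x hx => exists_good hP (hS x hx).2.1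
  choose! σ hσ using hex
  set f : ℤ × ℤ → (Equiv.Perm (Fin 3) × SignType × SignType) × (ℕ × ℕ) := fun x =>
    ((σ x, SignType.sign (av P x (σ x 0)), SignType.sign (av P x (σ x 1))), tt P (σ x) x) with hf
  have hmaps : ∀ x ∈ S, f x ∈ (Set.univ : Set (Equiv.Perm (Fin 3) × SignType × SignType)) ×ˢ T :=
    fun x hx => ⟨Set.mem_univ _, (hS x hx).2.2 _ (hσ x hx)⟩
  have hinj : Set.InjOn f S := by
    intro x hx y hy h
    rw [hf] at h
    simp only [Prod.mk.injEq] at h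
    obtain ⟨⟨h1, h2, h3⟩, h4⟩ := h
    rw [← h1] at h2 h3 h4
    exact tt_inj hP (hS x hx).1 (hS y hy).1 (hS x hx).2.1 h4 h2 h3
  have hfin : ((Set.univ : Set (Equiv.Perm (Fin 3) × SignType × SignType)) ×ˢ T).Finite :=
    Set.finite_univ.prod hT
  refine ⟨Set.Finite.of_injOn hmaps hinj hfin, ?_⟩
  refine (Set.ncard_le_ncard_of_injOn f hmaps hinj hfin).trans ?_
  rw [Set.ncard_prod, Set.ncard_univ]
  apply Nat.mul_le_mul_right
  rw [Nat.card_eq_fintype_card]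
  decide

/-- the points whose height is large, for three points on the line -/
def Ex3 (P : Fin 3 → ℤ × ℤ) (κ M X : ℝ) : Set (ℤ × ℤ) :=
  {x | IsCoprime x.1 x.2 ∧ (∀ l, dt (P l) x ≠ 0) ∧ (rp P x : ℝ) ≤ X ∧
    κ * (rp P x : ℝ) ^ M ≤ (sz x : ℝ)}

/-- **the profile for three points** -/
theorem three_upper {P : Fin 3 → ℤ × ℤ} (hP : ∀ i j, i ≠ j → dt (P i) (P j) ≠ 0) (κ M ε : ℝ)
    (hκ : 0 < κ) (hM : 0 < M) (hε : 0 < ε) : ∃ C : ℝ, 0 < C ∧ ∀ X : ℝ, 1 ≤ X →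
      (Ex3 P κ M X).Finite ∧ ((Ex3 P κ M X).ncard : ℝ) ≤ C * X ^ (max (4 / 7) (1 - M) + ε) := by
  have hD : (0 : ℝ) < DD P := by exact_mod_cast DD_pos hP
  have hD1 : (1 : ℝ) ≤ DD P := by exact_mod_cast DD_pos hP
  have hK : (0 : ℝ) < K0 P := by exact_mod_cast K0_pos hP
  obtain ⟨κ', hκ'⟩ : ∃ κ', κ' = κ / (K0 P * (DD P : ℝ) ^ M) := ⟨_, rfl⟩
  have hκ0 : 0 < κ' := by rw [hκ']; positivity
  obtain ⟨C, hC, h⟩ := profC_upper κ' M ε hκ0 hM hε
  refine ⟨54 * (C * (DD P : ℝ) ^ (max (4 / 7) (1 - M) + ε)), by positivity, fun X hX => ?_⟩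
  have hX1 : 1 ≤ (DD P : ℝ) * X := by nlinarith
  have hT : (ExcC κ' M ((DD P : ℝ) * X)).Finite := excC_finite _ _ hX1
  obtain ⟨h1, h2⟩ := count_le hP hT (S := Ex3 P κ M X) (by
    rintro x ⟨x1, x2, x3, x4⟩
    refine ⟨x1, x2, fun σ hσ => ?_⟩
    have a1 := rad_tt_le hP x2 hσ
    have a2 := sz_le hP x1 hσ
    have hR : (rad ((tt P σ x).1 * (tt P σ x).2 * ((tt P σ x).1 + (tt P σ x).2)) : ℝ) ≤
        DD P * rp P x := by exact_mod_cast a1
    refine ⟨⟨mq_pos hP x2 _, hσ.1, tt_coprime hP x2⟩,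
      hR.trans (mul_le_mul_of_nonneg_left x3 hD.le), ?_⟩
    have a3 : (sz x : ℝ) ≤ K0 P * (((tt P σ x).1 + (tt P σ x).2 : ℕ) : ℝ) := by exact_mod_cast a2
    have a4 : (rad ((tt P σ x).1 * (tt P σ x).2 * ((tt P σ x).1 + (tt P σ x).2)) : ℝ) ^ M ≤
        (DD P : ℝ) ^ M * (rp P x : ℝ) ^ M := by
      rw [← Real.mul_rpow hD.le (Nat.cast_nonneg _)]
      exact Real.rpow_le_rpow (Nat.cast_nonneg _) hR hM.le
    rw [hκ']
    calc κ / (K0 P * (DD P : ℝ) ^ M) *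
          (rad ((tt P σ x).1 * (tt P σ x).2 * ((tt P σ x).1 + (tt P σ x).2)) : ℝ) ^ M
        ≤ κ / (K0 P * (DD P : ℝ) ^ M) * ((DD P : ℝ) ^ M * (rp P x : ℝ) ^ M) :=
          mul_le_mul_of_nonneg_left a4 (by positivity)
      _ = (κ * (rp P x : ℝ) ^ M) / K0 P := by
          have : (0 : ℝ) < (DD P : ℝ) ^ M := by positivity
          field_simp
      _ ≤ (K0 P * (((tt P σ x).1 + (tt P σ x).2 : ℕ) : ℝ)) / K0 P :=
          div_le_div_of_nonneg_right (x4.trans a3) hK.le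
      _ = _ := by field_simp)
  refine ⟨h1, ?_⟩
  calc ((Ex3 P κ M X).ncard : ℝ) ≤ 54 * ((ExcC κ' M ((DD P : ℝ) * X)).ncard : ℝ) := by
        exact_mod_cast h2
    _ ≤ 54 * (C * ((DD P : ℝ) * X) ^ (max (4 / 7) (1 - M) + ε)) :=
        mul_le_mul_of_nonneg_left (h _ hX1) (by norm_num)
    _ = 54 * (C * (DD P : ℝ) ^ (max (4 / 7) (1 - M) + ε)) * X ^ (max (4 / 7) (1 - M) + ε) := by
        rw [Real.mul_rpow hD.le (by linarith)]
        ring

end Pool.Agent.T2H20.VS
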