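import Pool.Agent.T2H20.VS.Lb

/-! # Few exceptions of the weak inequality for `q` points on the line, at all heights -/

set_option autoImplicit false

namespace Pool.Agent.T2H20.VS

open Finset Pool.Agent.H785R2.ABC Pool.Agent.H785R2.ABC.EC Pool.Agent.T2H20.ABC Pool.Agent.T2H20.AH
open Pool.Agent.Results.MP_2ec8a3_nt.SquareRootAllHeights (exceptions finite_exceptions ncard_le)

/-- the exceptions, two forms of which have small radicals -/
def Ex2 (P : Fin 3 → ℤ × ℤ) (M X R₁ R₂ : ℕ) : Set (ℤ × ℤ) :=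
  {x | IsCoprime x.1 x.2 ∧ (∀ l, dt (P l) x ≠ 0) ∧ rp P x ≤ X ∧
    rad (dt (P 0) x).natAbs ≤ R₁ ∧ rad (dt (P 1) x).natAbs ≤ R₂ ∧ rp P x ^ M ≤ sz x}

/-- the triples which are exceptions, two members of which have small radicals -/
def T2 (M X R₁ R₂ : ℕ) : Set (ℕ × ℕ) :=
  {t | 0 < t.1 ∧ 0 < t.2 ∧ Nat.Coprime t.1 t.2 ∧ rad (t.1 * t.2 * (t.1 + t.2)) ≤ X ∧
    (∃ i j, i ≠ j ∧ rad (num (tri t) i) ≤ R₁ ∧ rad (num (tri t) j) ≤ R₂) ∧
    rad (t.1 * t.2 * (t.1 + t.2)) ^ M ≤ t.1 + t.2}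

theorem T2_finite (M : ℕ) {X : ℕ} (hX : 1 ≤ X) (R₁ R₂ : ℕ) : (T2 M X R₁ R₂).Finite :=
  (finite_exceptions M hX).subset fun _ ht => ⟨⟨ht.1, ht.2.1, ht.2.2.1⟩, ht.2.2.2.1, ht.2.2.2.2.2⟩

theorem two_upper {P : Fin 3 → ℤ × ℤ} (hP : ∀ i j, i ≠ j → dt (P i) (P j) ≠ 0) (ε : ℝ)
    (hε : 0 < ε) : ∃ M : ℕ, ∃ C : ℝ, 0 < C ∧ ∀ X R₁ R₂ : ℕ, 1 ≤ X → 1 ≤ R₁ → 1 ≤ R₂ →
      (Ex2 P M X R₁ R₂).Finite ∧
      ((Ex2 P M X R₁ R₂).ncard : ℝ) ≤ C * (X : ℝ) ^ ε * Real.sqrt ((R₁ : ℝ) * R₂) := by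
  obtain ⟨M', C', hC', h⟩ := exceptions_two ε hε
  have hDp := DD_pos hP
  have hKp := K0_pos hP
  obtain ⟨s, hs⟩ : ∃ s, s = DD P ^ M' * K0 P := ⟨_, rfl⟩
  refine ⟨M' + s, 54 * (C' * (DD P : ℝ) ^ ε * DD P + (DD P + 1) ^ 2), by positivity, ?_⟩
  intro X R₁ R₂ hX hR₁ hR₂
  have hX1 : 1 ≤ DD P * X := Nat.one_le_iff_ne_zero.2 (by positivity)
  have hXr : (1 : ℝ) ≤ X := by exact_mod_cast hX
  obtain ⟨T0, hT0⟩ : ∃ T0 : Finset (ℕ × ℕ), T0 = range (DD P + 1) ×ˢ range (DD P + 1) := ⟨_, rfl⟩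
  have hTf := T2_finite M' hX1 (DD P * R₁) (DD P * R₂)
  obtain ⟨h1, h2⟩ := count_le hP (T := T2 M' (DD P * X) (DD P * R₁) (DD P * R₂) ∪ (T0 : Set (ℕ × ℕ)))
    (hTf.union (Finset.finite_toSet _)) (S := Ex2 P (M' + s) X R₁ R₂) (by
    rintro x ⟨x1, x2, x3, x4, x5, x6⟩
    refine ⟨x1, x2, fun σ hσ => ?_⟩
    have a1 := rad_tt_le hP x2 hσ
    have a2 := sz_le hP x1 hσ
    rcases Nat.lt_or_ge (rp P x) 2 with hlt | hge
    · right
      have hp1 : (∏ l, dt (P l) x).natAbs = 1 := by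
        by_contra hne
        obtain ⟨p, hp, hpd⟩ := Nat.exists_prime_and_dvd hne
        have h0 : (∏ l, dt (P l) x).natAbs ≠ 0 :=
          Int.natAbs_ne_zero.2 (Finset.prod_ne_zero_iff.2 fun l _ => x2 l)
        have : 2 ≤ rp P x := by
          calc 2 ≤ p := hp.two_le
            _ = rad p := by unfold rad; rw [hp.primeFactors, prod_singleton]
            _ ≤ rp P x := Pool.Agent.T2H20.ABC.rad_le_of_dvd h0 hpd
        omega
      have hone : ∀ l, (dt (P l) x).natAbs = 1 := by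
        intro l
        have : (dt (P l) x).natAbs ∣ (∏ l, dt (P l) x).natAbs :=
          Int.natAbs_dvd_natAbs.2 (Finset.dvd_prod_of_mem _ (mem_univ l))
        rw [hp1] at this
        exact Nat.dvd_one.1 this
      have hm : ∀ l, mq P x l ≤ DD P := by
        intro l
        calc mq P x l ≤ mq P x l * gg P x := Nat.le_mul_of_pos_right _ (gg_pos hP x2)
          _ = (cf P l).natAbs := by rw [mq_mul]; unfold av; rw [Int.natAbs_mul, hone, mul_one]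
          _ ≤ DD P := natAbs_cf_le hP l
      rw [Finset.mem_coe, hT0, mem_product, mem_range, mem_range]
      exact ⟨Nat.lt_succ_of_le (hm _), Nat.lt_succ_of_le (hm _)⟩
    · left
      have hc : rp P x ^ M' * s ≤ K0 P * ((tt P σ x).1 + (tt P σ x).2) := by
        calc rp P x ^ M' * s ≤ rp P x ^ M' * 2 ^ s :=
              Nat.mul_le_mul_left _ (Nat.lt_two_pow_self).le
          _ ≤ rp P x ^ M' * rp P x ^ s := Nat.mul_le_mul_left _ (Nat.pow_le_pow_left hge _)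
          _ = rp P x ^ (M' + s) := by rw [pow_add]
          _ ≤ sz x := x6
          _ ≤ _ := a2
      refine ⟨mq_pos hP x2 _, mq_pos hP x2 _, tt_coprime hP x2,
        a1.trans (Nat.mul_le_mul_left _ x3), ⟨σ.symm 0, σ.symm 1,
          fun h => absurd (σ.symm.injective h) (by decide), ?_, ?_⟩, ?_⟩
      · rw [tt_num hσ, Equiv.apply_symm_apply]
        exact (rad_mq_le hP x2 0).trans (Nat.mul_le_mul_left _ x4)
      · rw [tt_num hσ, Equiv.apply_symm_apply]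
        exact (rad_mq_le hP x2 1).trans (Nat.mul_le_mul_left _ x5)
      · have b1 : rad ((tt P σ x).1 * (tt P σ x).2 * ((tt P σ x).1 + (tt P σ x).2)) ^ M' ≤
            DD P ^ M' * rp P x ^ M' := by
          rw [← mul_pow]
          exact Nat.pow_le_pow_left a1 _
        refine b1.trans ?_
        have b2 : K0 P * (DD P ^ M' * rp P x ^ M') ≤ K0 P * ((tt P σ x).1 + (tt P σ x).2) := by
          calc K0 P * (DD P ^ M' * rp P x ^ M') = rp P x ^ M' * s := by rw [hs]; ring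
            _ ≤ _ := hc
        exact Nat.le_of_mul_le_mul_left b2 hKp)
  refine ⟨h1, ?_⟩
  have hT2 : ((T2 M' (DD P * X) (DD P * R₁) (DD P * R₂)).ncard : ℝ) ≤
      C' * ((DD P * X : ℕ) : ℝ) ^ ε * Real.sqrt (((DD P * R₁ : ℕ) : ℝ) * ((DD P * R₂ : ℕ) : ℝ)) := by
    refine ncard_le (hTf) (fun _ h => h) ?_
    intro Q hQ
    exact h _ _ _ hX1 (Nat.one_le_iff_ne_zero.2 (by positivity))
      (Nat.one_le_iff_ne_zero.2 (by positivity)) Q hQ
  have hT0c : ((T0 : Set (ℕ × ℕ)).ncard : ℝ) = (DD P + 1) ^ 2 := by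
    rw [Set.ncard_coe_finset, hT0, card_product, card_range]
    push_cast
    ring
  have hun : ((T2 M' (DD P * X) (DD P * R₁) (DD P * R₂) ∪ (T0 : Set (ℕ × ℕ))).ncard : ℝ) ≤
      ((T2 M' (DD P * X) (DD P * R₁) (DD P * R₂)).ncard : ℝ) + ((T0 : Set (ℕ × ℕ)).ncard : ℝ) := by
    rw [← Nat.cast_add]
    exact Nat.cast_le.2 (Set.ncard_union_le _ _)
  have hs1 : (1 : ℝ) ≤ (X : ℝ) ^ ε * Real.sqrt ((R₁ : ℝ) * R₂) := by
    have e1 : (1 : ℝ) ≤ (X : ℝ) ^ ε := Real.one_le_rpow hXr hε.le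
    have e2 : (1 : ℝ) ≤ Real.sqrt ((R₁ : ℝ) * R₂) := by
      rw [Real.one_le_sqrt]
      have : (1 : ℝ) ≤ R₁ := by exact_mod_cast hR₁
      have : (1 : ℝ) ≤ R₂ := by exact_mod_cast hR₂
      nlinarith
    nlinarith
  have hsq : Real.sqrt (((DD P * R₁ : ℕ) : ℝ) * ((DD P * R₂ : ℕ) : ℝ)) =
      DD P * Real.sqrt ((R₁ : ℝ) * R₂) := by
    push_cast
    rw [show (DD P : ℝ) * R₁ * (DD P * R₂) = (DD P : ℝ) ^ 2 * (R₁ * R₂) by ring,
      Real.sqrt_mul (by positivity), Real.sqrt_sq (by positivity)]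
  have hpw : ((DD P * X : ℕ) : ℝ) ^ ε = (DD P : ℝ) ^ ε * (X : ℝ) ^ ε := by
    push_cast
    exact Real.mul_rpow (by positivity) (by positivity)
  rw [hsq, hpw] at hT2
  calc ((Ex2 P (M' + s) X R₁ R₂).ncard : ℝ)
      ≤ 54 * ((T2 M' (DD P * X) (DD P * R₁) (DD P * R₂) ∪ (T0 : Set (ℕ × ℕ))).ncard : ℝ) := by
        exact_mod_cast h2
    _ ≤ 54 * (C' * ((DD P : ℝ) ^ ε * (X : ℝ) ^ ε) * (DD P * Real.sqrt ((R₁ : ℝ) * R₂)) +
        (DD P + 1) ^ 2 * ((X : ℝ) ^ ε * Real.sqrt ((R₁ : ℝ) * R₂))) := by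
        have e3 : ((DD P : ℝ) + 1) ^ 2 ≤
            (DD P + 1) ^ 2 * ((X : ℝ) ^ ε * Real.sqrt ((R₁ : ℝ) * R₂)) :=
          le_mul_of_one_le_right (by positivity) hs1
        linarith
    _ = _ := by ring

/-! ### many points -/

/-- the radical of the product of the forms -/
def rq {q : ℕ} (P : Fin q → ℤ × ℤ) (x : ℤ × ℤ) : ℕ := rad (∏ j, dt (P j) x).natAbs

/-- a number divisible by all the primes at which two of the points meet -/
def Dt {q : ℕ} (P : Fin q → ℤ × ℤ) : ℕ := ∏ i, ∏ j, if i = j then 1 else (dt (P i) (P j)).natAbs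

theorem Dt_pos {q : ℕ} {P : Fin q → ℤ × ℤ} (hP : ∀ i j, i ≠ j → dt (P i) (P j) ≠ 0) :
    0 < Dt P := by
  unfold Dt
  refine Finset.prod_pos fun i _ => Finset.prod_pos fun j _ => ?_
  split_ifs with h
  · norm_num
  · exact Int.natAbs_pos.2 (hP i j h)

theorem meet {q : ℕ} {P : Fin q → ℤ × ℤ} {x : ℤ × ℤ} (hc : IsCoprime x.1 x.2) {p : ℕ}
    {i j : Fin q} (hij : i ≠ j) (h1 : p ∣ (dt (P i) x).natAbs)
    (h2 : p ∣ (dt (P j) x).natAbs) : p ∣ Dt P := by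
  have h3 : p ∣ (dt (P i) (P j)).natAbs := by
    obtain ⟨a, b, hab⟩ := hc
    obtain ⟨e1, e2⟩ := cramer (P i) (P j) x
    have h1' : (p : ℤ) ∣ dt (P i) x := Int.natCast_dvd.2 h1
    have h2' : (p : ℤ) ∣ dt (P j) x := Int.natCast_dvd.2 h2
    have h4 : (p : ℤ) ∣ dt (P i) (P j) := by
      have : dt (P i) (P j) = a * (dt (P i) (P j) * x.1) + b * (dt (P i) (P j) * x.2) := by
        calc dt (P i) (P j) = dt (P i) (P j) * (a * x.1 + b * x.2) := by rw [hab, mul_one]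
          _ = _ := by ring
      rw [this, e1, e2]
      exact dvd_add (dvd_mul_of_dvd_right (dvd_sub (h1'.mul_right _) (h2'.mul_right _)) _)
        (dvd_mul_of_dvd_right (dvd_sub (h1'.mul_right _) (h2'.mul_right _)) _)
    exact Int.natCast_dvd.1 h4
  refine h3.trans ?_
  unfold Dt
  have e1 := Finset.dvd_prod_of_mem (fun i => ∏ j, if i = j then 1 else (dt (P i) (P j)).natAbs)
    (mem_univ i)
  refine dvd_trans ?_ e1
  have e2 := Finset.dvd_prod_of_mem (fun j => if i = j then 1 else (dt (P i) (P j)).natAbs)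
    (mem_univ j)
  simpa [hij] using e2

/-- the product of the radicals -/
theorem prod_rad_le {q : ℕ} {P : Fin q → ℤ × ℤ} (hP : ∀ i j, i ≠ j → dt (P i) (P j) ≠ 0)
    {x : ℤ × ℤ} (hc : IsCoprime x.1 x.2) (hx : ∀ j, dt (P j) x ≠ 0) (s : Finset (Fin q)) :
    ∏ j ∈ s, rad (dt (P j) x).natAbs ≤ Dt P ^ s.card * rad (∏ j ∈ s, dt (P j) x).natAbs := by
  classical
  induction s using Finset.induction_on with
  | empty => simp [rad]
  | insert j s hj ih =>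
    have hne : (∏ i ∈ s, dt (P i) x).natAbs ≠ 0 :=
      Int.natAbs_ne_zero.2 (Finset.prod_ne_zero_iff.2 fun l _ => hx l)
    have hne2 : (dt (P j) x).natAbs ≠ 0 := Int.natAbs_ne_zero.2 (hx j)
    rw [prod_insert hj, prod_insert hj, card_insert_of_notMem hj, Int.natAbs_mul]
    have key : rad (dt (P j) x).natAbs * rad (∏ i ∈ s, dt (P i) x).natAbs ≤
        Dt P * rad ((dt (P j) x).natAbs * (∏ i ∈ s, dt (P i) x).natAbs) := by
      unfold rad
      rw [Nat.primeFactors_mul hne2 hne, ← Finset.prod_union_inter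
        (s₁ := (dt (P j) x).natAbs.primeFactors)
        (s₂ := (∏ i ∈ s, dt (P i) x).natAbs.primeFactors) (f := fun p => p), mul_comm]
      apply Nat.mul_le_mul_right
      calc ∏ p ∈ (dt (P j) x).natAbs.primeFactors ∩ (∏ i ∈ s, dt (P i) x).natAbs.primeFactors, p
          ≤ ∏ p ∈ (Dt P).primeFactors, p := by
            apply Finset.prod_le_prod_of_subset_of_one_le'
            · intro p hp
              rw [mem_inter] at hp
              have hpp := Nat.prime_of_mem_primeFactors hp.1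
              have h2 := Nat.dvd_of_mem_primeFactors hp.2
              rw [← Int.natCast_dvd] at h2
              obtain ⟨i, hi, hpi⟩ := (Prime.dvd_finsetProd_iff (Nat.prime_iff_prime_int.1 hpp) _).1 h2
              refine Nat.mem_primeFactors.2 ⟨hpp, ?_, (Dt_pos hP).ne'⟩
              exact meet hc (fun h => hj (by rw [h]; exact hi)) (Nat.dvd_of_mem_primeFactors hp.1)
                (Int.natCast_dvd.1 hpi)
            · intro p hp _
              exact (Nat.prime_of_mem_primeFactors hp).one_lt.le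
        _ ≤ Dt P := Nat.le_of_dvd (Dt_pos hP) (Nat.prod_primeFactors_dvd _)
    calc rad (dt (P j) x).natAbs * ∏ i ∈ s, rad (dt (P i) x).natAbs
        ≤ rad (dt (P j) x).natAbs * (Dt P ^ s.card * rad (∏ i ∈ s, dt (P i) x).natAbs) :=
          Nat.mul_le_mul_left _ ih
      _ = Dt P ^ s.card * (rad (dt (P j) x).natAbs * rad (∏ i ∈ s, dt (P i) x).natAbs) := by ring
      _ ≤ Dt P ^ s.card * (Dt P * rad ((dt (P j) x).natAbs * (∏ i ∈ s, dt (P i) x).natAbs)) :=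
          Nat.mul_le_mul_left _ key
      _ = _ := by ring

/-- two of the numbers are small -/
theorem two_small {q : ℕ} (hq : 3 ≤ q) (r : Fin q → ℕ) :
    ∃ i j k : Fin q, i ≠ j ∧ j ≠ k ∧ i ≠ k ∧ (r i * r j) ^ q ≤ (∏ l, r l) ^ 2 := by
  classical
  have : Nonempty (Fin q) := ⟨⟨0, by omega⟩⟩
  obtain ⟨i, -, hi⟩ := exists_min_image (univ : Finset (Fin q)) r univ_nonempty
  have hne : (univ.erase i : Finset (Fin q)).Nonempty := by
    rw [← card_pos, card_erase_of_mem (mem_univ i), card_univ, Fintype.card_fin]; omega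
  obtain ⟨j, hj, hj2⟩ := exists_min_image (univ.erase i : Finset (Fin q)) r hne
  have hne2 : ((univ.erase i).erase j : Finset (Fin q)).Nonempty := by
    rw [← card_pos, card_erase_of_mem hj, card_erase_of_mem (mem_univ i), card_univ,
      Fintype.card_fin]; omega
  obtain ⟨k, hk⟩ := hne2
  rw [mem_erase, mem_erase] at hk
  rw [mem_erase] at hj
  refine ⟨i, j, k, hj.1.symm, hk.1.symm, hk.2.1.symm, ?_⟩
  have hij : r i ≤ r j := hi j (mem_univ j)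
  have hprod : r i * r j ^ (q - 1) ≤ ∏ l, r l := by
    rw [← mul_prod_erase univ r (mem_univ i)]
    apply Nat.mul_le_mul_left
    have h := Finset.pow_card_le_prod (univ.erase i : Finset (Fin q)) r (r j) (fun l hl => hj2 l hl)
    rwa [card_erase_of_mem (mem_univ i), card_univ, Fintype.card_fin] at h
  calc (r i * r j) ^ q = r i ^ 2 * (r i ^ (q - 2) * r j ^ q) := by
        rw [mul_pow, ← mul_assoc, ← pow_add]; congr 2; omega
    _ ≤ r i ^ 2 * (r j ^ (q - 2) * r j ^ q) :=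
        Nat.mul_le_mul_left _ (Nat.mul_le_mul_right _ (Nat.pow_le_pow_left hij _))
    _ = (r i * r j ^ (q - 1)) ^ 2 := by
        rw [mul_pow, ← pow_add, ← pow_mul]; congr 2; omega
    _ ≤ (∏ l, r l) ^ 2 := Nat.pow_le_pow_left hprod 2

/-- the exceptions of the weak inequality `height ≤ rad ^ M` for the points on the line -/
def Exq {q : ℕ} (P : Fin q → ℤ × ℤ) (M X : ℕ) : Set (ℤ × ℤ) :=
  {x | IsCoprime x.1 x.2 ∧ (∀ j, dt (P j) x ≠ 0) ∧ rq P x ≤ X ∧ rq P x ^ M ≤ sz x}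

theorem fin_of_bdd {α : Type} {S : Set α} {B : ℝ}
    (h : ∀ Q : Finset α, (∀ x ∈ Q, x ∈ S) → (Q.card : ℝ) ≤ B) :
    S.Finite ∧ (S.ncard : ℝ) ≤ B := by
  have hf : S.Finite := by
    by_contra hinf
    obtain ⟨n, hn⟩ := exists_nat_gt B
    obtain ⟨t, ht, htc⟩ := Set.Infinite.exists_subset_card_eq hinf n
    have := h t (fun x hx => ht hx)
    rw [htc] at this
    linarith
  refine ⟨hf, ?_⟩
  rw [Set.ncard_eq_toFinset_card S hf]
  exact h _ fun x hx => hf.mem_toFinset.1 hx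

/-- the three points with the indices `i`, `j`, `k` -/
def sub3 {q : ℕ} (P : Fin q → ℤ × ℤ) (i j k : Fin q) : Fin 3 → ℤ × ℤ := ![P i, P j, P k]

theorem sub3_ne {q : ℕ} {P : Fin q → ℤ × ℤ} (hP : ∀ i j, i ≠ j → dt (P i) (P j) ≠ 0)
    {i j k : Fin q} (hij : i ≠ j) (hjk : j ≠ k) (hik : i ≠ k) :
    ∀ a b, a ≠ b → dt (sub3 P i j k a) (sub3 P i j k b) ≠ 0 := by
  have h : ∀ i : Fin 3, i = 0 ∨ i = 1 ∨ i = 2 := by decide
  intro a b hab
  rcases h a with rfl | rfl | rfl <;> rcases h b with rfl | rfl | rfl <;> first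
    | exact absurd rfl hab
    | exact hP _ _ hij
    | exact hP _ _ hij.symm
    | exact hP _ _ hjk
    | exact hP _ _ hjk.symm
    | exact hP _ _ hik
    | exact hP _ _ hik.symm

theorem rp_sub3_le {q : ℕ} {P : Fin q → ℤ × ℤ} {x : ℤ × ℤ} (hx : ∀ j, dt (P j) x ≠ 0)
    {i j k : Fin q} (hij : i ≠ j) (hjk : j ≠ k) (hik : i ≠ k) :
    rp (sub3 P i j k) x ≤ rq P x := by
  classical
  unfold rp rq
  refine Pool.Agent.T2H20.ABC.rad_le_of_dvd
    (Int.natAbs_ne_zero.2 (Finset.prod_ne_zero_iff.2 fun l _ => hx l)) ?_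
  rw [Int.natAbs_dvd_natAbs]
  have e : ∏ l, dt (sub3 P i j k l) x = ∏ l ∈ ({i, j, k} : Finset (Fin q)), dt (P l) x := by
    rw [Fin.prod_univ_three, prod_insert (by simp [hij, hik]), prod_pair hjk, ← mul_assoc]
    rfl
  rw [e]
  exact Finset.prod_dvd_prod_of_subset _ _ _ (subset_univ _)

/-- **many points**: the square root bound -/
theorem many_upper {q : ℕ} (hq : 3 ≤ q) {P : Fin q → ℤ × ℤ}
    (hP : ∀ i j, i ≠ j → dt (P i) (P j) ≠ 0) (ε : ℝ) (hε : 0 < ε) :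
    ∃ M : ℕ, ∃ C : ℝ, 0 < C ∧ ∀ X : ℕ, 1 ≤ X →
      (Exq P M X).Finite ∧ ((Exq P M X).ncard : ℝ) ≤ C * (X : ℝ) ^ (1 / (q : ℝ) + ε) := by
  classical
  have hex : ∀ z : Fin q × Fin q × Fin q, ∃ M : ℕ, ∃ C : ℝ, 0 < C ∧
      (z.1 ≠ z.2.1 → z.2.1 ≠ z.2.2 → z.1 ≠ z.2.2 → ∀ X R₁ R₂ : ℕ, 1 ≤ X → 1 ≤ R₁ → 1 ≤ R₂ →
      (Ex2 (sub3 P z.1 z.2.1 z.2.2) M X R₁ R₂).Finite ∧
      ((Ex2 (sub3 P z.1 z.2.1 z.2.2) M X R₁ R₂).ncard : ℝ) ≤
        C * (X : ℝ) ^ (ε / 2) * Real.sqrt ((R₁ : ℝ) * R₂)) := by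
    rintro ⟨i, j, k⟩
    by_cases h : i ≠ j ∧ j ≠ k ∧ i ≠ k
    · obtain ⟨M, C, hC, hh⟩ := two_upper (sub3_ne hP h.1 h.2.1 h.2.2) (ε / 2) (by positivity)
      exact ⟨M, C, hC, fun _ _ _ => hh⟩
    · exact ⟨0, 1, one_pos, fun h1 h2 h3 => absurd ⟨h1, h2, h3⟩ h⟩
  choose M C hC hMC using hex
  obtain ⟨M₀, hM₀⟩ : ∃ M₀, M₀ = ∑ z, M z := ⟨_, rfl⟩
  obtain ⟨C₀, hC₀⟩ : ∃ C₀, C₀ = ∑ z, C z := ⟨_, rfl⟩
  have hC₀p : 0 < C₀ := by
    rw [hC₀]
    have i0 : Fin q := ⟨0, by omega⟩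
    exact sum_pos (fun z _ => hC z) ⟨(i0, i0, i0), mem_univ _⟩
  have hMz : ∀ z, M z ≤ M₀ := fun z => by
    rw [hM₀]; exact single_le_sum (f := M) (fun _ _ => Nat.zero_le _) (mem_univ z)
  have hCz : ∀ z, C z ≤ C₀ := fun z => by
    rw [hC₀]; exact single_le_sum (f := C) (fun z _ => (hC z).le) (mem_univ z)
  obtain ⟨DL, hDL, hL⟩ := log_pow_le 2 (ε / 2) (by positivity)
  have hDt := Dt_pos hP
  obtain ⟨D, hD⟩ : ∃ D : ℕ, D = Dt P ^ q := ⟨_, rfl⟩
  have hD0 : 0 < D := by rw [hD]; positivity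
  have hq0 : (0 : ℝ) < q := by
    have : 0 < q := by omega
    exact_mod_cast this
  refine ⟨M₀, (q : ℝ) ^ 3 * DL * (C₀ * (2 * (D : ℝ) ^ (1 / (q : ℝ)))), by positivity,
    fun X hX => ?_⟩
  have hX0 : (0 : ℝ) < X := by exact_mod_cast hX
  apply fin_of_bdd
  intro Q hQ
  set ρ : Fin q → ℤ × ℤ → ℕ := fun l x => rad (dt (P l) x).natAbs with hρ
  have hρ1 : ∀ l x, 1 ≤ ρ l x := fun l x => Finset.prod_pos fun p hp =>
    (Nat.prime_of_mem_primeFactors hp).pos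
  have hρX : ∀ x ∈ Q, ∀ l, ρ l x ≤ X := by
    intro x hx l
    obtain ⟨x1, x2, x3, x4⟩ := hQ x hx
    refine le_trans ?_ x3
    exact Pool.Agent.T2H20.ABC.rad_le_of_dvd
      (Int.natAbs_ne_zero.2 (Finset.prod_ne_zero_iff.2 fun l _ => x2 l))
      (Int.natAbs_dvd_natAbs.2 (Finset.dvd_prod_of_mem _ (mem_univ l)))
  have b1 : (Q.card : ℝ) ≤ (((univ : Finset (Fin q × Fin q × Fin q)) ×ˢ
      (range (Nat.log 2 X + 1) ×ˢ range (Nat.log 2 X + 1))).card : ℝ) *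
        (C₀ * (X : ℝ) ^ (ε / 2) * (2 * ((D : ℝ) * X) ^ (1 / (q : ℝ)))) := by
    apply card_le_of_cover _ _ (fun z x => (z.1.1 ≠ z.1.2.1 ∧ z.1.2.1 ≠ z.1.2.2 ∧
      z.1.1 ≠ z.1.2.2 ∧ (ρ z.1.1 x * ρ z.1.2.1 x) ^ q ≤ (D * X) ^ 2) ∧
      z.2.1 = Nat.log 2 (ρ z.1.1 x) ∧ z.2.2 = Nat.log 2 (ρ z.1.2.1 x))
    · intro x hx
      obtain ⟨x1, x2, x3, x4⟩ := hQ x hx
      obtain ⟨i, j, k, hij, hjk, hik, hprod⟩ := two_small hq (fun l => ρ l x)
      refine ⟨((i, j, k), (Nat.log 2 (ρ i x), Nat.log 2 (ρ j x))), ?_,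
        ⟨hij, hjk, hik, hprod.trans (Nat.pow_le_pow_left ?_ 2)⟩, rfl, rfl⟩
      · rw [mem_product, mem_product, mem_range, mem_range]
        refine ⟨mem_univ _, ?_, ?_⟩
        · show Nat.log 2 (ρ i x) < Nat.log 2 X + 1
          exact Nat.lt_succ_of_le (Nat.log_mono_right (hρX x hx i))
        · show Nat.log 2 (ρ j x) < Nat.log 2 X + 1
          exact Nat.lt_succ_of_le (Nat.log_mono_right (hρX x hx j))
      · have h := prod_rad_le hP x1 x2 univ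
        rw [card_univ, Fintype.card_fin, ← hD] at h
        exact h.trans (Nat.mul_le_mul_left _ x3)
    · rintro ⟨⟨i, j, k⟩, u, v⟩ _
      simp only
      rcases (Q.filter fun x => (i ≠ j ∧ j ≠ k ∧ i ≠ k ∧ (ρ i x * ρ j x) ^ q ≤ (D * X) ^ 2) ∧
        u = Nat.log 2 (ρ i x) ∧ v = Nat.log 2 (ρ j x)).eq_empty_or_nonempty with h0 | ⟨x0, hx0⟩
      · rw [h0, card_empty, Nat.cast_zero]
        positivity
      rw [mem_filter] at hx0
      obtain ⟨hx0Q, ⟨hij, hjk, hik, hpr⟩, hu, hv⟩ := hx0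
      obtain ⟨hfin, hcard⟩ := hMC (i, j, k) hij hjk hik X (2 ^ (u + 1)) (2 ^ (v + 1)) hX
        Nat.one_le_two_pow Nat.one_le_two_pow
      have hsub : ((Q.filter fun x => (i ≠ j ∧ j ≠ k ∧ i ≠ k ∧
          (ρ i x * ρ j x) ^ q ≤ (D * X) ^ 2) ∧
          u = Nat.log 2 (ρ i x) ∧ v = Nat.log 2 (ρ j x) : Finset (ℤ × ℤ)) : Set (ℤ × ℤ)) ⊆
          Ex2 (sub3 P i j k) (M (i, j, k)) X (2 ^ (u + 1)) (2 ^ (v + 1)) := by
        intro x hx
        rw [Finset.mem_coe, mem_filter] at hx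
        obtain ⟨hxQ, -, hu', hv'⟩ := hx
        obtain ⟨x1, x2, x3, x4⟩ := hQ x hxQ
        have hr := rp_sub3_le x2 hij hjk hik
        have hh : ∀ i : Fin 3, i = 0 ∨ i = 1 ∨ i = 2 := by decide
        refine ⟨x1, ?_, hr.trans x3, ?_, ?_, ?_⟩
        · intro l
          rcases hh l with rfl | rfl | rfl
          · exact x2 i
          · exact x2 j
          · exact x2 k
        · rw [hu']; exact (Nat.lt_pow_succ_log_self (by norm_num) (ρ i x)).le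
        · rw [hv']; exact (Nat.lt_pow_succ_log_self (by norm_num) (ρ j x)).le
        · calc rp (sub3 P i j k) x ^ M (i, j, k) ≤ rq P x ^ M (i, j, k) :=
                Nat.pow_le_pow_left hr _
            _ ≤ rq P x ^ M₀ := by
                apply Nat.pow_le_pow_right _ (hMz _)
                exact Finset.prod_pos fun p hp => (Nat.prime_of_mem_primeFactors hp).pos
            _ ≤ sz x := x4
      have hc1 : (((Q.filter fun x => (i ≠ j ∧ j ≠ k ∧ i ≠ k ∧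
          (ρ i x * ρ j x) ^ q ≤ (D * X) ^ 2) ∧
          u = Nat.log 2 (ρ i x) ∧ v = Nat.log 2 (ρ j x)).card : ℕ) : ℝ) ≤
          ((Ex2 (sub3 P i j k) (M (i, j, k)) X (2 ^ (u + 1)) (2 ^ (v + 1))).ncard : ℝ) := by
        rw [← Set.ncard_coe_finset]
        exact Nat.cast_le.2 (Set.ncard_le_ncard hsub hfin)
      refine hc1.trans (hcard.trans ?_)
      have hsq : Real.sqrt (((2 ^ (u + 1) : ℕ) : ℝ) * ((2 ^ (v + 1) : ℕ) : ℝ)) ≤
          2 * ((D : ℝ) * X) ^ (1 / (q : ℝ)) := by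
        have e1 : (2 : ℕ) ^ (u + 1) * 2 ^ (v + 1) ≤ 4 * (ρ i x0 * ρ j x0) := by
          have f1 : 2 ^ u ≤ ρ i x0 := by
            rw [hu]; exact Nat.pow_log_le_self 2 (by have := hρ1 i x0; omega)
          have f2 : 2 ^ v ≤ ρ j x0 := by
            rw [hv]; exact Nat.pow_log_le_self 2 (by have := hρ1 j x0; omega)
          calc (2 : ℕ) ^ (u + 1) * 2 ^ (v + 1) = 4 * (2 ^ u * 2 ^ v) := by ring
            _ ≤ _ := Nat.mul_le_mul_left _ (Nat.mul_le_mul f1 f2)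
        have e2 : ((ρ i x0 * ρ j x0 : ℕ) : ℝ) ≤ (((D : ℝ) * X) ^ (1 / (q : ℝ))) ^ 2 := by
          have g1 : (((ρ i x0 * ρ j x0 : ℕ) : ℝ)) ^ q ≤ ((D : ℝ) * X) ^ 2 := by
            exact_mod_cast hpr
          have g2 : ((D : ℝ) * X) ^ 2 = ((((D : ℝ) * X) ^ (1 / (q : ℝ))) ^ 2) ^ q := by
            rw [← pow_mul, mul_comm 2 q, pow_mul, ← Real.rpow_natCast (_ ^ (1 / (q : ℝ))) q,
              ← Real.rpow_mul (by positivity), one_div_mul_cancel hq0.ne', Real.rpow_one]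
          rw [g2] at g1
          exact le_of_pow_le_pow_left₀ (by omega) (by positivity) g1
        rw [Real.sqrt_le_left (by positivity)]
        calc (((2 ^ (u + 1) : ℕ) : ℝ) * ((2 ^ (v + 1) : ℕ) : ℝ))
            ≤ 4 * ((ρ i x0 * ρ j x0 : ℕ) : ℝ) := by exact_mod_cast e1
          _ ≤ 4 * (((D : ℝ) * X) ^ (1 / (q : ℝ))) ^ 2 := by linarith
          _ = _ := by ring
      have hCC := hCz (i, j, k)
      exact mul_le_mul (mul_le_mul_of_nonneg_right hCC (by positivity)) hsq (Real.sqrt_nonneg _)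
        (by positivity)
  rw [card_product, card_product, card_range, card_univ, Fintype.card_prod, Fintype.card_prod,
    Fintype.card_fin] at b1
  have h11 := hL X hX
  refine b1.trans ?_
  have hV0 : (0 : ℝ) ≤ C₀ * (X : ℝ) ^ (ε / 2) * (2 * ((D : ℝ) * X) ^ (1 / (q : ℝ))) := by
    positivity
  calc ((q * (q * q) * ((Nat.log 2 X + 1) * (Nat.log 2 X + 1)) : ℕ) : ℝ) *
        (C₀ * (X : ℝ) ^ (ε / 2) * (2 * ((D : ℝ) * X) ^ (1 / (q : ℝ)))) ≤
      ((q : ℝ) ^ 3 * (DL * (X : ℝ) ^ (ε / 2))) *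
        (C₀ * (X : ℝ) ^ (ε / 2) * (2 * ((D : ℝ) * X) ^ (1 / (q : ℝ)))) := by
        apply mul_le_mul_of_nonneg_right _ hV0
        have : ((q * (q * q) * ((Nat.log 2 X + 1) * (Nat.log 2 X + 1)) : ℕ) : ℝ) =
            (q : ℝ) ^ 3 * ((Nat.log 2 X + 1 : ℕ) : ℝ) ^ 2 := by push_cast; ring
        rw [this]
        apply mul_le_mul_of_nonneg_left _ (by positivity)
        push_cast at h11 ⊢
        linarith
    _ = (q : ℝ) ^ 3 * DL * (C₀ * (2 * (D : ℝ) ^ (1 / (q : ℝ)))) *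
        (X : ℝ) ^ (1 / (q : ℝ) + ε) := by
        have e1 : ((D : ℝ) * X) ^ (1 / (q : ℝ)) = (D : ℝ) ^ (1 / (q : ℝ)) *
            (X : ℝ) ^ (1 / (q : ℝ)) := Real.mul_rpow (by positivity) hX0.le
        have e3 : (X : ℝ) ^ (1 / (q : ℝ) + ε) =
            (X : ℝ) ^ (1 / (q : ℝ)) * ((X : ℝ) ^ (ε / 2) * (X : ℝ) ^ (ε / 2)) := by
          rw [← Real.rpow_add hX0, ← Real.rpow_add hX0, add_halves]
        rw [e1, e3]
        ring

end Pool.Agent.T2H20.VS
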