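import Mathlib

/-! # Package A (helper20, VS): the choice of the forms (pure real analysis)

Paper proof of `choice`. Put `B = 12 / (7 q)`, `F = max B (1 - (q - 2) M)`. Sort the `e j`: let
`σ = Tuple.sort e`, so that `e ∘ σ` is monotone, `S_k` = the image under `σ` of the first `k` indices,
`E_k = ∑_{S_k} e`, `W_k = ∑_{S_k} w`. As the `e` are sorted, `(k - 1) E_k ≥ k E_(k-1)`
(`e_(σ k)` is at least each of the previous ones). Let `k`, `2 ≤ k ≤ q`, be the smallest number with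
`E_k - (k - 2) h ≤ B n`, and `k = q` if there is none. Claim: `S_k` has the properties, with
`C₁ = (q + 3) c`.

* `k = 2` and `E_2 ≤ B n`: `W_2 ≤ E_2 ≤ B n`.
* `k ≥ 3`: then `E_(k-1) > B n + (k - 3) h` (minimality; also if there is no such `k` at all and
  `k = q ≥ 3`). So `(k - 1) E_k ≥ k (B n + (k - 3) h)` and from `w j ≤ h - e j + c`
  `(k - 1) W_k ≤ (k - 1) (k h - E_k + k c) ≤ k (2 h - B n) + (k - 1) k c`.
  If `2 h ≤ B n` this gives `W_k ≤ k c`; otherwise `k / (k - 1) ≤ 3 / 2` and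
  `2 h - B n ≤ 18 n / (7 q) + 2 c - 12 n / (7 q) = 6 n / (7 q) + 2 c` give
  `W_k ≤ 9 n / (7 q) + 3 c + k c ≤ B n + (q + 3) c`.
* The first inequality holds by the choice of `k`, and if there is none, so `k = q`:
  `∑ e - (q - 2) h ≤ n + c - (q - 2) (M n - c) = (1 - (q - 2) M) n + (q - 1) c`.
-/

set_option autoImplicit false

namespace Pool.Agent.T2H20.VS

open Finset

/-- the sum over the first `k` indices after sorting -/
theorem sum_first {q : ℕ} (σ : Equiv.Perm (Fin q)) (e : Fin q → ℝ) {k : ℕ} (hk : k ≤ q) :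
    ∑ j ∈ (univ.filter fun i : Fin q => (i : ℕ) < k).map σ.toEmbedding, e j =
      ∑ i ∈ range k, if h : i < q then e (σ ⟨i, h⟩) else 0 := by
  rw [sum_map]
  refine sum_bij (fun (i : Fin q) _ => (i : ℕ)) ?_ ?_ ?_ ?_
  · intro i hi
    exact mem_range.2 (mem_filter.1 hi).2
  · intro i _ j _ h
    exact Fin.ext h
  · intro i hi
    rw [mem_range] at hi
    exact ⟨⟨i, by omega⟩, mem_filter.2 ⟨mem_univ _, hi⟩, rfl⟩
  · intro i hi
    rw [dif_pos i.2]
    rfl

theorem card_first {q : ℕ} (σ : Equiv.Perm (Fin q)) {k : ℕ} (hk : k ≤ q) :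
    ((univ.filter fun i : Fin q => (i : ℕ) < k).map σ.toEmbedding).card = k := by
  rw [card_map]
  have h : (univ.filter fun i : Fin q => (i : ℕ) < k).card = (range k).card := by
    refine card_bij (fun (i : Fin q) _ => (i : ℕ)) ?_ ?_ ?_
    · intro i hi
      exact mem_range.2 (mem_filter.1 hi).2
    · intro i _ j _ h
      exact Fin.ext h
    · intro i hi
      rw [mem_range] at hi
      exact ⟨⟨i, by omega⟩, mem_filter.2 ⟨mem_univ _, hi⟩, rfl⟩
  rw [h, card_range]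

theorem choice {q : ℕ} (hq : 3 ≤ q) (M c : ℝ) (hc : 0 ≤ c) : ∃ C₁ : ℝ, 0 ≤ C₁ ∧
    ∀ (n h : ℝ) (e w : Fin q → ℝ), 0 ≤ n → 0 ≤ h → (∀ j, 0 ≤ w j) → (∀ j, w j ≤ e j) →
      (∀ j, w j ≤ h - e j + c) → ∑ j, e j ≤ n + c → h ≤ 9 / (7 * (q : ℝ)) * n + c →
      M * n ≤ h + c →
      ∃ S : Finset (Fin q), 2 ≤ S.card ∧
        ∑ j ∈ S, e j - ((S.card : ℝ) - 2) * h ≤
          max (12 / (7 * (q : ℝ))) (1 - ((q : ℝ) - 2) * M) * n + C₁ ∧
        ∑ j ∈ S, w j ≤ max (12 / (7 * (q : ℝ))) (1 - ((q : ℝ) - 2) * M) * n + C₁ := by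
  classical
  have hq3 : (3 : ℝ) ≤ q := by exact_mod_cast hq
  have hq0 : (0 : ℝ) < q := by linarith
  refine ⟨(q + 3) * c, by positivity, ?_⟩
  intro n h e w hn hh hw0 hwe hwh hsum hhn hMn
  obtain ⟨F, hF⟩ : ∃ F : ℝ, F = max (12 / (7 * (q : ℝ))) (1 - ((q : ℝ) - 2) * M) := ⟨_, rfl⟩
  obtain ⟨B, hB⟩ : ∃ B : ℝ, B = 12 / (7 * (q : ℝ)) := ⟨_, rfl⟩
  have hBF : B ≤ F := by rw [hF, hB]; exact le_max_left _ _
  have hMF : 1 - ((q : ℝ) - 2) * M ≤ F := by rw [hF]; exact le_max_right _ _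
  have hBn : B * n ≤ F * n := mul_le_mul_of_nonneg_right hBF hn
  have hMFn : (1 - ((q : ℝ) - 2) * M) * n ≤ F * n := mul_le_mul_of_nonneg_right hMF hn
  have hBn0 : 0 ≤ B * n := mul_nonneg (by rw [hB]; positivity) hn
  have h9 : 9 / (7 * (q : ℝ)) * n = 3 / 4 * (B * n) := by rw [hB]; field_simp; ring
  rw [← hF]
  rw [h9] at hhn
  obtain ⟨σ, hσ⟩ : ∃ σ, σ = Tuple.sort e := ⟨_, rfl⟩
  have hmono : Monotone (e ∘ σ) := by rw [hσ]; exact Tuple.monotone_sort e
  obtain ⟨f, hf⟩ : ∃ f : ℕ → ℝ, f = fun i => if h : i < q then e (σ ⟨i, h⟩) else 0 := ⟨_, rfl⟩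
  obtain ⟨g, hg⟩ : ∃ g : ℕ → ℝ, g = fun i => if h : i < q then w (σ ⟨i, h⟩) else 0 := ⟨_, rfl⟩
  have hfe : ∀ k, k ≤ q →
      ∑ j ∈ (univ.filter fun i : Fin q => (i : ℕ) < k).map σ.toEmbedding, e j =
        ∑ i ∈ range k, f i := fun k hk => by rw [hf]; exact sum_first σ e hk
  have hge : ∀ k, k ≤ q →
      ∑ j ∈ (univ.filter fun i : Fin q => (i : ℕ) < k).map σ.toEmbedding, w j =
        ∑ i ∈ range k, g i := fun k hk => by rw [hg]; exact sum_first σ w hk
  have hfmono : ∀ i j, i ≤ j → j < q → f i ≤ f j := by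
    intro i j hij hj
    rw [hf]
    simp only [dif_pos (lt_of_le_of_lt hij hj), dif_pos hj]
    exact hmono (show (⟨i, lt_of_le_of_lt hij hj⟩ : Fin q) ≤ ⟨j, hj⟩ from hij)
  have hgf : ∀ i, i < q → g i ≤ f i := by
    intro i hi
    rw [hf, hg]
    simp only [dif_pos hi]
    exact hwe _
  have hgh : ∀ i, i < q → g i ≤ h - f i + c := by
    intro i hi
    rw [hf, hg]
    simp only [dif_pos hi]
    exact hwh _
  -- the choice of `k`
  have hex : ∃ k : ℕ, 2 ≤ k ∧ (∑ i ∈ range k, f i - ((k : ℝ) - 2) * h ≤ B * n ∨ q ≤ k) :=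
    ⟨q, by omega, Or.inr le_rfl⟩
  obtain ⟨k, ⟨hk2, hk⟩, hmin⟩ : ∃ k : ℕ, (2 ≤ k ∧
      (∑ i ∈ range k, f i - ((k : ℝ) - 2) * h ≤ B * n ∨ q ≤ k)) ∧ ∀ k', k' < k →
      ¬ (2 ≤ k' ∧ (∑ i ∈ range k', f i - ((k' : ℝ) - 2) * h ≤ B * n ∨ q ≤ k')) :=
    ⟨Nat.find hex, Nat.find_spec hex, fun k' hk' => Nat.find_min hex hk'⟩
  have hkq : k ≤ q := by
    by_contra hcon
    exact hmin q (by omega) ⟨by omega, Or.inr le_rfl⟩
  have hkr : (2 : ℝ) ≤ k := by exact_mod_cast hk2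
  have hkqr : (k : ℝ) ≤ q := by exact_mod_cast hkq
  refine ⟨(univ.filter fun i : Fin q => (i : ℕ) < k).map σ.toEmbedding, ?_, ?_, ?_⟩
  · rw [card_first σ hkq]; exact hk2
  · rw [card_first σ hkq, hfe k hkq]
    rcases hk with h1 | h1
    · have : 0 ≤ ((q : ℝ) + 3) * c := by positivity
      linarith
    · have hkeq : k = q := le_antisymm hkq h1
      have h2 : ∑ i ∈ range k, f i = ∑ j, e j := by
        rw [← hfe k hkq, hkeq]
        have h3 : (univ.filter fun i : Fin q => (i : ℕ) < q) = univ :=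
          filter_true_of_mem fun i _ => i.2
        rw [h3, sum_map]
        exact Equiv.sum_comp σ e
      rw [h2, hkeq]
      have h4 : ((q : ℝ) - 2) * (M * n) ≤ ((q : ℝ) - 2) * (h + c) :=
        mul_le_mul_of_nonneg_left hMn (by linarith)
      nlinarith
  · rw [hge k hkq]
    rcases Nat.lt_or_ge 2 k with hk3 | hk3
    · -- `k ≥ 3`
      have hk1 := hmin (k - 1) (by omega)
      push Not at hk1
      obtain ⟨h1, h2⟩ := hk1 (by omega)
      have hkm : ((k - 1 : ℕ) : ℝ) = k - 1 := by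
        rw [Nat.cast_sub (by omega)]; norm_num
      rw [hkm] at h1
      have hk3r : (3 : ℝ) ≤ k := by exact_mod_cast hk3
      have hE : ∑ i ∈ range k, f i = ∑ i ∈ range (k - 1), f i + f (k - 1) := by
        conv_lhs => rw [show k = k - 1 + 1 by omega]
        rw [sum_range_succ]
      have hE1 : ∑ i ∈ range (k - 1), f i ≤ ((k : ℝ) - 1) * f (k - 1) := by
        have := sum_le_card_nsmul (range (k - 1)) f (f (k - 1)) (fun i hi => by
          rw [mem_range] at hi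
          exact hfmono i (k - 1) (by omega) (by omega))
        rw [card_range, nsmul_eq_mul, hkm] at this
        exact this
      have hW : ∑ i ∈ range k, g i ≤ k * h - ∑ i ∈ range k, f i + k * c := by
        calc ∑ i ∈ range k, g i ≤ ∑ i ∈ range k, (h - f i + c) :=
              sum_le_sum fun i hi => hgh i (by rw [mem_range] at hi; omega)
          _ = _ := by
              rw [sum_add_distrib, sum_sub_distrib, sum_const, sum_const, card_range,
                nsmul_eq_mul, nsmul_eq_mul]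
      obtain ⟨E, hEd⟩ : ∃ E, E = ∑ i ∈ range k, f i := ⟨_, rfl⟩
      obtain ⟨E', hE'd⟩ : ∃ E', E' = ∑ i ∈ range (k - 1), f i := ⟨_, rfl⟩
      obtain ⟨W, hWd⟩ : ∃ W, W = ∑ i ∈ range k, g i := ⟨_, rfl⟩
      rw [← hEd, ← hE'd] at hE
      rw [← hE'd] at hE1 h1
      rw [← hWd, ← hEd] at hW
      rw [← hWd]
      -- `(k - 1) E ≥ k E'`
      have a1 : (k : ℝ) * E' ≤ ((k : ℝ) - 1) * E := by rw [hE]; nlinarith
      have a2 : (k : ℝ) * (B * n + ((k : ℝ) - 3) * h) ≤ ((k : ℝ) - 1) * E := by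
        refine le_trans ?_ a1
        apply mul_le_mul_of_nonneg_left _ (by linarith)
        linarith
      have a3 : ((k : ℝ) - 1) * W ≤ (k : ℝ) * (2 * h - B * n) + ((k : ℝ) - 1) * (k * c) := by
        have := mul_le_mul_of_nonneg_left hW (show (0 : ℝ) ≤ (k : ℝ) - 1 by linarith)
        nlinarith
      have a4 : 2 * h - B * n ≤ B * n / 2 + 2 * c := by linarith
      have a5 : (k : ℝ) * (2 * h - B * n) ≤ ((k : ℝ) - 1) * (3 / 2 * (B * n / 2 + 2 * c)) := by
        calc (k : ℝ) * (2 * h - B * n) ≤ k * (B * n / 2 + 2 * c) :=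
              mul_le_mul_of_nonneg_left a4 (by linarith)
          _ ≤ (((k : ℝ) - 1) * (3 / 2)) * (B * n / 2 + 2 * c) :=
              mul_le_mul_of_nonneg_right (by linarith) (by linarith)
          _ = _ := by ring
      have a6 : ((k : ℝ) - 1) * W ≤ ((k : ℝ) - 1) * (3 / 2 * (B * n / 2 + 2 * c) + k * c) := by
        linarith
      have a7 := le_of_mul_le_mul_left a6 (by linarith : (0 : ℝ) < (k : ℝ) - 1)
      have a8 : (k : ℝ) * c ≤ q * c := mul_le_mul_of_nonneg_right hkqr hc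
      nlinarith
    · have hkeq : k = 2 := le_antisymm hk3 hk2
      rcases hk with h1 | h1
      · have h2 : ∑ i ∈ range k, g i ≤ ∑ i ∈ range k, f i :=
          sum_le_sum fun i hi => hgf i (by rw [mem_range] at hi; omega)
        rw [hkeq] at h1 h2 ⊢
        push_cast at h1
        have : 0 ≤ ((q : ℝ) + 3) * c := by positivity
        linarith
      · omega

end Pool.Agent.T2H20.VS
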