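import Pool.Agent.T2H20.VS.Lc

/-! # Package B (helper20, VS): points of large height

`P 0, …, P (q - 1)` are `q ≥ 3` pairs of integers, `dt P x = P.1 * x.2 - P.2 * x.1`,
`dt (P i) (P j) ≠ 0` for `i ≠ j`; `rq P x = rad |∏_j dt (P j) x|`, `sz x = max |x.1| |x.2|`.

`three_small` : three of the numbers `r l`, `l < q`, have `(r i * r j * r k) ^ q ≤ (∏ l, r l) ^ 3`. Proof: as
`two_small` in `VS/Lc.lean`: take the three smallest ones, `r i ≤ r j ≤ r k`; then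
`r i * r j * r k ^ (q - 2) ≤ ∏ l, r l`, and `(r i r j r k) ^ q ≤ (r i r j r k ^ (q - 2)) ^ 3` because
`r i ^ (q - 3) * r j ^ (q - 3) ≤ r k ^ (2 q - 6)`.

`large_upper`: by `prod_rad_le` (`Lc.lean`: `∏ l, rad |dt (P l) x| ≤ Dt P ^ q * rq P x`) and `three_small` there
are `i, j, k` different with `rad d_i * rad d_j * rad d_k ≤ (D * rq P x) ^ (3 / q)`, `D = Dt P ^ q`. So for
`P' = sub3 P i j k` (`sub3_ne`: `dt (P' a) (P' b) ≠ 0`) one has
`rp P' x ≤ rad d_i * rad d_j * rad d_k ≤ (D * rq P x) ^ (3 / q) ≤ X' = (D * X) ^ (3 / q)`, and from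
`κ * rq ^ (9 / (7 q)) ≤ sz x` one has `κ' * (rp P' x) ^ (3 / 7) ≤ sz x`, `κ' = κ / D ^ (9 / (7 q))`. So
`x ∈ Ex3 P' κ' (3 / 7) X'` and `three_upper` (`Lb.lean`, with `M = 3 / 7`: `max (4 / 7) (1 - M) = 4 / 7`)
gives `≤ C X' ^ (4 / 7 + ε')` points for each of the `q ^ 3` triples `(i, j, k)`;
`X' ^ (4 / 7 + ε') ≤ C X ^ (12 / (7 q) + ε)` for `ε' = ε q / 3` (or smaller). Compare the proof of `many_upper` in `Lc.lean`.
-/

set_option autoImplicit false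

namespace Pool.Agent.T2H20.VS

open Finset Pool.Agent.H785R2.ABC Pool.Agent.H785R2.ABC.EC Pool.Agent.T2H20.ABC Pool.Agent.T2H20.AH

theorem three_small {q : ℕ} (hq : 3 ≤ q) (r : Fin q → ℕ) :
    ∃ i j k : Fin q, i ≠ j ∧ j ≠ k ∧ i ≠ k ∧ (r i * r j * r k) ^ q ≤ (∏ l, r l) ^ 3 := by
  classical
  have : Nonempty (Fin q) := ⟨⟨0, by omega⟩⟩
  obtain ⟨i, -, hi⟩ := exists_min_image (univ : Finset (Fin q)) r univ_nonempty
  have hne : (univ.erase i : Finset (Fin q)).Nonempty := by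
    rw [← card_pos, card_erase_of_mem (mem_univ i), card_univ, Fintype.card_fin]; omega
  obtain ⟨j, hj, hj2⟩ := exists_min_image (univ.erase i : Finset (Fin q)) r hne
  have hne2 : ((univ.erase i).erase j : Finset (Fin q)).Nonempty := by
    rw [← card_pos, card_erase_of_mem hj, card_erase_of_mem (mem_univ i), card_univ,
      Fintype.card_fin]; omega
  obtain ⟨k, hk, hk2⟩ := exists_min_image ((univ.erase i).erase j : Finset (Fin q)) r hne2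
  have hk' := hk
  rw [mem_erase, mem_erase] at hk'
  have hj' := hj
  rw [mem_erase] at hj'
  refine ⟨i, j, k, hj'.1.symm, hk'.1.symm, hk'.2.1.symm, ?_⟩
  have hik : r i ≤ r k := hi k (mem_univ k)
  have hjk : r j ≤ r k := hj2 k (mem_of_mem_erase hk)
  have hprod : r i * (r j * r k ^ (q - 2)) ≤ ∏ l, r l := by
    rw [← mul_prod_erase univ r (mem_univ i)]
    apply Nat.mul_le_mul_left
    rw [← mul_prod_erase (univ.erase i) r hj]
    apply Nat.mul_le_mul_left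
    have h := Finset.pow_card_le_prod ((univ.erase i).erase j : Finset (Fin q)) r (r k)
      (fun l hl => hk2 l hl)
    rw [card_erase_of_mem hj, card_erase_of_mem (mem_univ i), card_univ, Fintype.card_fin] at h
    exact h
  obtain ⟨s, rfl⟩ : ∃ s, q = s + 3 := ⟨q - 3, by omega⟩
  have e1 : s + 3 - 2 = s + 1 := by omega
  rw [e1] at hprod
  calc (r i * r j * r k) ^ (s + 3) = (r i * r j) ^ 3 * ((r i ^ s * r j ^ s) * r k ^ (s + 3)) := by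
        ring
    _ ≤ (r i * r j) ^ 3 * ((r k ^ s * r k ^ s) * r k ^ (s + 3)) :=
        Nat.mul_le_mul_left _ (Nat.mul_le_mul_right _
          (Nat.mul_le_mul (Nat.pow_le_pow_left hik _) (Nat.pow_le_pow_left hjk _)))
    _ = (r i * (r j * r k ^ (s + 1))) ^ 3 := by ring
    _ ≤ (∏ l, r l) ^ 3 := Nat.pow_le_pow_left hprod 3

theorem rp_sub3_le_rad {q : ℕ} {P : Fin q → ℤ × ℤ} {x : ℤ × ℤ} (hx : ∀ j, dt (P j) x ≠ 0)
    (i j k : Fin q) :
    rp (sub3 P i j k) x ≤ rad (dt (P i) x).natAbs * rad (dt (P j) x).natAbs *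
      rad (dt (P k) x).natAbs := by
  have e : (∏ l, dt (sub3 P i j k l) x).natAbs =
      (dt (P i) x).natAbs * (dt (P j) x).natAbs * (dt (P k) x).natAbs := by
    rw [Fin.prod_univ_three, Int.natAbs_mul, Int.natAbs_mul]
    rfl
  unfold rp
  rw [e]
  have h1 : (dt (P i) x).natAbs ≠ 0 := Int.natAbs_ne_zero.2 (hx i)
  have h2 : (dt (P j) x).natAbs ≠ 0 := Int.natAbs_ne_zero.2 (hx j)
  have h3 : (dt (P k) x).natAbs ≠ 0 := Int.natAbs_ne_zero.2 (hx k)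
  exact (rad_mul_le (mul_ne_zero h1 h2) h3).trans (Nat.mul_le_mul_right _ (rad_mul_le h1 h2))

theorem large_upper {q : ℕ} (hq : 3 ≤ q) {P : Fin q → ℤ × ℤ}
    (hP : ∀ i j, i ≠ j → dt (P i) (P j) ≠ 0) (κ ε : ℝ) (hκ : 0 < κ) (hε : 0 < ε) :
    ∃ C : ℝ, 0 < C ∧ ∀ X : ℝ, 1 ≤ X →
      {x : ℤ × ℤ | IsCoprime x.1 x.2 ∧ (∀ j, dt (P j) x ≠ 0) ∧ (rq P x : ℝ) ≤ X ∧
        κ * (rq P x : ℝ) ^ (9 / (7 * (q : ℝ))) ≤ (sz x : ℝ)}.Finite ∧
      ({x : ℤ × ℤ | IsCoprime x.1 x.2 ∧ (∀ j, dt (P j) x ≠ 0) ∧ (rq P x : ℝ) ≤ X ∧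
        κ * (rq P x : ℝ) ^ (9 / (7 * (q : ℝ))) ≤ (sz x : ℝ)}.ncard : ℝ) ≤
        C * X ^ (12 / (7 * (q : ℝ)) + ε) := by
  classical
  have hDt := Dt_pos hP
  obtain ⟨D, hD⟩ : ∃ D : ℕ, D = Dt P ^ q := ⟨_, rfl⟩
  have hD0 : 0 < D := by rw [hD]; positivity
  have hD0r : (0 : ℝ) < D := by exact_mod_cast hD0
  have hD1r : (1 : ℝ) ≤ D := by exact_mod_cast hD0
  have hq0 : (0 : ℝ) < q := by
    have : 0 < q := by omega
    exact_mod_cast this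
  have hq3 : (3 : ℝ) ≤ q := by exact_mod_cast hq
  obtain ⟨κ', hκ'⟩ : ∃ κ' : ℝ, κ' = κ / (D : ℝ) ^ (9 / (7 * (q : ℝ))) := ⟨_, rfl⟩
  have hκ'0 : 0 < κ' := by rw [hκ']; positivity
  have hex : ∀ z : Fin q × Fin q × Fin q, ∃ C : ℝ, 0 < C ∧
      (z.1 ≠ z.2.1 → z.2.1 ≠ z.2.2 → z.1 ≠ z.2.2 → ∀ X : ℝ, 1 ≤ X →
      (Ex3 (sub3 P z.1 z.2.1 z.2.2) κ' (3 / 7) X).Finite ∧
      ((Ex3 (sub3 P z.1 z.2.1 z.2.2) κ' (3 / 7) X).ncard : ℝ) ≤ C * X ^ (4 / 7 + ε)) := by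
    rintro ⟨i, j, k⟩
    by_cases h : i ≠ j ∧ j ≠ k ∧ i ≠ k
    · obtain ⟨C, hC, hh⟩ := three_upper (sub3_ne hP h.1 h.2.1 h.2.2) κ' (3 / 7) ε hκ'0
        (by norm_num) hε
      have e : max (4 / 7 : ℝ) (1 - 3 / 7) = 4 / 7 := by norm_num
      rw [e] at hh
      exact ⟨C, hC, fun _ _ _ => hh⟩
    · exact ⟨1, one_pos, fun h1 h2 h3 => absurd ⟨h1, h2, h3⟩ h⟩
  choose C hC hMC using hex
  obtain ⟨C₀, hC₀⟩ : ∃ C₀, C₀ = ∑ z, C z := ⟨_, rfl⟩
  have hC₀p : 0 < C₀ := by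
    rw [hC₀]
    have i0 : Fin q := ⟨0, by omega⟩
    exact sum_pos (fun z _ => hC z) ⟨(i0, i0, i0), mem_univ _⟩
  have hCz : ∀ z, C z ≤ C₀ := fun z => by
    rw [hC₀]; exact single_le_sum (f := C) (fun z _ => (hC z).le) (mem_univ z)
  refine ⟨(q : ℝ) ^ 3 * (C₀ * (D : ℝ) ^ (12 / (7 * (q : ℝ)) + ε)), by positivity, fun X hX => ?_⟩
  have hX0 : (0 : ℝ) < X := by linarith
  have hDX1 : 1 ≤ (D : ℝ) * X := by nlinarith
  have hX'1 : 1 ≤ ((D : ℝ) * X) ^ (3 / (q : ℝ)) := Real.one_le_rpow hDX1 (by positivity)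
  apply fin_of_bdd
  intro Q hQ
  set ρ : Fin q → ℤ × ℤ → ℕ := fun l x => rad (dt (P l) x).natAbs with hρ
  have hcov : ∀ x ∈ Q, ∃ z : Fin q × Fin q × Fin q, (z.1 ≠ z.2.1 ∧ z.2.1 ≠ z.2.2 ∧ z.1 ≠ z.2.2) ∧
      x ∈ Ex3 (sub3 P z.1 z.2.1 z.2.2) κ' (3 / 7) (((D : ℝ) * X) ^ (3 / (q : ℝ))) := by
    intro x hx
    obtain ⟨x1, x2, x3, x4⟩ := hQ x hx
    obtain ⟨i, j, k, hij, hjk, hik, hprod⟩ := three_small hq (fun l => ρ l x)
    have hrq0 : (0 : ℝ) ≤ rq P x := by positivity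
    have h := prod_rad_le hP x1 x2 univ
    rw [card_univ, Fintype.card_fin, ← hD] at h
    have h' : (ρ i x * ρ j x * ρ k x) ^ q ≤ (D * rq P x) ^ 3 :=
      hprod.trans (Nat.pow_le_pow_left h 3)
    have hr : ((ρ i x * ρ j x * ρ k x : ℕ) : ℝ) ≤ ((D : ℝ) * rq P x) ^ (3 / (q : ℝ)) := by
      have g1 : (((ρ i x * ρ j x * ρ k x : ℕ) : ℝ)) ^ q ≤ ((D : ℝ) * rq P x) ^ 3 := by
        exact_mod_cast h'
      have g2 : ((D : ℝ) * rq P x) ^ 3 = (((D : ℝ) * rq P x) ^ (3 / (q : ℝ))) ^ q := by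
        rw [← Real.rpow_natCast (_ ^ (3 / (q : ℝ))) q, ← Real.rpow_mul (by positivity),
          div_mul_cancel₀ _ hq0.ne', ← Real.rpow_natCast]
        norm_num
      rw [g2] at g1
      exact le_of_pow_le_pow_left₀ (by omega) (by positivity) g1
    have hrp : (rp (sub3 P i j k) x : ℝ) ≤ ((D : ℝ) * rq P x) ^ (3 / (q : ℝ)) := by
      refine le_trans ?_ hr
      exact_mod_cast rp_sub3_le_rad x2 i j k
    refine ⟨(i, j, k), ⟨hij, hjk, hik⟩, x1, ?_, ?_, ?_⟩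
    · have hh : ∀ i : Fin 3, i = 0 ∨ i = 1 ∨ i = 2 := by decide
      intro l
      rcases hh l with rfl | rfl | rfl
      · exact x2 i
      · exact x2 j
      · exact x2 k
    · refine hrp.trans ?_
      apply Real.rpow_le_rpow (by positivity) _ (by positivity)
      exact mul_le_mul_of_nonneg_left x3 hD0r.le
    · have e1 : (rp (sub3 P i j k) x : ℝ) ^ (3 / 7 : ℝ) ≤
          (D : ℝ) ^ (9 / (7 * (q : ℝ))) * (rq P x : ℝ) ^ (9 / (7 * (q : ℝ))) := by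
        calc (rp (sub3 P i j k) x : ℝ) ^ (3 / 7 : ℝ)
            ≤ (((D : ℝ) * rq P x) ^ (3 / (q : ℝ))) ^ (3 / 7 : ℝ) :=
              Real.rpow_le_rpow (by positivity) hrp (by norm_num)
          _ = ((D : ℝ) * rq P x) ^ (9 / (7 * (q : ℝ))) := by
              rw [← Real.rpow_mul (by positivity)]
              congr 1
              field_simp
              norm_num
          _ = _ := Real.mul_rpow hD0r.le hrq0
      calc κ' * (rp (sub3 P i j k) x : ℝ) ^ (3 / 7 : ℝ)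
          ≤ κ' * ((D : ℝ) ^ (9 / (7 * (q : ℝ))) * (rq P x : ℝ) ^ (9 / (7 * (q : ℝ)))) :=
            mul_le_mul_of_nonneg_left e1 hκ'0.le
        _ = κ * (rq P x : ℝ) ^ (9 / (7 * (q : ℝ))) := by
            rw [hκ']
            field_simp
        _ ≤ sz x := x4
  have hne0 : Nonempty (Fin q × Fin q × Fin q) := ⟨(⟨0, by omega⟩, ⟨0, by omega⟩, ⟨0, by omega⟩)⟩
  choose! zf hzf using hcov
  have b1 : (Q.card : ℝ) ≤ ∑ z ∈ (univ : Finset (Fin q × Fin q × Fin q)),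
      C₀ * (((D : ℝ) * X) ^ (3 / (q : ℝ))) ^ (4 / 7 + ε) := by
    rw [Finset.card_eq_sum_card_fiberwise (f := zf) (t := univ) (fun _ _ => mem_univ _)]
    push_cast
    apply Finset.sum_le_sum
    intro z _
    rcases (Q.filter fun x => zf x = z).eq_empty_or_nonempty with h0 | ⟨x0, hx0⟩
    · rw [h0, card_empty, Nat.cast_zero]
      positivity
    rw [mem_filter] at hx0
    have hv := (hzf x0 hx0.1).1
    rw [hx0.2] at hv
    obtain ⟨hfin, hcard⟩ := hMC z hv.1 hv.2.1 hv.2.2 _ hX'1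
    have hsub : ((Q.filter fun x => zf x = z : Finset (ℤ × ℤ)) : Set (ℤ × ℤ)) ⊆
        Ex3 (sub3 P z.1 z.2.1 z.2.2) κ' (3 / 7) (((D : ℝ) * X) ^ (3 / (q : ℝ))) := by
      intro x hx
      rw [Finset.mem_coe, mem_filter] at hx
      have := (hzf x hx.1).2
      rwa [hx.2] at this
    have hc1 : ((Q.filter fun x => zf x = z).card : ℝ) ≤
        ((Ex3 (sub3 P z.1 z.2.1 z.2.2) κ' (3 / 7) (((D : ℝ) * X) ^ (3 / (q : ℝ)))).ncard : ℝ) := by
      rw [← Set.ncard_coe_finset]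
      exact Nat.cast_le.2 (Set.ncard_le_ncard hsub hfin)
    refine hc1.trans (hcard.trans ?_)
    exact mul_le_mul_of_nonneg_right (hCz z) (by positivity)
  rw [sum_const, card_univ, Fintype.card_prod, Fintype.card_prod, Fintype.card_fin,
    nsmul_eq_mul] at b1
  refine b1.trans ?_
  have e2 : (((D : ℝ) * X) ^ (3 / (q : ℝ))) ^ (4 / 7 + ε) ≤
      (D : ℝ) ^ (12 / (7 * (q : ℝ)) + ε) * X ^ (12 / (7 * (q : ℝ)) + ε) := by
    rw [← Real.rpow_mul (by positivity), ← Real.mul_rpow hD0r.le hX0.le]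
    apply Real.rpow_le_rpow_of_exponent_le hDX1
    have : 3 / (q : ℝ) * (4 / 7 + ε) = 12 / (7 * (q : ℝ)) + 3 / (q : ℝ) * ε := by
      field_simp
      ring
    rw [this]
    have h3q : 3 / (q : ℝ) ≤ 1 := by rw [div_le_one hq0]; exact hq3
    nlinarith
  calc ((q * (q * q) : ℕ) : ℝ) * (C₀ * (((D : ℝ) * X) ^ (3 / (q : ℝ))) ^ (4 / 7 + ε))
      ≤ ((q * (q * q) : ℕ) : ℝ) * (C₀ * ((D : ℝ) ^ (12 / (7 * (q : ℝ)) + ε) *
        X ^ (12 / (7 * (q : ℝ)) + ε))) :=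
        mul_le_mul_of_nonneg_left (mul_le_mul_of_nonneg_left e2 hC₀p.le) (by positivity)
    _ = _ := by push_cast; ring

end Pool.Agent.T2H20.VS
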