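import Pool.Agent.T2H20.VS.Lc

/-! # Package C (helper20, VS): the lower bound for the number of exceptions

`P 0, …, P (q - 1)` are `q ≥ 3` pairs of integers, `dt P x = P.1 * x.2 - P.2 * x.1`,
`dt (P i) (P j) ≠ 0` for `i ≠ j`; `rq P x = rad |∏_j dt (P j) x|`, `sz x = max |x.1| |x.2|`.

Paper proof of `lower`. Let `Δ = |dt (P 0) (P 1)| ≥ 1`, `U ≥ 1` with `sz (P j) ≤ U` for all `j`, `λ = 4 U κ + 1`,
`K ≥ 1` large with `8 Δ ^ 2 (8 U ^ 2 λ) ^ (q - 2) λ ^ 2 ≤ K ^ 2`, `V = X ^ (q M - 1)` (this tends to infinity, as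
`M > 1 / q`), `Z = (λ / K) X ^ M`, `Y = Z / V` (this tends to infinity, as `M < 1 / (q - 1)`), and
`2 ^ k ≤ K V < 2 ^ (k + 1)`. Let `a` run through the primes in `[Y, 2 Y)`, and `b` through the primes in
`[Z, 2 Z)` (`Pool.Agent.T2H20.AH.card_DP`: there are at least `Y ^ (1 - η)` and `Z ^ (1 - η)` for large `X`).
For large `X` we have `b > 2`, `b ≠ a` (as `2 Y ≤ Z`) and `b > 2 U ^ 2`. Consider
`x = 2 ^ k a P_1 - b P_0` (`x.1 = 2 ^ k * a * (P 1).1 - b * (P 0).1`, same for `.2`), and `x' = x / g`, `g` the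
greatest common divisor of the coordinates of `x`.

* `dt (P 0) x = 2 ^ k a dt (P 0) (P 1)`, `dt (P 1) x = - b dt (P 1) (P 0)`, so `g ∣ 2 ^ k a Δ`, `g ∣ b Δ`, so `g ∣ Δ`
  (`2 ^ k a` and `b` are coprime).
* The pair `(a, b)` is determined by `x'`: the ratio of `dt (P 0) x'` and `dt (P 1) x'` is `± 2 ^ k a / b`, a
  reduced fraction. So different pairs give different coprime `x'` (`card_le_card_of_injOn`).
* `dt (P j) x ≠ 0` for `j ≥ 2`: otherwise `2 ^ k a dt (P j) (P 1) = b dt (P j) (P 0)`, so `b ∣ dt (P j) (P 1)`, which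
  is not `0` and of absolute value at most `2 U ^ 2 < b`.
* `sz x' ≤ sz x ≤ U (2 ^ k a + b) ≤ U (K V 2 Y + 2 Z) ≤ 4 U λ X ^ M`.
* `2 U sz x' ≥ |dt (P 0) x'| = 2 ^ k a Δ / g ≥ 2 ^ k a ≥ (K V / 2) Y = λ X ^ M / 2`, so `sz x' ≥ λ X ^ M / (4 U) ≥ κ X ^ M`.
* `rq P x'` is at most `rad (2 ^ k a Δ) * (b Δ) * ∏_{j ≥ 2} |dt (P j) x'| ≤ 2 a Δ * b Δ * (2 U sz x') ^ (q - 2)`
  `≤ 2 (2 Y) (2 Z) Δ ^ 2 (8 U ^ 2 λ X ^ M) ^ (q - 2) = 8 Δ ^ 2 (8 U ^ 2 λ) ^ (q - 2) (λ / K) ^ 2 X ^ (q M) / V ≤ X`.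

So `κ (rq P x') ^ M ≤ κ X ^ M ≤ sz x'`. The number of the pairs is at least `(Y Z) ^ (1 - η)`, and
`Y Z = (λ / K) ^ 2 X ^ (2 M) / V = (λ / K) ^ 2 X ^ (1 - (q - 2) M)`, where `1 - (q - 2) M > 0`; so it is at least
`X ^ (1 - (q - 2) M - ε)` for small `η` and large `X`.
Compare `Pool.Agent.T2H20.AH.prof_lower` in `T2H20/AH/Hb.lean` (the case of `a + b = c`).
-/

set_option autoImplicit false

namespace Pool.Agent.T2H20.VS

open Finset Pool.Agent.H785R2.ABC Filter Topology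

theorem dt_comb (A P Q : ℤ × ℤ) (s t : ℤ) :
    dt A (s * P.1 - t * Q.1, s * P.2 - t * Q.2) = s * dt A P - t * dt A Q := by
  simp only [dt]; ring

theorem dt_self (P : ℤ × ℤ) : dt P P = 0 := by simp only [dt]; ring

theorem dt_antisymm (P Q : ℤ × ℤ) : dt P Q = - dt Q P := by simp only [dt]; ring

theorem dt_bound (P x : ℤ × ℤ) : (dt P x).natAbs ≤ 2 * sz P * sz x := by
  unfold dt
  have a1 : P.1.natAbs ≤ sz P := le_max_left _ _
  have a2 : P.2.natAbs ≤ sz P := le_max_right _ _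
  have b1 : x.1.natAbs ≤ sz x := le_max_left _ _
  have b2 : x.2.natAbs ≤ sz x := le_max_right _ _
  calc (P.1 * x.2 - P.2 * x.1).natAbs ≤ (P.1 * x.2).natAbs + (P.2 * x.1).natAbs :=
        Int.natAbs_sub_le _ _
    _ = P.1.natAbs * x.2.natAbs + P.2.natAbs * x.1.natAbs := by
        rw [Int.natAbs_mul, Int.natAbs_mul]
    _ ≤ sz P * sz x + sz P * sz x := by gcongr
    _ = _ := by ring

/-- the primitive pair on the same line -/
def red (x : ℤ × ℤ) : ℤ × ℤ := (x.1 / (Int.gcd x.1 x.2 : ℤ), x.2 / (Int.gcd x.1 x.2 : ℤ))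

theorem red_spec {x : ℤ × ℤ} (hx : 0 < Int.gcd x.1 x.2) :
    IsCoprime (red x).1 (red x).2 ∧ x.1 = Int.gcd x.1 x.2 * (red x).1 ∧
      x.2 = Int.gcd x.1 x.2 * (red x).2 := by
  refine ⟨?_, ?_, ?_⟩
  · rw [Int.isCoprime_iff_gcd_eq_one]
    exact Int.gcd_ediv_gcd_ediv_gcd hx
  · exact (Int.mul_ediv_cancel' (Int.gcd_dvd_left _ _)).symm
  · exact (Int.mul_ediv_cancel' (Int.gcd_dvd_right _ _)).symm

theorem dt_red {x : ℤ × ℤ} (hx : 0 < Int.gcd x.1 x.2) (P : ℤ × ℤ) :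
    dt P x = Int.gcd x.1 x.2 * dt P (red x) := by
  obtain ⟨_, h1, h2⟩ := red_spec hx
  have : dt P x = dt P ((Int.gcd x.1 x.2 : ℤ) * (red x).1, (Int.gcd x.1 x.2 : ℤ) * (red x).2) := by
    rw [← h1, ← h2]
  rw [this]
  simp only [dt]; ring

theorem sz_red_le {x : ℤ × ℤ} : sz (red x) ≤ sz x := by
  unfold sz red
  apply max_le_max
  · exact Int.natAbs_ediv_le_natAbs _ _
  · exact Int.natAbs_ediv_le_natAbs _ _

/-- the point of the pair `(a, b)` -/
def xx (P Q : ℤ × ℤ) (s b : ℕ) : ℤ × ℤ := ((s : ℤ) * Q.1 - b * P.1, (s : ℤ) * Q.2 - b * P.2)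

theorem sz_xx_le {P Q : ℤ × ℤ} {s b U : ℕ} (hP : sz P ≤ U) (hQ : sz Q ≤ U) :
    sz (xx P Q s b) ≤ U * (s + b) := by
  have a1 : P.1.natAbs ≤ U := (le_max_left _ _).trans hP
  have a2 : P.2.natAbs ≤ U := (le_max_right _ _).trans hP
  have b1 : Q.1.natAbs ≤ U := (le_max_left _ _).trans hQ
  have b2 : Q.2.natAbs ≤ U := (le_max_right _ _).trans hQ
  unfold sz xx
  apply max_le
  · calc ((s : ℤ) * Q.1 - b * P.1).natAbs ≤ ((s : ℤ) * Q.1).natAbs + ((b : ℤ) * P.1).natAbs :=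
        Int.natAbs_sub_le _ _
      _ = s * Q.1.natAbs + b * P.1.natAbs := by
        rw [Int.natAbs_mul, Int.natAbs_mul, Int.natAbs_natCast, Int.natAbs_natCast]
      _ ≤ s * U + b * U := by gcongr
      _ = _ := by ring
  · calc ((s : ℤ) * Q.2 - b * P.2).natAbs ≤ ((s : ℤ) * Q.2).natAbs + ((b : ℤ) * P.2).natAbs :=
        Int.natAbs_sub_le _ _
      _ = s * Q.2.natAbs + b * P.2.natAbs := by
        rw [Int.natAbs_mul, Int.natAbs_mul, Int.natAbs_natCast, Int.natAbs_natCast]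
      _ ≤ s * U + b * U := by gcongr
      _ = _ := by ring

theorem rad_two_pow (k : ℕ) : rad (2 ^ k) ≤ 2 := by
  unfold rad
  rcases Nat.eq_zero_or_pos k with rfl | hk
  · simp
  · rw [Nat.primeFactors_prime_pow hk.ne' Nat.prime_two]; simp

/-- the properties of the point of one pair of primes -/
theorem point {q : ℕ} (hq : 3 ≤ q) {P : Fin q → ℤ × ℤ}
    (hP : ∀ i j, i ≠ j → dt (P i) (P j) ≠ 0) {i0 i1 : Fin q} (h01 : i0 ≠ i1) {U : ℕ}
    (hU : ∀ j, sz (P j) ≤ U) {k a b : ℕ} (ha : a.Prime) (hb : b.Prime) (hab : a < b)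
    (hb2 : 2 < b) (hbU : 2 * U ^ 2 < b) :
    IsCoprime (red (xx (P i0) (P i1) (2 ^ k * a) b)).1 (red (xx (P i0) (P i1) (2 ^ k * a) b)).2 ∧
    (∀ j, dt (P j) (red (xx (P i0) (P i1) (2 ^ k * a) b)) ≠ 0) ∧
    rq P (red (xx (P i0) (P i1) (2 ^ k * a) b)) ≤
      (2 * (a * (dt (P i0) (P i1)).natAbs)) * ((b * (dt (P i0) (P i1)).natAbs) *
        (2 * U * sz (red (xx (P i0) (P i1) (2 ^ k * a) b))) ^ (q - 2)) ∧
    sz (red (xx (P i0) (P i1) (2 ^ k * a) b)) ≤ U * (2 ^ k * a + b) ∧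
    2 ^ k * a ≤ 2 * U * sz (red (xx (P i0) (P i1) (2 ^ k * a) b)) ∧
    dt (P i0) (red (xx (P i0) (P i1) (2 ^ k * a) b)) * b =
      dt (P i1) (red (xx (P i0) (P i1) (2 ^ k * a) b)) * (2 ^ k * a : ℕ) := by
  classical
  obtain ⟨s, hs⟩ : ∃ s, s = 2 ^ k * a := ⟨_, rfl⟩
  rw [← hs]
  have hs0 : 0 < s := by rw [hs]; exact Nat.mul_pos (by positivity) ha.pos
  have hcop : Nat.Coprime s b := by
    rw [hs]
    refine Nat.Coprime.mul_left ?_ ?_
    · refine Nat.Coprime.pow_left _ ?_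
      exact (Nat.coprime_primes Nat.prime_two hb).2 hb2.ne
    · exact (Nat.coprime_primes ha hb).2 hab.ne
  obtain ⟨x, hx⟩ : ∃ x, x = xx (P i0) (P i1) s b := ⟨_, rfl⟩
  rw [← hx]
  obtain ⟨D, hD⟩ : ∃ D, D = dt (P i0) (P i1) := ⟨_, rfl⟩
  rw [← hD]
  have hD0 : D ≠ 0 := by rw [hD]; exact hP _ _ h01
  have hdx : ∀ j, dt (P j) x = s * dt (P j) (P i1) - b * dt (P j) (P i0) := by
    intro j; rw [hx]; exact dt_comb _ _ _ _ _
  have e0 : dt (P i0) x = s * D := by rw [hdx, dt_self, hD]; ring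
  have e1 : dt (P i1) x = b * D := by rw [hdx, dt_self, hD, dt_antisymm (P i1) (P i0)]; ring
  have hxne : ∀ j, dt (P j) x ≠ 0 := by
    intro j h
    by_cases hj : j = i1
    · rw [hj, e1] at h
      rcases mul_eq_zero.1 h with h | h
      · exact hb.ne_zero (by exact_mod_cast h)
      · exact hD0 h
    · rw [hdx] at h
      have h1 : (s : ℤ) * dt (P j) (P i1) = b * dt (P j) (P i0) := by linarith
      have h2 : (b : ℤ) ∣ (s : ℤ) * dt (P j) (P i1) := ⟨_, h1⟩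
      have h3 : (b : ℤ) ∣ dt (P j) (P i1) := by
        have : IsCoprime (b : ℤ) (s : ℤ) := (Nat.isCoprime_iff_coprime.2 hcop).symm
        exact this.dvd_of_dvd_mul_left h2
      have h4 : b ∣ (dt (P j) (P i1)).natAbs := Int.natCast_dvd.1 h3
      have h5 : (dt (P j) (P i1)).natAbs ≤ 2 * U ^ 2 := by
        calc (dt (P j) (P i1)).natAbs ≤ 2 * sz (P j) * sz (P i1) := dt_bound _ _
          _ ≤ 2 * U * U := by
            have := hU j
            have := hU i1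
            gcongr
          _ = _ := by ring
      have h6 : b ≤ (dt (P j) (P i1)).natAbs :=
        Nat.le_of_dvd (Int.natAbs_pos.2 (hP _ _ hj)) h4
      omega
  have hg : 0 < Int.gcd x.1 x.2 := by
    rw [Int.gcd_pos_iff]
    by_contra h
    push Not at h
    apply hxne i0
    unfold dt
    rw [h.1, h.2]; ring
  obtain ⟨hc, h1, h2⟩ := red_spec hg
  obtain ⟨g, hgd⟩ : ∃ g, g = Int.gcd x.1 x.2 := ⟨_, rfl⟩
  obtain ⟨y, hy⟩ : ∃ y, y = red x := ⟨_, rfl⟩
  have hdr : ∀ j, dt (P j) x = g * dt (P j) y := by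
    intro j; rw [hgd, hy]; exact dt_red hg _
  have hg0 : 0 < g := by rw [hgd]; exact hg
  rw [← hy]
  rw [← hy] at hc
  have hyne : ∀ j, dt (P j) y ≠ 0 := by
    intro j h
    apply hxne j
    rw [hdr, h, mul_zero]
  have f0 : (g : ℤ) * dt (P i0) y = s * D := by rw [← hdr, e0]
  have f1 : (g : ℤ) * dt (P i1) y = b * D := by rw [← hdr, e1]
  have hgD : g ≤ D.natAbs := by
    obtain ⟨u, v, huv⟩ := Nat.isCoprime_iff_coprime.2 hcop
    have : (g : ℤ) ∣ D := by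
      refine ⟨u * dt (P i0) y + v * dt (P i1) y, ?_⟩
      calc D = (u * s + v * b) * D := by rw [huv, one_mul]
        _ = u * (s * D) + v * (b * D) := by ring
        _ = _ := by rw [← f0, ← f1]; ring
    exact Nat.le_of_dvd (Int.natAbs_pos.2 hD0) (Int.natCast_dvd.1 this)
  have g0 : g * (dt (P i0) y).natAbs = s * D.natAbs := by
    have := congrArg Int.natAbs f0
    rwa [Int.natAbs_mul, Int.natAbs_mul, Int.natAbs_natCast, Int.natAbs_natCast] at this
  have g1 : g * (dt (P i1) y).natAbs = b * D.natAbs := by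
    have := congrArg Int.natAbs f1
    rwa [Int.natAbs_mul, Int.natAbs_mul, Int.natAbs_natCast, Int.natAbs_natCast] at this
  have hDp : 0 < D.natAbs := Int.natAbs_pos.2 hD0
  refine ⟨hc, hyne, ?_, ?_, ?_, ?_⟩
  · unfold rq
    have hmem : i0 ∈ (univ : Finset (Fin q)) := mem_univ _
    have hmem1 : i1 ∈ (univ : Finset (Fin q)).erase i0 := mem_erase.2 ⟨h01.symm, mem_univ _⟩
    rw [← Finset.mul_prod_erase _ _ hmem, ← Finset.mul_prod_erase _ _ hmem1, Int.natAbs_mul,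
      Int.natAbs_mul]
    have n0 : (dt (P i0) y).natAbs ≠ 0 := Int.natAbs_ne_zero.2 (hyne _)
    have n1 : (dt (P i1) y).natAbs ≠ 0 := Int.natAbs_ne_zero.2 (hyne _)
    have n2 : (∏ j ∈ (univ.erase i0).erase i1, dt (P j) y).natAbs ≠ 0 :=
      Int.natAbs_ne_zero.2 (Finset.prod_ne_zero_iff.2 fun l _ => hyne l)
    refine (rad_mul_le n0 (mul_ne_zero n1 n2)).trans ?_
    refine Nat.mul_le_mul ?_ ((rad_mul_le n1 n2).trans (Nat.mul_le_mul ?_ ?_))
    · have d0 : (dt (P i0) y).natAbs ∣ s * D.natAbs := ⟨g, by rw [← g0, mul_comm]⟩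
      have hne : s * D.natAbs ≠ 0 := mul_ne_zero hs0.ne' hDp.ne'
      calc rad (dt (P i0) y).natAbs ≤ rad (s * D.natAbs) :=
            Pool.Agent.T2H20.ABC.rad_le_of_dvd hne d0
        _ = rad (2 ^ k * (a * D.natAbs)) := by rw [hs]; congr 1; ring
        _ ≤ rad (2 ^ k) * rad (a * D.natAbs) :=
            rad_mul_le (by positivity) (mul_ne_zero ha.ne_zero hDp.ne')
        _ ≤ 2 * (a * D.natAbs) :=
            Nat.mul_le_mul (rad_two_pow k) (rad_le_self (mul_ne_zero ha.ne_zero hDp.ne'))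
    · have d1 : (dt (P i1) y).natAbs ∣ b * D.natAbs := ⟨g, by rw [← g1, mul_comm]⟩
      have hne : b * D.natAbs ≠ 0 := mul_ne_zero hb.ne_zero hDp.ne'
      exact (Pool.Agent.T2H20.ABC.rad_le_of_dvd hne d1).trans (rad_le_self hne)
    · refine (rad_le_self n2).trans ?_
      rw [← Int.natAbsHom_apply, map_prod]
      have hcard : ((univ : Finset (Fin q)).erase i0 |>.erase i1).card = q - 2 := by
        rw [card_erase_of_mem hmem1, card_erase_of_mem hmem, card_univ, Fintype.card_fin]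
        omega
      rw [← hcard, ← Finset.prod_const]
      refine Finset.prod_le_prod' fun j _ => ?_
      refine (dt_bound _ _).trans ?_
      have := hU j
      gcongr
  · rw [hy, hx]
    exact sz_red_le.trans (sz_xx_le (hU _) (hU _))
  · have : s ≤ (dt (P i0) y).natAbs := by
      have : s * g ≤ (dt (P i0) y).natAbs * g := by
        calc s * g ≤ s * D.natAbs := Nat.mul_le_mul_left _ hgD
          _ = _ := by rw [← g0, mul_comm]
      exact Nat.le_of_mul_le_mul_right this hg0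
    refine this.trans ((dt_bound _ _).trans ?_)
    have := hU i0
    gcongr
  · have hgne : (g : ℤ) ≠ 0 := by exact_mod_cast hg0.ne'
    apply mul_left_cancel₀ hgne
    calc (g : ℤ) * (dt (P i0) y * b) = (g * dt (P i0) y) * b := by ring
      _ = (g * dt (P i1) y) * s := by rw [f0, f1]; ring
      _ = _ := by ring

theorem lower {q : ℕ} (hq : 3 ≤ q) {P : Fin q → ℤ × ℤ}
    (hP : ∀ i j, i ≠ j → dt (P i) (P j) ≠ 0) {κ M ε : ℝ} (hκ : 0 < κ) (hM : 1 / (q : ℝ) < M)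
    (hM1 : M < 1 / ((q : ℝ) - 1)) (hε : 0 < ε) :
    ∃ X₀ : ℝ, ∀ X : ℝ, X₀ ≤ X → ∃ Q : Finset (ℤ × ℤ),
      (∀ x ∈ Q, IsCoprime x.1 x.2 ∧ (∀ j, dt (P j) x ≠ 0) ∧ (rq P x : ℝ) ≤ X ∧
        κ * (rq P x : ℝ) ^ M ≤ (sz x : ℝ)) ∧
      X ^ (1 - ((q : ℝ) - 2) * M - ε) ≤ (Q.card : ℝ) := by
  classical
  have hqr : (3 : ℝ) ≤ q := by exact_mod_cast hq
  have hM0 : 0 < M := lt_of_le_of_lt (by positivity) hM
  have hqM : 0 < (q : ℝ) * M - 1 := by
    rw [div_lt_iff₀ (by linarith)] at hM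
    linarith
  have hqM1 : 0 < 1 - ((q : ℝ) - 1) * M := by
    rw [lt_div_iff₀ (by linarith)] at hM1
    linarith
  obtain ⟨η, hη⟩ : ∃ η : ℝ, η = min 1 (ε / 2) := ⟨_, rfl⟩
  have hη0 : 0 < η := by rw [hη]; exact lt_min one_pos (by positivity)
  have hη1 : η ≤ 1 := by rw [hη]; exact min_le_left _ _
  have hηε : η ≤ ε / 2 := by rw [hη]; exact min_le_right _ _
  obtain ⟨i0, i1, h01⟩ : ∃ i0 i1 : Fin q, i0 ≠ i1 := by
    refine ⟨⟨0, by omega⟩, ⟨1, by omega⟩, fun h => ?_⟩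
    have := congrArg Fin.val h
    simp at this
  obtain ⟨U, hUd⟩ : ∃ U : ℕ, U = 1 + ∑ j, sz (P j) := ⟨_, rfl⟩
  have hU : ∀ j, sz (P j) ≤ U := by
    intro j
    rw [hUd]
    exact (Finset.single_le_sum (f := fun j => sz (P j)) (fun _ _ => Nat.zero_le _)
      (mem_univ j)).trans (Nat.le_add_left _ _)
  have hU1 : (1 : ℝ) ≤ U := by
    have : 1 ≤ U := by rw [hUd]; exact Nat.le_add_right _ _
    exact_mod_cast this
  obtain ⟨l, hl⟩ : ∃ l : ℝ, l = 4 * U * κ + 1 := ⟨_, rfl⟩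
  have hl0 : 0 < l := by rw [hl]; positivity
  obtain ⟨Δ, hΔ⟩ : ∃ Δ : ℕ, Δ = (dt (P i0) (P i1)).natAbs := ⟨_, rfl⟩
  have hΔ0 : 0 < Δ := by rw [hΔ]; exact Int.natAbs_pos.2 (hP _ _ h01)
  have hΔr : (0 : ℝ) < Δ := by exact_mod_cast hΔ0
  have hUr : (0 : ℝ) < U := by linarith
  obtain ⟨c0, hc0⟩ : ∃ c0 : ℝ, c0 = 8 * Δ ^ 2 * (8 * U ^ 2 * l) ^ (q - 2) * l ^ 2 := ⟨_, rfl⟩
  have hc0p : 0 < c0 := by rw [hc0]; positivity
  obtain ⟨K, hK⟩ : ∃ K : ℝ, K = 1 + c0 := ⟨_, rfl⟩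
  have hK1 : 1 ≤ K := by linarith
  have hKp : 0 < K := by linarith
  have hKc : c0 ≤ K ^ 2 := by nlinarith
  obtain ⟨c1, hc1⟩ : ∃ c1 : ℝ, c1 = ((l / K) ^ 2) ^ (1 - η) := ⟨_, rfl⟩
  have hc1p : 0 < c1 := by rw [hc1]; positivity
  have hprime := Pool.Agent.T2H20.AH.card_DP hη0 hη1
  have t1 : Tendsto (fun X : ℝ => X ^ ((q : ℝ) * M - 1)) atTop atTop := tendsto_rpow_atTop hqM
  have t2 : Tendsto (fun X : ℝ => l / K * X ^ (1 - ((q : ℝ) - 1) * M)) atTop atTop :=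
    (tendsto_rpow_atTop hqM1).const_mul_atTop (by positivity)
  have t3 : Tendsto (fun X : ℝ => l / K * X ^ M) atTop atTop :=
    (tendsto_rpow_atTop hM0).const_mul_atTop (by positivity)
  have t5 : Tendsto (fun X : ℝ => c1 * X ^ (ε / 2)) atTop atTop :=
    (tendsto_rpow_atTop (by linarith)).const_mul_atTop hc1p
  have key : ∀ᶠ X : ℝ in atTop, ∃ Q : Finset (ℤ × ℤ),
      (∀ x ∈ Q, IsCoprime x.1 x.2 ∧ (∀ j, dt (P j) x ≠ 0) ∧ (rq P x : ℝ) ≤ X ∧
        κ * (rq P x : ℝ) ^ M ≤ (sz x : ℝ)) ∧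
      X ^ (1 - ((q : ℝ) - 2) * M - ε) ≤ (Q.card : ℝ) := by
    filter_upwards [t2.eventually hprime, t3.eventually hprime,
      t1.eventually (eventually_ge_atTop 2),
      t3.eventually (eventually_gt_atTop ((2 : ℝ) * U ^ 2 + 2)),
      t5.eventually (eventually_ge_atTop 1), eventually_ge_atTop 1] with X h2 h3 h1 h4 h5 hX
    have hX0 : 0 < X := by linarith
    obtain ⟨V, hV⟩ : ∃ V : ℝ, V = X ^ ((q : ℝ) * M - 1) := ⟨_, rfl⟩
    obtain ⟨W, hW⟩ : ∃ W : ℝ, W = X ^ M := ⟨_, rfl⟩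
    obtain ⟨Z, hZ⟩ : ∃ Z : ℝ, Z = l / K * X ^ M := ⟨_, rfl⟩
    obtain ⟨Y, hY⟩ : ∃ Y : ℝ, Y = l / K * X ^ (1 - ((q : ℝ) - 1) * M) := ⟨_, rfl⟩
    rw [← hY] at h2
    rw [← hZ] at h3 h4
    rw [← hV] at h1
    have hV0 : 0 < V := by linarith
    have hW0 : 0 < W := by rw [hW]; positivity
    have hY0 : 0 < Y := by rw [hY]; positivity
    have hZ0 : 0 < Z := by rw [hZ]; positivity
    have hZW : K * Z = l * W := by rw [hZ, hW]; field_simp
    have hYV : Y * V = Z := by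
      rw [hY, hV, hZ, mul_assoc, ← Real.rpow_add hX0]
      congr 2
      ring
    have hWq : W ^ q = X * V := by
      rw [hW, hV, ← Real.rpow_natCast, ← Real.rpow_mul hX0.le]
      conv_rhs => rw [← Real.rpow_one X, ← Real.rpow_mul hX0.le]
      rw [← Real.rpow_add hX0]
      congr 1
      ring
    have hKV : 1 ≤ K * V := by nlinarith
    obtain ⟨k, hk1, hk2⟩ := exists_nat_pow_near hKV (one_lt_two : (1 : ℝ) < 2)
    refine ⟨(Pool.Agent.T2H20.AH.DP Y ×ˢ Pool.Agent.T2H20.AH.DP Z).image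
      (fun x => red (xx (P i0) (P i1) (2 ^ k * x.1) x.2)), ?_, ?_⟩
    · intro y hy
      rw [mem_image] at hy
      obtain ⟨⟨a, b⟩, hab, rfl⟩ := hy
      rw [mem_product, Pool.Agent.T2H20.AH.mem_DP, Pool.Agent.T2H20.AH.mem_DP] at hab
      obtain ⟨⟨a1, a2, a3⟩, b1, b2, b3⟩ := hab
      simp only at a1 a2 a3 b1 b2 b3 ⊢
      have ha0 : (0 : ℝ) < a := hY0.trans_le a2
      have hb0 : (0 : ℝ) < b := hZ0.trans_le b2
      have hlt : a < b := by
        have : (a : ℝ) < b := by nlinarith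
        exact_mod_cast this
      have hb3 : 2 * U ^ 2 + 2 < b := by
        have : (2 : ℝ) * U ^ 2 + 2 < b := by linarith
        exact_mod_cast this
      obtain ⟨p1, p2, p3, p4, p5, -⟩ := point hq hP h01 hU (k := k) a1 b1 hlt (by omega) (by omega)
      obtain ⟨y, hy⟩ : ∃ y, y = red (xx (P i0) (P i1) (2 ^ k * a) b) := ⟨_, rfl⟩
      rw [← hy] at p1 p2 p3 p4 p5 ⊢
      rw [← hΔ] at p3
      have q3 : (rq P y : ℝ) ≤ (2 * (a * Δ)) * ((b * Δ) * (2 * U * sz y) ^ (q - 2)) := by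
        exact_mod_cast p3
      have q4 : (sz y : ℝ) ≤ U * (2 ^ k * a + b) := by exact_mod_cast p4
      have q5 : (2 : ℝ) ^ k * a ≤ 2 * U * sz y := by exact_mod_cast p5
      have hsz0 : (0 : ℝ) ≤ sz y := Nat.cast_nonneg _
      have hZlW : Z ≤ l * W := by nlinarith
      have q6 : (2 : ℝ) ^ k * a + b ≤ 4 * (l * W) := by
        have : (2 : ℝ) ^ k * a ≤ (K * V) * (2 * Y) := by gcongr
        have e : (K * V) * (2 * Y) = 2 * (l * W) := by rw [← hZW, ← hYV]; ring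
        linarith
      have q7 : (sz y : ℝ) ≤ 4 * U * l * W := by
        calc (sz y : ℝ) ≤ U * (2 ^ k * a + b) := q4
          _ ≤ U * (4 * (l * W)) := by gcongr
          _ = _ := by ring
      have q8 : l * W ≤ 2 * ((2 : ℝ) ^ k * a) := by
        calc l * W = (K * V) * Y := by rw [← hZW, ← hYV]; ring
          _ ≤ 2 ^ (k + 1) * a := by gcongr
          _ = _ := by rw [pow_succ]; ring
      have hrX : (rq P y : ℝ) ≤ X := by
        have r1 : (rq P y : ℝ) ≤ (2 * (2 * Y * Δ)) * ((2 * Z * Δ) *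
            (2 * U * (4 * U * l * W)) ^ (q - 2)) := by
          refine q3.trans ?_
          gcongr
        have r2 : (rq P y : ℝ) * V ≤ X * V := by
          calc (rq P y : ℝ) * V ≤ (2 * (2 * Y * Δ)) * ((2 * Z * Δ) *
                (2 * U * (4 * U * l * W)) ^ (q - 2)) * V := by gcongr
            _ = 8 * Δ ^ 2 * (8 * U ^ 2 * l * W) ^ (q - 2) * (Z * (Y * V)) := by ring
            _ = 8 * Δ ^ 2 * (8 * U ^ 2 * l) ^ (q - 2) * W ^ (q - 2) * (Z * Z) := by
                rw [hYV, mul_pow (8 * (U : ℝ) ^ 2 * l) W]; ring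
            _ = 8 * Δ ^ 2 * (8 * U ^ 2 * l) ^ (q - 2) * W ^ (q - 2) * ((K * Z) ^ 2 / K ^ 2) := by
                congr 1
                field_simp
            _ = c0 / K ^ 2 * (W ^ (q - 2) * W ^ 2) := by
                rw [hZW, hc0]; ring
            _ = c0 / K ^ 2 * W ^ q := by rw [← pow_add, Nat.sub_add_cancel (by omega)]
            _ ≤ 1 * W ^ q := by
                apply mul_le_mul_of_nonneg_right _ (by positivity)
                rw [div_le_one (by positivity)]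
                exact hKc
            _ = X * V := by rw [one_mul, hWq]
        exact le_of_mul_le_mul_right r2 hV0
      refine ⟨p1, p2, hrX, ?_⟩
      have r3 : (rq P y : ℝ) ^ M ≤ W := by
        rw [hW]
        exact Real.rpow_le_rpow (Nat.cast_nonneg _) hrX hM0.le
      have r4 : (4 * U * κ) * W ≤ l * W := by
        apply mul_le_mul_of_nonneg_right _ hW0.le
        rw [hl]; linarith
      have r5 : κ * (rq P y : ℝ) ^ M ≤ κ * W := mul_le_mul_of_nonneg_left r3 hκ.le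
      refine r5.trans ?_
      have r6 : (4 * U) * (κ * W) ≤ (4 * U) * sz y := by linarith
      exact le_of_mul_le_mul_left r6 (by positivity)
    · rw [card_image_of_injOn]
      · rw [card_product, Nat.cast_mul]
        have h6 : (Y * Z) ^ (1 - η) ≤ ((Pool.Agent.T2H20.AH.DP Y).card : ℝ) *
            ((Pool.Agent.T2H20.AH.DP Z).card : ℝ) := by
          rw [Real.mul_rpow hY0.le hZ0.le]
          gcongr
        refine le_trans ?_ h6
        have h7 : Y * Z = (l / K) ^ 2 * X ^ (1 - ((q : ℝ) - 2) * M) := by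
          rw [hY, hZ]
          calc l / K * X ^ (1 - ((q : ℝ) - 1) * M) * (l / K * X ^ M) =
                (l / K) ^ 2 * (X ^ (1 - ((q : ℝ) - 1) * M) * X ^ M) := by ring
            _ = _ := by
                rw [← Real.rpow_add hX0]
                congr 2
                ring
        rw [h7, Real.mul_rpow (by positivity) (by positivity), ← Real.rpow_mul hX0.le, ← hc1]
        have h9 : X ^ (1 - ((q : ℝ) - 2) * M - ε) * X ^ (ε / 2) ≤
            X ^ ((1 - ((q : ℝ) - 2) * M) * (1 - η)) := by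
          rw [← Real.rpow_add hX0]
          refine Real.rpow_le_rpow_of_exponent_le hX ?_
          have e1 : 0 ≤ ((q : ℝ) - 2) * M := mul_nonneg (by linarith) hM0.le
          nlinarith [mul_nonneg e1 hη0.le]
        calc X ^ (1 - ((q : ℝ) - 2) * M - ε) = X ^ (1 - ((q : ℝ) - 2) * M - ε) * 1 := by ring
          _ ≤ X ^ (1 - ((q : ℝ) - 2) * M - ε) * (c1 * X ^ (ε / 2)) := by gcongr
          _ = c1 * (X ^ (1 - ((q : ℝ) - 2) * M - ε) * X ^ (ε / 2)) := by ring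
          _ ≤ _ := by gcongr
      · rintro ⟨a, b⟩ hab ⟨a', b'⟩ hab' h
        rw [mem_coe, mem_product, Pool.Agent.T2H20.AH.mem_DP, Pool.Agent.T2H20.AH.mem_DP] at hab hab'
        obtain ⟨⟨a1, a2, a3⟩, b1, b2, b3⟩ := hab
        obtain ⟨⟨a1', a2', a3'⟩, b1', b2', b3'⟩ := hab'
        simp only at a1 a2 a3 b1 b2 b3 a1' a2' a3' b1' b2' b3' h
        have hlt : ∀ a b : ℕ, (a : ℝ) < 2 * Y → Z ≤ b → a < b := by
          intro a b h h'
          have : (a : ℝ) < b := by nlinarith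
          exact_mod_cast this
        have hb3 : ∀ b : ℕ, Z ≤ b → 2 * U ^ 2 + 2 < b := by
          intro b hb
          have : (2 : ℝ) * U ^ 2 + 2 < b := by linarith
          exact_mod_cast this
        have z1 := hb3 b b2
        have z2 := hb3 b' b2'
        obtain ⟨-, p2, -, -, -, p6⟩ :=
          point hq hP h01 hU (k := k) a1 b1 (hlt _ _ a3 b2) (by omega) (by omega)
        obtain ⟨-, -, -, -, -, p6'⟩ :=
          point hq hP h01 hU (k := k) a1' b1' (hlt _ _ a3' b2') (by omega) (by omega)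
        rw [← h] at p6'
        obtain ⟨y, hy⟩ : ∃ y, y = red (xx (P i0) (P i1) (2 ^ k * a) b) := ⟨_, rfl⟩
        rw [← hy] at p2 p6 p6'
        have w1 : (a' : ℤ) * b = a * b' := by
          have hne : dt (P i0) y * dt (P i1) y * 2 ^ k ≠ 0 :=
            mul_ne_zero (mul_ne_zero (p2 _) (p2 _)) (by positivity)
          apply mul_left_cancel₀ hne
          push_cast at p6 p6'
          linear_combination (dt (P i1) y * (2 ^ k * (a' : ℤ))) * p6 -
            (dt (P i1) y * (2 ^ k * (a : ℤ))) * p6'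
        have w2 : a' * b = a * b' := by exact_mod_cast w1
        have w3 : a ∣ a' * b := ⟨_, w2⟩
        have w4 : a = a' := by
          rcases (Nat.Prime.dvd_mul a1).1 w3 with h | h
          · exact (Nat.prime_dvd_prime_iff_eq a1 a1').1 h
          · exact absurd ((Nat.prime_dvd_prime_iff_eq a1 b1).1 h) (hlt _ _ a3 b2).ne
        rw [← w4] at w2
        have w5 := Nat.eq_of_mul_eq_mul_left a1.pos w2
        rw [w4, w5]
  obtain ⟨X₀, hX₀⟩ := eventually_atTop.1 key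
  exact ⟨X₀, hX₀⟩

end Pool.Agent.T2H20.VS
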