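import Pool.Agent.T2H20.VS.Lc

/-! # Coprime vectors of one size in a lattice given by congruences of the forms -/

set_option autoImplicit false

namespace Pool.Agent.T2H20.VS

open Finset Pool.Agent.H785R2.ABC

variable {q : ℕ} {P : Fin q → ℤ × ℤ}

theorem plucker1 (p x y : ℤ × ℤ) : dt p x * y.1 - dt p y * x.1 = -(p.1 * dt x y) := by
  unfold dt; ring

theorem plucker2 (p x y : ℤ × ℤ) : dt p x * y.2 - dt p y * x.2 = -(p.2 * dt x y) := by
  unfold dt; ring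

theorem plucker3 (p p' x y : ℤ × ℤ) :
    dt p p' * dt x y = dt p x * dt p' y - dt p' x * dt p y := by
  unfold dt; ring

/-- a coordinate different from zero -/
def aa (p : ℤ × ℤ) : ℤ := if p.1 ≠ 0 then p.1 else p.2

theorem aa_dvd {p x y : ℤ × ℤ} {s : ℤ} (h1 : s ∣ dt p x) (h2 : s ∣ dt p y) :
    s ∣ aa p * dt x y := by
  unfold aa
  split_ifs with h
  · have := dvd_sub (h1.mul_right y.1) (h2.mul_right x.1)
    rw [plucker1] at this
    exact (dvd_neg.1 this)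
  · have := dvd_sub (h1.mul_right y.2) (h2.mul_right x.2)
    rw [plucker2] at this
    exact (dvd_neg.1 this)

theorem aa_ne {p p' : ℤ × ℤ} (h : dt p p' ≠ 0) : aa p ≠ 0 := by
  unfold aa
  split_ifs with h1
  · exact h1
  · intro h2
    push Not at h1
    exact h (by unfold dt; rw [h1, h2]; ring)

/-- the product of the coordinates `aa (P j)` and of the determinants -/
def EE {q : ℕ} (P : Fin q → ℤ × ℤ) : ℕ := (∏ j, (aa (P j)).natAbs) * Dt P

theorem EE_pos (hq : 2 ≤ q) (hP : ∀ i j, i ≠ j → dt (P i) (P j) ≠ 0) : 0 < EE P := by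
  unfold EE
  refine Nat.mul_pos (Finset.prod_pos fun j _ => Int.natAbs_pos.2 ?_) (Dt_pos hP)
  obtain ⟨i, hi⟩ : ∃ i : Fin q, i ≠ j := by
    by_cases h : j = ⟨0, by omega⟩
    · refine ⟨⟨1, by omega⟩, ?_⟩
      rw [h]
      intro h2
      simp at h2
    · exact ⟨⟨0, by omega⟩, fun h2 => h h2.symm⟩
  exact aa_ne (hP j i hi.symm)

theorem meet_gen {x : ℤ × ℤ} (hc : IsCoprime x.1 x.2) {d : ℤ} {p p' : ℤ × ℤ} (h1 : d ∣ dt p x)
    (h2 : d ∣ dt p' x) : d ∣ dt p p' := by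
  obtain ⟨a, b, hab⟩ := hc
  obtain ⟨e1, e2⟩ := cramer p p' x
  have : dt p p' = a * (dt p p' * x.1) + b * (dt p p' * x.2) := by
    calc dt p p' = dt p p' * (a * x.1 + b * x.2) := by rw [hab, mul_one]
      _ = _ := by ring
  rw [this, e1, e2]
  exact dvd_add (dvd_mul_of_dvd_right (dvd_sub (h1.mul_right _) (h2.mul_right _)) _)
    (dvd_mul_of_dvd_right (dvd_sub (h1.mul_right _) (h2.mul_right _)) _)

theorem gcd_prod_dvd {α : Type} [DecidableEq α] (S : Finset α) (s : α → ℕ) (m : ℕ) :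
    Nat.gcd (∏ j ∈ S, s j) m ∣ ∏ j ∈ S, Nat.gcd (s j) m := by
  induction S using Finset.induction_on with
  | empty => simp
  | insert j S hj ih =>
    rw [prod_insert hj, prod_insert hj]
    refine dvd_trans ?_ (mul_dvd_mul_left _ ih)
    rw [Nat.gcd_comm (s j * _) m, Nat.gcd_comm (s j) m, Nat.gcd_comm _ m]
    exact Nat.gcd_mul_right_dvd_mul_gcd m _ _

theorem gcd_meet {x : ℤ × ℤ} (hc : IsCoprime x.1 x.2) {S : Finset (Fin q)}
    {s : Fin q → ℕ} (hs : ∀ j ∈ S, (s j : ℤ) ∣ dt (P j) x) {i : Fin q} (hi : i ∉ S)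
    {m : ℕ} (hm : (m : ℤ) ∣ dt (P i) x) : Nat.gcd (∏ j ∈ S, s j) m ∣ Dt P := by
  classical
  refine (gcd_prod_dvd S s m).trans ?_
  have e1 := Finset.dvd_prod_of_mem (fun i => ∏ j, if i = j then 1 else (dt (P i) (P j)).natAbs)
    (mem_univ i)
  refine dvd_trans ?_ e1
  refine dvd_trans ?_ (Finset.prod_dvd_prod_of_subset S univ _ (subset_univ S))
  refine Finset.prod_dvd_prod_of_dvd _ _ fun j hj => ?_
  have hij : i ≠ j := fun h => hi (h ▸ hj)
  rw [if_neg hij]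
  have h1 : ((Nat.gcd (s j) m : ℕ) : ℤ) ∣ dt (P i) x :=
    (Int.natCast_dvd_natCast.2 (Nat.gcd_dvd_right _ _)).trans hm
  have h2 : ((Nat.gcd (s j) m : ℕ) : ℤ) ∣ dt (P j) x :=
    (Int.natCast_dvd_natCast.2 (Nat.gcd_dvd_left _ _)).trans (hs j hj)
  exact Int.natCast_dvd.1 (meet_gen hc h1 h2)

theorem prod_dvd {x y : ℤ × ℤ}
    (hc : IsCoprime x.1 x.2) (S : Finset (Fin q)) {s : Fin q → ℕ}
    (hs : ∀ j ∈ S, (s j : ℤ) ∣ dt (P j) x ∧ (s j : ℤ) ∣ dt (P j) y) :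
    ∏ j ∈ S, s j ∣ EE P ^ S.card * (dt x y).natAbs := by
  classical
  induction S using Finset.induction_on with
  | empty => simp
  | insert i S hi ih =>
    have ih' := ih fun j hj => hs j (mem_insert_of_mem hj)
    obtain ⟨h1, h2⟩ := hs i (mem_insert_self i S)
    rw [prod_insert hi, card_insert_of_notMem hi, mul_comm (s i)]
    have hg := gcd_meet (P := P) hc (fun j hj => (hs j (mem_insert_of_mem hj)).1) hi h1
    have ha : s i ∣ (aa (P i)).natAbs * (dt x y).natAbs := by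
      rw [← Int.natAbs_mul]
      exact Int.natCast_dvd.1 (aa_dvd h1 h2)
    have hA : (aa (P i)).natAbs ∣ ∏ j, (aa (P j)).natAbs :=
      Finset.dvd_prod_of_mem (fun j => (aa (P j)).natAbs) (mem_univ i)
    have hlcm : Nat.lcm (∏ j ∈ S, s j) (s i) ∣
        (∏ j, (aa (P j)).natAbs) * (EE P ^ S.card * (dt x y).natAbs) := by
      refine Nat.lcm_dvd (ih'.mul_left _) ?_
      calc s i ∣ (aa (P i)).natAbs * (dt x y).natAbs := ha
        _ ∣ (∏ j, (aa (P j)).natAbs) * (EE P ^ S.card * (dt x y).natAbs) :=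
          mul_dvd_mul hA (Dvd.intro_left _ rfl)
    calc (∏ j ∈ S, s j) * s i = Nat.gcd (∏ j ∈ S, s j) (s i) * Nat.lcm (∏ j ∈ S, s j) (s i) :=
          (Nat.gcd_mul_lcm _ _).symm
      _ ∣ Dt P * ((∏ j, (aa (P j)).natAbs) * (EE P ^ S.card * (dt x y).natAbs)) :=
          mul_dvd_mul hg hlcm
      _ = EE P ^ (S.card + 1) * (dt x y).natAbs := by
          conv_rhs => rw [pow_succ]
          conv_rhs => enter [1, 2]; rw [EE]
          ring

theorem parallel {x z : ℤ × ℤ} (hc : IsCoprime x.1 x.2) (h : dt x z = 0) :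
    ∃ t : ℤ, z = (t * x.1, t * x.2) := by
  obtain ⟨u, v, huv⟩ := hc
  have h' : x.1 * z.2 = x.2 * z.1 := by unfold dt at h; linarith
  refine ⟨u * z.1 + v * z.2, Prod.ext ?_ ?_⟩
  · show z.1 = (u * z.1 + v * z.2) * x.1
    calc z.1 = z.1 * (u * x.1 + v * x.2) := by rw [huv, mul_one]
      _ = u * z.1 * x.1 + v * (x.2 * z.1) := by ring
      _ = u * z.1 * x.1 + v * (x.1 * z.2) := by rw [h']
      _ = _ := by ring
  · show z.2 = (u * z.1 + v * z.2) * x.2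
    calc z.2 = z.2 * (u * x.1 + v * x.2) := by rw [huv, mul_one]
      _ = u * (x.1 * z.2) + v * x.2 * z.2 := by ring
      _ = u * (x.2 * z.1) + v * x.2 * z.2 := by rw [h']
      _ = _ := by ring

/-- vectors of one size with the same determinant with a fixed one -/
theorem fibre_le {x₀ : ℤ × ℤ} (hc : IsCoprime x₀.1 x₀.2) {H : ℕ} (h0 : H ≤ sz x₀)
    (T : Finset (ℤ × ℤ)) (v : ℤ) (hT : ∀ y ∈ T, sz y < 2 * H ∧ dt x₀ y = v) : T.card ≤ 7 := by
  classical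
  rcases T.eq_empty_or_nonempty with h | ⟨y₁, hy₁⟩
  · rw [h]; simp
  have key : ∀ y ∈ T, ∃ t : ℤ, t ∈ Icc (-3 : ℤ) 3 ∧ y.1 = y₁.1 + t * x₀.1 ∧
      y.2 = y₁.2 + t * x₀.2 := by
    intro y hy
    have h1 : dt x₀ (y.1 - y₁.1, y.2 - y₁.2) = 0 := by
      have e1 := (hT y hy).2
      have e2 := (hT y₁ hy₁).2
      unfold dt at e1 e2 ⊢
      simp only
      linarith
    obtain ⟨t, ht⟩ := parallel hc h1
    have e1 : y.1 - y₁.1 = t * x₀.1 := congrArg Prod.fst ht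
    have e2 : y.2 - y₁.2 = t * x₀.2 := congrArg Prod.snd ht
    refine ⟨t, ?_, by linarith, by linarith⟩
    have a1 := (hT y hy).1
    have a2 := (hT y₁ hy₁).1
    unfold sz at a1 a2 h0
    have b1 : (t * x₀.1).natAbs < 4 * H := by rw [← e1]; omega
    have b2 : (t * x₀.2).natAbs < 4 * H := by rw [← e2]; omega
    rw [Int.natAbs_mul] at b1 b2
    have b3 : t.natAbs * max x₀.1.natAbs x₀.2.natAbs < 4 * H := by
      rcases max_choice x₀.1.natAbs x₀.2.natAbs with h | h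
      · rw [h]; exact b1
      · rw [h]; exact b2
    have b4 : t.natAbs * H < 4 * H := lt_of_le_of_lt (Nat.mul_le_mul_left _ h0) b3
    have b5 : t.natAbs < 4 := lt_of_mul_lt_mul_right b4 (Nat.zero_le _)
    rw [mem_Icc]
    omega
  choose! t ht ht1 ht2 using key
  calc T.card ≤ (Icc (-3 : ℤ) 3).card := by
        refine card_le_card_of_injOn t (fun y hy => ht y hy) ?_
        intro y hy y' hy' h
        exact Prod.ext (by rw [ht1 y hy, ht1 y' hy', h]) (by rw [ht2 y hy, ht2 y' hy', h])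
    _ = 7 := by decide

/-- **the number of coprime vectors of one size in a lattice** -/
theorem lattice (hq : 2 ≤ q) (hP : ∀ i j, i ≠ j → dt (P i) (P j) ≠ 0) :
    ∀ (S : Finset (Fin q)) (s : Fin q → ℕ) (H : ℕ) (B : ℝ) (T : Finset (ℤ × ℤ)), 1 ≤ H →
      0 ≤ B → (∀ j ∈ S, 0 < s j) → (∀ x ∈ T, IsCoprime x.1 x.2 ∧ H ≤ sz x ∧ sz x < 2 * H ∧
        ∀ j ∈ S, (s j : ℤ) ∣ dt (P j) x) →
      (∀ x ∈ T, ∀ y ∈ T, |(dt x y : ℝ)| ≤ B) →
      (T.card : ℝ) ≤ 14 * (EE P : ℝ) ^ q * (B / ∏ j ∈ S, (s j : ℝ) + 1) := by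
  classical
  intro S s H B T hH hB hs hT hdt
  have hE := EE_pos hq hP
  have hE1 : (1 : ℝ) ≤ EE P := by exact_mod_cast hE
  obtain ⟨W, hW⟩ : ∃ W : ℕ, W = ∏ j ∈ S, s j := ⟨_, rfl⟩
  have hW0 : 0 < W := by rw [hW]; exact Finset.prod_pos hs
  have hW0' : (0 : ℝ) < W := by exact_mod_cast hW0
  have hWc : ∏ j ∈ S, (s j : ℝ) = W := by rw [hW]; push_cast; rfl
  rw [hWc]
  rcases T.eq_empty_or_nonempty with h | ⟨x₀, hx₀⟩
  · rw [h, card_empty, Nat.cast_zero]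
    positivity
  obtain ⟨β, hβ⟩ : ∃ β : ℝ, β = (EE P : ℝ) ^ S.card * B / W := ⟨_, rfl⟩
  have hβ0 : 0 ≤ β := by rw [hβ]; positivity
  have c1 := card_le_mul_card_image (f := fun y => dt x₀ y) T 7 (by
    intro v _
    refine fibre_le (hT x₀ hx₀).1 (hT x₀ hx₀).2.1 _ v ?_
    intro y hy
    rw [mem_filter] at hy
    exact ⟨(hT y hy.1).2.2.1, hy.2⟩)
  have c2 : (T.image fun y => dt x₀ y).card ≤ (Icc (-⌊β⌋) ⌊β⌋).card := by
    have hdiv : ∀ v ∈ T.image (fun y => dt x₀ y), ∃ m : ℤ, (EE P : ℤ) ^ S.card * v = W * m ∧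
        m ∈ Icc (-⌊β⌋) ⌊β⌋ := by
      intro v hv
      obtain ⟨y, hy, rfl⟩ := mem_image.1 hv
      have h1 := prod_dvd (x := x₀) (y := y) (hT x₀ hx₀).1 S
        (fun j hj => ⟨(hT x₀ hx₀).2.2.2 j hj, (hT y hy).2.2.2 j hj⟩)
      rw [← hW] at h1
      have h2 : (W : ℤ) ∣ (EE P : ℤ) ^ S.card * dt x₀ y := by
        rw [← Int.dvd_natAbs, Int.natAbs_mul, Int.natAbs_pow, Int.natAbs_natCast]
        exact_mod_cast h1
      obtain ⟨m, hm⟩ := h2
      refine ⟨m, hm, ?_⟩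
      have h3 : |(m : ℝ)| ≤ β := by
        rw [hβ, le_div_iff₀ hW0']
        have h4 : (W : ℝ) * m = (EE P : ℝ) ^ S.card * (dt x₀ y : ℝ) := by
          exact_mod_cast hm.symm
        calc |(m : ℝ)| * W = |(W : ℝ) * m| := by
              rw [abs_mul, abs_of_pos hW0', mul_comm]
          _ = (EE P : ℝ) ^ S.card * |(dt x₀ y : ℝ)| := by
              rw [h4, abs_mul, abs_of_nonneg (by positivity)]
          _ ≤ (EE P : ℝ) ^ S.card * B :=
              mul_le_mul_of_nonneg_left (hdt x₀ hx₀ y hy) (by positivity)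
      rw [abs_le] at h3
      rw [mem_Icc]
      constructor
      · rw [neg_le, Int.le_floor]
        push_cast
        linarith [h3.1]
      · rw [Int.le_floor]
        exact h3.2
    choose! m hm1 hm2 using hdiv
    refine card_le_card_of_injOn m (fun v hv => hm2 v hv) ?_
    intro v hv v' hv' h
    have e1 := hm1 v hv
    have e2 := hm1 v' hv'
    rw [h, ← e2] at e1
    exact mul_left_cancel₀ (pow_ne_zero _ (by exact_mod_cast hE.ne')) e1
  have c3 : ((Icc (-⌊β⌋) ⌊β⌋).card : ℝ) ≤ 2 * β + 1 := by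
    rw [Int.card_Icc]
    have h1 : 0 ≤ ⌊β⌋ := Int.floor_nonneg.2 hβ0
    have h2 : ((⌊β⌋ + 1 - -⌊β⌋).toNat : ℤ) = 2 * ⌊β⌋ + 1 := by
      rw [Int.toNat_of_nonneg (by omega)]; ring
    have h3 : (((⌊β⌋ + 1 - -⌊β⌋).toNat : ℕ) : ℝ) = 2 * (⌊β⌋ : ℝ) + 1 := by exact_mod_cast h2
    rw [h3]
    linarith [Int.floor_le β]
  have c4 : (T.card : ℝ) ≤ 7 * (2 * β + 1) := by
    have h1 : (T.card : ℝ) ≤ 7 * ((T.image fun y => dt x₀ y).card : ℝ) := by exact_mod_cast c1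
    have h2 : ((T.image fun y => dt x₀ y).card : ℝ) ≤ ((Icc (-⌊β⌋) ⌊β⌋).card : ℝ) := by
      exact_mod_cast c2
    linarith
  have hSq : S.card ≤ q := by
    have := card_le_univ S
    rwa [Fintype.card_fin] at this
  have hpow : (EE P : ℝ) ^ S.card ≤ (EE P : ℝ) ^ q := pow_le_pow_right₀ hE1 hSq
  have h1 : (1 : ℝ) ≤ (EE P : ℝ) ^ q := one_le_pow₀ hE1
  have h2 : β ≤ (EE P : ℝ) ^ q * (B / W) := by
    rw [hβ, mul_div_assoc]
    exact mul_le_mul_of_nonneg_right hpow (by positivity)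
  calc (T.card : ℝ) ≤ 7 * (2 * β + 1) := c4
    _ ≤ 14 * (EE P : ℝ) ^ q * (B / W + 1) := by nlinarith

end Pool.Agent.T2H20.VS
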