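import Pool.Agent.T2H20.VS.Md

/-! # The points of a class: the values of the forms have the same sizes -/

set_option autoImplicit false

namespace Pool.Agent.T2H20.VS

open Finset Pool.Agent.H785R2.ABC Pool.Agent.T2H20.ABC

/-- the product of the primes which divide `d` exactly once -/
def up (d : ℕ) : ℕ := ∏ p ∈ d.primeFactors with d.factorization p = 1, p

/-- the squarefull part -/
def sp (d : ℕ) : ℕ := ∏ p ∈ d.primeFactors with ¬ d.factorization p = 1, p ^ d.factorization p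

/-- the radical of the squarefull part -/
def rr (d : ℕ) : ℕ := ∏ p ∈ d.primeFactors with ¬ d.factorization p = 1, p

theorem up_pos (d : ℕ) : 0 < up d := Finset.prod_pos fun _ hp =>
  (Nat.prime_of_mem_primeFactors (mem_filter.1 hp).1).pos

theorem sp_pos (d : ℕ) : 0 < sp d := Finset.prod_pos fun _ hp =>
  pow_pos (Nat.prime_of_mem_primeFactors (mem_filter.1 hp).1).pos _

theorem rr_pos (d : ℕ) : 0 < rr d := Finset.prod_pos fun _ hp =>
  (Nat.prime_of_mem_primeFactors (mem_filter.1 hp).1).pos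

theorem up_mul_sp {d : ℕ} (hd : d ≠ 0) : up d * sp d = d := by
  conv_rhs => rw [← Nat.prod_factorization_pow_eq_self hd, Finsupp.prod,
    Nat.support_factorization]
  rw [← Finset.prod_filter_mul_prod_filter_not d.primeFactors (fun p => d.factorization p = 1)]
  unfold up sp
  congr 1
  refine prod_congr rfl fun p hp => ?_
  rw [(mem_filter.1 hp).2, pow_one]

theorem rad_eq (d : ℕ) : rad d = up d * rr d := by
  unfold rad up rr
  rw [Finset.prod_filter_mul_prod_filter_not]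

theorem rad_sp (d : ℕ) : rad (sp d) = rr d := by
  unfold rad sp rr
  rw [primeFactors_prod_pow' _ (fun p hp => Nat.prime_of_mem_primeFactors (mem_filter.1 hp).1)]
  intro p hp
  have h1 := (mem_filter.1 hp).1
  exact (Nat.prime_of_mem_primeFactors h1).factorization_pos_of_dvd
    (Nat.mem_primeFactors.1 h1).2.2 (Nat.dvd_of_mem_primeFactors h1)

theorem rr_sq_le (d : ℕ) : rr d ^ 2 ≤ sp d := by
  unfold rr sp
  rw [← Finset.prod_pow]
  refine Finset.prod_le_prod' fun p hp => ?_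
  obtain ⟨h1, h2⟩ := mem_filter.1 hp
  have hp1 := Nat.prime_of_mem_primeFactors h1
  have h3 := hp1.factorization_pos_of_dvd (Nat.mem_primeFactors.1 h1).2.2
    (Nat.dvd_of_mem_primeFactors h1)
  exact Nat.pow_le_pow_right hp1.pos (by omega)

theorem rr_mul_rad_le {d : ℕ} (hd : d ≠ 0) : rr d * rad d ≤ d := by
  rw [rad_eq]
  calc rr d * (up d * rr d) = up d * rr d ^ 2 := by ring
    _ ≤ up d * sp d := Nat.mul_le_mul_left _ (rr_sq_le d)
    _ = d := up_mul_sp hd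

theorem rr_le_rad (d : ℕ) : rr d ≤ rad d := by
  rw [rad_eq]
  exact Nat.le_mul_of_pos_left _ (up_pos d)

variable {q : ℕ} {P : Fin q → ℤ × ℤ}

/-- the value of the form -/
def dv (P : Fin q → ℤ × ℤ) (j : Fin q) (x : ℤ × ℤ) : ℕ := (dt (P j) x).natAbs

theorem natAbs_mul_le {a b : ℤ} {m n : ℕ} (ha : a.natAbs ≤ m) (hb : b.natAbs ≤ n) :
    (a * b).natAbs ≤ m * n := by
  rw [Int.natAbs_mul]; exact Nat.mul_le_mul ha hb

theorem exists_U (P : Fin q → ℤ × ℤ) : ∃ U : ℕ, 1 ≤ U ∧ (∀ j x, dv P j x ≤ U * sz x) ∧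
    ∀ i j : Fin q, dt (P i) (P j) ≠ 0 → ∀ x, sz x ≤ U * max (dv P i x) (dv P j x) := by
  refine ⟨2 * ∑ j, sz (P j) + 1, by omega, fun j x => ?_, fun i j h x => ?_⟩
  · have h1 : sz (P j) ≤ ∑ j, sz (P j) := single_le_sum (f := fun j => sz (P j)) (fun _ _ => Nat.zero_le _) (mem_univ j)
    have h2 : dv P j x ≤ 2 * (sz (P j) * sz x) := by
      unfold dv dt
      have a1 : ((P j).1 * x.2).natAbs ≤ sz (P j) * sz x :=
        natAbs_mul_le (le_max_left _ _) (le_max_right _ _)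
      have a2 : ((P j).2 * x.1).natAbs ≤ sz (P j) * sz x :=
        natAbs_mul_le (le_max_right _ _) (le_max_left _ _)
      omega
    calc dv P j x ≤ 2 * (sz (P j) * sz x) := h2
      _ ≤ (2 * ∑ j, sz (P j) + 1) * sz x := by nlinarith [Nat.zero_le (sz x)]
  · have hi : sz (P i) ≤ ∑ j, sz (P j) := single_le_sum (f := fun j => sz (P j)) (fun _ _ => Nat.zero_le _) (mem_univ i)
    have hj : sz (P j) ≤ ∑ j, sz (P j) := single_le_sum (f := fun j => sz (P j)) (fun _ _ => Nat.zero_le _) (mem_univ j)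
    obtain ⟨e1, e2⟩ := cramer (P i) (P j) x
    obtain ⟨m, hm⟩ : ∃ m, m = max (dv P i x) (dv P j x) := ⟨_, rfl⟩
    obtain ⟨σ, hσ⟩ : ∃ σ, σ = ∑ j, sz (P j) := ⟨_, rfl⟩
    rw [← hm, ← hσ]
    rw [← hσ] at hi hj
    have hmi : (dt (P i) x).natAbs ≤ m := by rw [hm]; exact le_max_left _ _
    have hmj : (dt (P j) x).natAbs ≤ m := by rw [hm]; exact le_max_right _ _
    have hΔ : 1 ≤ (dt (P i) (P j)).natAbs := Int.natAbs_pos.2 h
    have b : ∀ (y a b : ℤ), dt (P i) (P j) * y = dt (P i) x * a - dt (P j) x * b →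
        a.natAbs ≤ σ → b.natAbs ≤ σ → y.natAbs ≤ (2 * σ + 1) * m := by
      intro y a b hy ha hb
      have c1 := natAbs_mul_le hmi ha
      have c2 := natAbs_mul_le hmj hb
      have c3 : y.natAbs ≤ (dt (P i) (P j) * y).natAbs := by
        rw [Int.natAbs_mul]; exact Nat.le_mul_of_pos_left _ hΔ
      rw [hy] at c3
      have c4 : (dt (P i) x * a - dt (P j) x * b).natAbs ≤ m * σ + m * σ := by omega
      calc y.natAbs ≤ m * σ + m * σ := c3.trans c4
        _ ≤ (2 * σ + 1) * m := by nlinarith [Nat.zero_le m]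
    have hPi1 : (P i).1.natAbs ≤ σ := (le_max_left _ _).trans hi
    have hPi2 : (P i).2.natAbs ≤ σ := (le_max_right _ _).trans hi
    have hPj1 : (P j).1.natAbs ≤ σ := (le_max_left _ _).trans hj
    have hPj2 : (P j).2.natAbs ≤ σ := (le_max_right _ _).trans hj
    unfold sz
    exact max_le (b _ _ _ e1 hPj1 hPi1) (b _ _ _ e2 hPj2 hPi2)

/-- the sizes of `x` and of `x₀` are similar -/
structure Near (P : Fin q → ℤ × ℤ) (x₀ x : ℤ × ℤ) : Prop where
  d1 : ∀ j, dv P j x ≤ 2 * dv P j x₀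
  d2 : ∀ j, dv P j x₀ ≤ 2 * dv P j x
  u : ∀ j, up (dv P j x) ≤ 2 * up (dv P j x₀)
  r : ∀ j, rr (dv P j x) ≤ 2 * rr (dv P j x₀)

/-- a point of height in `[H, 2 H)` off the `P j` -/
structure At (P : Fin q → ℤ × ℤ) (H : ℕ) (x : ℤ × ℤ) : Prop where
  cop : IsCoprime x.1 x.2
  ne : ∀ j, dt (P j) x ≠ 0
  lo : H ≤ sz x
  hi : sz x < 2 * H

theorem At.dv_pos {H : ℕ} {x : ℤ × ℤ} (h : At P H x) (j : Fin q) : 0 < dv P j x :=
  Int.natAbs_pos.2 (h.ne j)

theorem sp_dvd {d : ℕ} (hd : d ≠ 0) : sp d ∣ d := Dvd.intro_left _ (up_mul_sp hd)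

/-- the points of a class with the same squarefull parts at the forms of `S` -/
theorem fibre_bound (hq : 2 ≤ q) (hP : ∀ i j, i ≠ j → dt (P i) (P j) ≠ 0) : ∃ C : ℝ, 0 < C ∧
    ∀ (S : Finset (Fin q)), 2 ≤ S.card → ∀ (H : ℕ), 1 ≤ H → ∀ (x₀ : ℤ × ℤ), At P H x₀ →
    ∀ (s : Fin q → ℕ) (T : Finset (ℤ × ℤ)),
      (∀ x ∈ T, At P H x ∧ Near P x₀ x ∧ ∀ j ∈ S, sp (dv P j x) = s j) →
      (T.card : ℝ) ≤ C * ((∏ j ∈ S, (up (dv P j x₀) : ℝ)) / (H : ℝ) ^ (S.card - 2) + 1) := by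
  classical
  obtain ⟨U, hU1, hU2, hU3⟩ := exists_U P
  have hUr : (1 : ℝ) ≤ U := by exact_mod_cast hU1
  have hE := EE_pos hq hP
  have hE1 : (1 : ℝ) ≤ EE P := by exact_mod_cast hE
  refine ⟨14 * (EE P : ℝ) ^ q * (8 * 4 ^ q * (U : ℝ) ^ q), by positivity, ?_⟩
  intro S hS H hH x₀ hx₀ s T hT
  have hSq : S.card ≤ q := by
    have := card_le_univ S
    rwa [Fintype.card_fin] at this
  have hH0 : (0 : ℝ) < H := by exact_mod_cast hH
  have hup0 : ∀ j, (0 : ℝ) < up (dv P j x₀) := fun j => by exact_mod_cast up_pos _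
  have hprod0 : 0 < ∏ j ∈ S, (up (dv P j x₀) : ℝ) := Finset.prod_pos fun j _ => hup0 j
  rcases T.eq_empty_or_nonempty with h | ⟨y₀, hy₀⟩
  · rw [h, card_empty, Nat.cast_zero]
    positivity
  obtain ⟨i, hi, hmin⟩ := exists_min_image S (fun j => dv P j x₀)
    (card_pos.1 (by omega))
  obtain ⟨j, hj⟩ : (S.erase i).Nonempty := by
    rw [← card_pos, card_erase_of_mem hi]; omega
  rw [mem_erase] at hj
  -- the other values are large
  have hbig : ∀ l ∈ S, l ≠ i → (H : ℝ) ≤ U * dv P l x₀ := by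
    intro l hl hli
    have h1 := hU3 i l (hP i l (Ne.symm hli)) x₀
    rw [max_eq_right (hmin l hl)] at h1
    exact_mod_cast hx₀.lo.trans h1
  obtain ⟨A, hA⟩ : ∃ A : ℝ, A = (dv P i x₀ : ℝ) * dv P j x₀ := ⟨_, rfl⟩
  have hA0 : 0 < A := by
    have h1 : (0 : ℝ) < dv P i x₀ := by exact_mod_cast hx₀.dv_pos i
    have h2 : (0 : ℝ) < dv P j x₀ := by exact_mod_cast hx₀.dv_pos j
    rw [hA]; positivity
  have hprodA : A * (H : ℝ) ^ (S.card - 2) ≤ (U : ℝ) ^ (S.card - 2) * ∏ l ∈ S, (dv P l x₀ : ℝ) := by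
    have e1 : ∏ l ∈ S, (dv P l x₀ : ℝ) = A * ∏ l ∈ (S.erase i).erase j, (dv P l x₀ : ℝ) := by
      rw [hA, mul_assoc, mul_prod_erase (S.erase i) (fun l => (dv P l x₀ : ℝ))
        (mem_erase.2 hj), mul_prod_erase S (fun l => (dv P l x₀ : ℝ)) hi]
    have e2 : ((S.erase i).erase j).card = S.card - 2 := by
      rw [card_erase_of_mem (mem_erase.2 hj), card_erase_of_mem hi]; omega
    have e3 : (H : ℝ) ^ (S.card - 2) ≤
        (U : ℝ) ^ (S.card - 2) * ∏ l ∈ (S.erase i).erase j, (dv P l x₀ : ℝ) := by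
      rw [← e2, ← prod_const, ← prod_const, ← prod_mul_distrib]
      refine Finset.prod_le_prod (fun _ _ => hH0.le) fun l hl => ?_
      rw [mem_erase, mem_erase] at hl
      exact hbig l hl.2.2 hl.2.1
    rw [e1]
    calc A * (H : ℝ) ^ (S.card - 2) ≤
        A * ((U : ℝ) ^ (S.card - 2) * ∏ l ∈ (S.erase i).erase j, (dv P l x₀ : ℝ)) :=
          mul_le_mul_of_nonneg_left e3 hA0.le
      _ = _ := by ring
  -- the product of the squarefull parts
  have hs0 : ∀ l ∈ S, 0 < s l := by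
    intro l hl
    rw [← (hT y₀ hy₀).2.2 l hl]
    exact sp_pos _
  have hs1 : ∀ l ∈ S, (dv P l x₀ : ℝ) ≤ 4 * up (dv P l x₀) * s l := by
    intro l hl
    have h1 := (hT y₀ hy₀).2.1.d2 l
    have h2 := (hT y₀ hy₀).2.1.u l
    have h3 := up_mul_sp ((hT y₀ hy₀).1.dv_pos l).ne'
    rw [(hT y₀ hy₀).2.2 l hl] at h3
    have h4 : dv P l x₀ ≤ 4 * up (dv P l x₀) * s l := by
      calc dv P l x₀ ≤ 2 * dv P l y₀ := h1
        _ = 2 * (up (dv P l y₀) * s l) := by rw [h3]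
        _ ≤ 2 * (2 * up (dv P l x₀) * s l) :=
            Nat.mul_le_mul_left _ (Nat.mul_le_mul_right _ h2)
        _ = _ := by ring
    exact_mod_cast h4
  have hprods : ∏ l ∈ S, (dv P l x₀ : ℝ) ≤
      4 ^ S.card * (∏ l ∈ S, (up (dv P l x₀) : ℝ)) * ∏ l ∈ S, (s l : ℝ) := by
    rw [← prod_const, ← prod_mul_distrib, ← prod_mul_distrib]
    exact Finset.prod_le_prod (fun _ _ => Nat.cast_nonneg _) hs1
  have hW0 : (0 : ℝ) < ∏ l ∈ S, (s l : ℝ) := Finset.prod_pos fun l hl => by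
    exact_mod_cast hs0 l hl
  have hlat := lattice hq hP S s H (8 * A) T hH (by positivity) hs0 (by
    intro x hx
    obtain ⟨h1, h2, h3⟩ := hT x hx
    refine ⟨h1.cop, h1.lo, h1.hi, fun l hl => ?_⟩
    rw [← h3 l hl, Int.natCast_dvd]
    exact sp_dvd (h1.dv_pos l).ne') (by
    intro x hx y hy
    obtain ⟨h1, h2, -⟩ := hT x hx
    obtain ⟨k1, k2, -⟩ := hT y hy
    have hΔ : 1 ≤ (dt (P i) (P j)).natAbs := Int.natAbs_pos.2 (hP i j hj.1.symm)
    have e1 := plucker3 (P i) (P j) x y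
    have e2 : (dt x y).natAbs ≤ 8 * (dv P i x₀ * dv P j x₀) := by
      have c3 : (dt x y).natAbs ≤ (dt (P i) (P j) * dt x y).natAbs := by
        rw [Int.natAbs_mul]; exact Nat.le_mul_of_pos_left _ hΔ
      rw [e1] at c3
      have c1 : (dt (P i) x * dt (P j) y).natAbs ≤ (2 * dv P i x₀) * (2 * dv P j x₀) :=
        natAbs_mul_le (h2.d1 i) (k2.d1 j)
      have c2 : (dt (P j) x * dt (P i) y).natAbs ≤ (2 * dv P j x₀) * (2 * dv P i x₀) :=
        natAbs_mul_le (h2.d1 j) (k2.d1 i)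
      calc (dt x y).natAbs ≤ (2 * dv P i x₀) * (2 * dv P j x₀) +
            (2 * dv P j x₀) * (2 * dv P i x₀) := by omega
        _ = _ := by ring
    have e3 : ((dt x y).natAbs : ℝ) ≤ 8 * A := by rw [hA]; exact_mod_cast e2
    rwa [Nat.cast_natAbs, Int.cast_abs] at e3)
  refine hlat.trans ?_
  have hfin : 8 * A / ∏ l ∈ S, (s l : ℝ) ≤
      8 * 4 ^ q * (U : ℝ) ^ q * ((∏ j ∈ S, (up (dv P j x₀) : ℝ)) / (H : ℝ) ^ (S.card - 2)) := by
    rw [div_le_iff₀ hW0]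
    have hHp : (0 : ℝ) < (H : ℝ) ^ (S.card - 2) := by positivity
    rw [← mul_div_assoc, div_mul_eq_mul_div, le_div_iff₀ hHp]
    have u1 : (U : ℝ) ^ (S.card - 2) ≤ (U : ℝ) ^ q := pow_le_pow_right₀ hUr (by omega)
    have u2 : (4 : ℝ) ^ S.card ≤ 4 ^ q := pow_le_pow_right₀ (by norm_num) hSq
    calc 8 * A * (H : ℝ) ^ (S.card - 2) = 8 * (A * (H : ℝ) ^ (S.card - 2)) := by ring
      _ ≤ 8 * ((U : ℝ) ^ (S.card - 2) * ∏ l ∈ S, (dv P l x₀ : ℝ)) := by linarith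
      _ ≤ 8 * ((U : ℝ) ^ q * (4 ^ q * (∏ l ∈ S, (up (dv P l x₀) : ℝ)) * ∏ l ∈ S, (s l : ℝ))) := by
          have : ∏ l ∈ S, (dv P l x₀ : ℝ) ≤
              4 ^ q * (∏ l ∈ S, (up (dv P l x₀) : ℝ)) * ∏ l ∈ S, (s l : ℝ) :=
            hprods.trans (by gcongr)
          have h0 : (0 : ℝ) ≤ ∏ l ∈ S, (dv P l x₀ : ℝ) :=
            Finset.prod_nonneg fun _ _ => Nat.cast_nonneg _
          gcongr
      _ = _ := by ring
  have h1 : (1 : ℝ) ≤ 8 * 4 ^ q * (U : ℝ) ^ q := by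
    have a1 : (1 : ℝ) ≤ 4 ^ q := one_le_pow₀ (by norm_num)
    have a2 : (1 : ℝ) ≤ (U : ℝ) ^ q := one_le_pow₀ hUr
    nlinarith
  have hEq : (0 : ℝ) ≤ 14 * (EE P : ℝ) ^ q := by positivity
  calc 14 * (EE P : ℝ) ^ q * (8 * A / ∏ l ∈ S, (s l : ℝ) + 1)
      ≤ 14 * (EE P : ℝ) ^ q * (8 * 4 ^ q * (U : ℝ) ^ q *
          ((∏ j ∈ S, (up (dv P j x₀) : ℝ)) / (H : ℝ) ^ (S.card - 2)) +
            8 * 4 ^ q * (U : ℝ) ^ q) := by
        apply mul_le_mul_of_nonneg_left _ hEq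
        linarith
    _ = _ := by ring

end Pool.Agent.T2H20.VS
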