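import Pool.Agent.T2H20.VS.Me
import Pool.Agent.T2H20.VS.Ma

/-! # The number of points of moderate height -/

set_option autoImplicit false

namespace Pool.Agent.T2H20.VS

open Finset Pool.Agent.H785R2.ABC Pool.Agent.T2H20.ABC Pool.Agent.T2H20.AH

variable {q : ℕ} {P : Fin q → ℤ × ℤ}

theorem class_bound (hq : 2 ≤ q) (hP : ∀ i j, i ≠ j → dt (P i) (P j) ≠ 0) (ε : ℝ) (hε : 0 < ε) :
    ∃ C : ℝ, 0 < C ∧ ∀ (S : Finset (Fin q)), 2 ≤ S.card → ∀ (H : ℕ), 1 ≤ H →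
      ∀ (x₀ : ℤ × ℤ), At P H x₀ → ∀ (T : Finset (ℤ × ℤ)), (∀ x ∈ T, At P H x ∧ Near P x₀ x) →
      (T.card : ℝ) ≤ C * (H : ℝ) ^ ε * ((∏ j ∈ S, (rad (dv P j x₀) : ℝ)) / (H : ℝ) ^ (S.card - 2) +
        ∏ j ∈ S, (rr (dv P j x₀) : ℝ)) := by
  classical
  obtain ⟨U, hU1, hU2, hU3⟩ := exists_U P
  obtain ⟨C₁, hC₁, hfib⟩ := fibre_bound hq hP
  have hq0 : (0 : ℝ) < q := by
    have : 0 < q := by omega
    exact_mod_cast this
  obtain ⟨D, hD, hA4⟩ := stmtA4_of (stmtA3_of stmtA2) (ε / q) (by positivity)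
  obtain ⟨D', hD'⟩ : ∃ D', D' = max D 1 := ⟨_, rfl⟩
  have hD1 : 1 ≤ D' := by rw [hD']; exact le_max_right _ _
  have hDD : D ≤ D' := by rw [hD']; exact le_max_left _ _
  have hUr : (1 : ℝ) ≤ U := by exact_mod_cast hU1
  refine ⟨(2 * D') ^ q * (2 * (U : ℝ)) ^ ε * C₁, by positivity, ?_⟩
  intro S hS H hH x₀ hx₀ T hT
  have hSq : S.card ≤ q := by
    have := card_le_univ S
    rwa [Fintype.card_fin] at this
  have hHr : (1 : ℝ) ≤ H := by exact_mod_cast hH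
  obtain ⟨N, hN⟩ : ∃ N : ℕ, N = 2 * U * H := ⟨_, rfl⟩
  have hN1 : 1 ≤ N := by rw [hN]; exact Nat.one_le_iff_ne_zero.2 (by positivity)
  have hNr : (1 : ℝ) ≤ N := by exact_mod_cast hN1
  obtain ⟨Kj, hKj⟩ : ∃ Kj : Fin q → Finset ℕ, Kj = fun j => if j ∈ S then
      (Icc 1 N).filter (fun d => (rad d : ℝ) ≤ 2 * (rr (dv P j x₀) : ℝ)) else {1} := ⟨_, rfl⟩
  have hrr0 : ∀ j, (0 : ℝ) < rr (dv P j x₀) := fun j => by exact_mod_cast rr_pos _
  have hK : ((Fintype.piFinset Kj).card : ℝ) ≤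
      (2 * D') ^ q * (N : ℝ) ^ ε * ∏ j ∈ S, (rr (dv P j x₀) : ℝ) := by
    rw [Fintype.card_piFinset]
    push_cast
    rw [← Finset.prod_subset (subset_univ S) (fun j _ hj => by
      rw [hKj]; simp [hj])]
    have h1 : ∀ j ∈ S, ((Kj j).card : ℝ) ≤ 2 * D' * (N : ℝ) ^ (ε / q) * (rr (dv P j x₀) : ℝ) := by
      intro j hj
      rw [hKj]
      simp only [hj, if_true]
      refine (hA4 N hN1 _ (by positivity)).trans ?_
      have : (0 : ℝ) < (N : ℝ) ^ (ε / q) := by positivity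
      have h0 := hrr0 j
      calc D * (N : ℝ) ^ (ε / q) * (2 * (rr (dv P j x₀) : ℝ)) ≤
          D' * (N : ℝ) ^ (ε / q) * (2 * (rr (dv P j x₀) : ℝ)) := by gcongr
        _ = _ := by ring
    calc ∏ j ∈ S, ((Kj j).card : ℝ) ≤ ∏ j ∈ S, (2 * D' * (N : ℝ) ^ (ε / q) *
          (rr (dv P j x₀) : ℝ)) := Finset.prod_le_prod (fun _ _ => Nat.cast_nonneg _) h1
      _ = (2 * D' * (N : ℝ) ^ (ε / q)) ^ S.card * ∏ j ∈ S, (rr (dv P j x₀) : ℝ) := by
          rw [prod_mul_distrib, prod_const]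
      _ ≤ (2 * D' * (N : ℝ) ^ (ε / q)) ^ q * ∏ j ∈ S, (rr (dv P j x₀) : ℝ) := by
          have h2 : (1 : ℝ) ≤ 2 * D' * (N : ℝ) ^ (ε / q) := by
            have : (1 : ℝ) ≤ (N : ℝ) ^ (ε / q) := Real.one_le_rpow hNr (by positivity)
            nlinarith
          exact mul_le_mul_of_nonneg_right (pow_le_pow_right₀ h2 hSq)
            (Finset.prod_nonneg fun _ _ => Nat.cast_nonneg _)
      _ = _ := by
          rw [mul_pow, ← Real.rpow_natCast ((N : ℝ) ^ (ε / q)) q, ← Real.rpow_mul (by positivity),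
            div_mul_cancel₀ _ hq0.ne']
  have hup0 : ∀ j, (0 : ℝ) < up (dv P j x₀) := fun j => by exact_mod_cast up_pos _
  have hprod0 : 0 < ∏ j ∈ S, (up (dv P j x₀) : ℝ) := Finset.prod_pos fun j _ => hup0 j
  have hcov : (T.card : ℝ) ≤ ((Fintype.piFinset Kj).card : ℝ) *
      (C₁ * ((∏ j ∈ S, (up (dv P j x₀) : ℝ)) / (H : ℝ) ^ (S.card - 2) + 1)) := by
    apply card_le_of_cover _ _ (fun s x => ∀ j ∈ S, sp (dv P j x) = s j)
    · intro x hx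
      obtain ⟨h1, h2⟩ := hT x hx
      refine ⟨fun j => if j ∈ S then sp (dv P j x) else 1, ?_, fun j hj => by simp [hj]⟩
      rw [Fintype.mem_piFinset]
      intro j
      rw [hKj]
      by_cases hj : j ∈ S
      · simp only [hj, if_true]
        rw [mem_filter, mem_Icc]
        refine ⟨⟨sp_pos _, ?_⟩, ?_⟩
        · calc sp (dv P j x) ≤ dv P j x := Nat.le_of_dvd (h1.dv_pos j) (sp_dvd (h1.dv_pos j).ne')
            _ ≤ U * sz x := hU2 j x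
            _ ≤ U * (2 * H) := Nat.mul_le_mul_left _ h1.hi.le
            _ = N := by rw [hN]; ring
        · rw [rad_sp]
          exact_mod_cast h2.r j
      · simp [hj]
    · intro s _
      refine hfib S hS H hH x₀ hx₀ s _ ?_
      intro x hx
      rw [mem_filter] at hx
      exact ⟨(hT x hx.1).1, (hT x hx.1).2, hx.2⟩
  have hrad : ∏ j ∈ S, (rad (dv P j x₀) : ℝ) =
      (∏ j ∈ S, (up (dv P j x₀) : ℝ)) * ∏ j ∈ S, (rr (dv P j x₀) : ℝ) := by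
    rw [← prod_mul_distrib]
    refine prod_congr rfl fun j _ => ?_
    rw [rad_eq]
    push_cast
    rfl
  have hNe : (N : ℝ) ^ ε = (2 * (U : ℝ)) ^ ε * (H : ℝ) ^ ε := by
    rw [hN]
    push_cast
    exact Real.mul_rpow (by positivity) (by positivity)
  have hHp : (0 : ℝ) < (H : ℝ) ^ (S.card - 2) := by positivity
  calc (T.card : ℝ) ≤ _ := hcov
    _ ≤ ((2 * D') ^ q * (N : ℝ) ^ ε * ∏ j ∈ S, (rr (dv P j x₀) : ℝ)) *
      (C₁ * ((∏ j ∈ S, (up (dv P j x₀) : ℝ)) / (H : ℝ) ^ (S.card - 2) + 1)) :=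
        mul_le_mul_of_nonneg_right hK (by positivity)
    _ = _ := by rw [hNe, hrad]; ring

theorem log_near {m n : ℕ} (hn : 0 < n) (h : Nat.log 2 m = Nat.log 2 n) : m ≤ 2 * n := by
  have h1 := Nat.lt_pow_succ_log_self (b := 2) (by norm_num) m
  have h2 := Nat.pow_log_le_self 2 hn.ne'
  rw [h, pow_succ] at h1
  omega

theorem rq_pos (P : Fin q → ℤ × ℤ) (x : ℤ × ℤ) : 1 ≤ rq P x :=
  Finset.prod_pos fun _ hp => (Nat.prime_of_mem_primeFactors hp).pos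

theorem sz_pos {x : ℤ × ℤ} (h : IsCoprime x.1 x.2) : 0 < sz x := by
  unfold sz
  by_contra hcon
  have h1 : x.1 = 0 := by omega
  have h2 : x.2 = 0 := by omega
  rw [h1, h2] at h
  exact not_isCoprime_zero_zero h

/-- the points which are not too high -/
structure Mod (P : Fin q → ℤ × ℤ) (κ M X : ℝ) (x : ℤ × ℤ) : Prop where
  cop : IsCoprime x.1 x.2
  ne : ∀ j, dt (P j) x ≠ 0
  le : (rq P x : ℝ) ≤ X
  lo : κ * (rq P x : ℝ) ^ M ≤ (sz x : ℝ)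
  hi : (sz x : ℝ) ≤ (rq P x : ℝ) ^ (9 / (7 * (q : ℝ)))

theorem Mod.sz_le (hq : 3 ≤ q) {κ M X : ℝ} {x : ℤ × ℤ} (h : Mod P κ M X x) :
    (sz x : ℝ) ≤ X := by
  have hq3 : (3 : ℝ) ≤ q := by exact_mod_cast hq
  have hr1 : (1 : ℝ) ≤ rq P x := by exact_mod_cast rq_pos P x
  refine h.hi.trans (le_trans ?_ h.le)
  calc (rq P x : ℝ) ^ (9 / (7 * (q : ℝ))) ≤ (rq P x : ℝ) ^ (1 : ℝ) := by
        apply Real.rpow_le_rpow_of_exponent_le hr1
        rw [div_le_one (by positivity)]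
        linarith
    _ = _ := Real.rpow_one _

theorem Mod.at {κ M X : ℝ} {x : ℤ × ℤ} (h : Mod P κ M X x) {a : ℕ}
    (ha : Nat.log 2 (sz x) = a) : At P (2 ^ a) x := by
  refine ⟨h.cop, h.ne, ?_, ?_⟩
  · rw [← ha]; exact Nat.pow_log_le_self 2 (sz_pos h.cop).ne'
  · have := Nat.lt_pow_succ_log_self (b := 2) (by norm_num) (sz x)
    rw [ha, pow_succ] at this
    omega

theorem exp_bound {F C₁ X r : ℝ} (hF0 : 0 < F) (hr : 0 < r) (hrX : r ≤ X) :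
    Real.exp (F * Real.log r + C₁) ≤ X ^ F * Real.exp C₁ := by
  rw [Real.exp_add]
  apply mul_le_mul_of_nonneg_right _ (Real.exp_pos _).le
  rw [mul_comm F, ← Real.rpow_def_of_pos hr]
  exact Real.rpow_le_rpow hr.le hrX hF0.le

theorem prod_bound {S : Finset (Fin q)} (hS2 : 2 ≤ S.card) {f : Fin q → ℝ} (hf : ∀ j, 1 ≤ f j)
    {H B : ℝ} (hH : 0 < H)
    (h : Real.exp (∑ j ∈ S, Real.log (f j) - ((S.card : ℝ) - 2) * Real.log H) ≤ B) :
    (∏ j ∈ S, f j) / H ^ (S.card - 2) ≤ B := by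
  refine le_trans (le_of_eq ?_) h
  rw [Real.exp_sub, Real.exp_sum]
  congr 1
  · exact prod_congr rfl fun j _ => (Real.exp_log (by linarith [hf j])).symm
  · rw [← Real.exp_log (pow_pos hH (S.card - 2)), Real.log_pow, Nat.cast_sub hS2]
    norm_num

theorem prod_bound' {S : Finset (Fin q)} {f : Fin q → ℝ} (hf : ∀ j, 1 ≤ f j)
    {B : ℝ} (h : Real.exp (∑ j ∈ S, Real.log (f j)) ≤ B) : ∏ j ∈ S, f j ≤ B := by
  refine le_trans (le_of_eq ?_) h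
  rw [Real.exp_sum]
  exact prod_congr rfl fun j _ => (Real.exp_log (by linarith [hf j])).symm

theorem class_fin {C₂ H ε X F E A B : ℝ} (hX0 : 0 < X) (hC₂ : 0 < C₂) (hH0 : 0 < H)
    (hHX : H ^ ε ≤ X ^ ε) (hA : A ≤ X ^ F * E) (hB : B ≤ X ^ F * E) (hE : 0 < E) :
    C₂ * H ^ ε * (A + B) ≤ 2 * C₂ * E * X ^ (ε + F) := by
  have h1 : 0 < X ^ F := Real.rpow_pos_of_pos hX0 _
  have h2 : 0 < X ^ ε := Real.rpow_pos_of_pos hX0 _
  have h3 : 0 < H ^ ε := Real.rpow_pos_of_pos hH0 _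
  calc C₂ * H ^ ε * (A + B) ≤ C₂ * H ^ ε * (2 * (X ^ F * E)) :=
        mul_le_mul_of_nonneg_left (by linarith) (by positivity)
    _ ≤ C₂ * X ^ ε * (2 * (X ^ F * E)) :=
        mul_le_mul_of_nonneg_right (mul_le_mul_of_nonneg_left hHX hC₂.le) (by positivity)
    _ = 2 * C₂ * E * (X ^ ε * X ^ F) := by ring
    _ = _ := by rw [← Real.rpow_add hX0]

theorem class_mod (hq : 3 ≤ q) (hP : ∀ i j, i ≠ j → dt (P i) (P j) ≠ 0) (κ M ε : ℝ)
    (hκ : 0 < κ) (hε : 0 < ε) {F : ℝ}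
    (hF : F = max (12 / (7 * (q : ℝ))) (1 - ((q : ℝ) - 2) * M)) : ∃ C : ℝ, 0 < C ∧
    ∀ X : ℝ, 1 ≤ X → ∀ (a : ℕ) (x₀ : ℤ × ℤ) (T : Finset (ℤ × ℤ)), x₀ ∈ T →
      (∀ x ∈ T, Mod P κ M X x ∧ Nat.log 2 (sz x) = a ∧ ∀ j,
        Nat.log 2 (dv P j x) = Nat.log 2 (dv P j x₀) ∧
        Nat.log 2 (up (dv P j x)) = Nat.log 2 (up (dv P j x₀)) ∧
        Nat.log 2 (rr (dv P j x)) = Nat.log 2 (rr (dv P j x₀))) →
      (T.card : ℝ) ≤ C * X ^ (ε + F) := by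
  have hq3 : (3 : ℝ) ≤ q := by exact_mod_cast hq
  have hq0 : (0 : ℝ) < q := by linarith
  have hF0 : 0 < F := by rw [hF]; exact lt_max_of_lt_left (by positivity)
  obtain ⟨U, hU1, hU2, hU3⟩ := exists_U P
  have hUr : (1 : ℝ) ≤ U := by exact_mod_cast hU1
  have hDt := Dt_pos hP
  have hDtr : (1 : ℝ) ≤ Dt P := by exact_mod_cast hDt
  obtain ⟨c, hc⟩ : ∃ c : ℝ, c = Real.log (2 * U) + (q : ℝ) * Real.log (Dt P) +
    (|Real.log κ| + Real.log 2) := ⟨_, rfl⟩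
  have l1 : 0 ≤ Real.log (2 * U) := Real.log_nonneg (by linarith)
  have l2 : 0 ≤ (q : ℝ) * Real.log (Dt P) := mul_nonneg hq0.le (Real.log_nonneg hDtr)
  have l3 : 0 < Real.log 2 := Real.log_pos (by norm_num)
  have l4 : 0 ≤ |Real.log κ| := abs_nonneg _
  have hc0 : 0 ≤ c := by rw [hc]; linarith
  obtain ⟨C₁, hC₁, hch⟩ := choice hq M c hc0
  obtain ⟨C₂, hC₂, hcl⟩ := class_bound (P := P) (by omega : 2 ≤ q) hP ε hε
  refine ⟨2 * C₂ * Real.exp C₁, by positivity, ?_⟩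
  intro X hX a x₀ T hx₀ hT
  have hX0 : 0 < X := by linarith
  obtain ⟨hm0, ha0, -⟩ := hT x₀ hx₀
  obtain ⟨H, hH⟩ : ∃ H : ℕ, H = 2 ^ a := ⟨_, rfl⟩
  have hH1 : 1 ≤ H := by rw [hH]; exact Nat.one_le_two_pow
  have hAt0 : At P H x₀ := by rw [hH]; exact hm0.at ha0
  have hHr : (1 : ℝ) ≤ H := by exact_mod_cast hH1
  have hH0 : (0 : ℝ) < H := by linarith
  have hrq1 : (1 : ℝ) ≤ rq P x₀ := by exact_mod_cast rq_pos P x₀
  have hrq0 : (0 : ℝ) < rq P x₀ := by linarith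
  have hHsz : (H : ℝ) ≤ sz x₀ := by exact_mod_cast hAt0.lo
  have hszH : (sz x₀ : ℝ) ≤ 2 * H := by exact_mod_cast hAt0.hi.le
  have hsz0 : (0 : ℝ) < sz x₀ := by linarith
  have hrad1 : ∀ j, (1 : ℝ) ≤ rad (dv P j x₀) := fun j => by
    rw [rad_eq]; exact_mod_cast Nat.mul_pos (up_pos _) (rr_pos _)
  have hrr1 : ∀ j, (1 : ℝ) ≤ rr (dv P j x₀) := fun j => by exact_mod_cast rr_pos _
  have k1 : ∀ j, Real.log (rr (dv P j x₀)) ≤
      Real.log H - Real.log (rad (dv P j x₀)) + c := by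
    intro j
    have h1 : (rr (dv P j x₀) : ℝ) * rad (dv P j x₀) ≤ 2 * U * H := by
      have h2 : rr (dv P j x₀) * rad (dv P j x₀) ≤ U * sz x₀ :=
        (rr_mul_rad_le (hAt0.dv_pos j).ne').trans (hU2 j x₀)
      have h3 : (rr (dv P j x₀) : ℝ) * rad (dv P j x₀) ≤ U * sz x₀ := by exact_mod_cast h2
      calc (rr (dv P j x₀) : ℝ) * rad (dv P j x₀) ≤ U * sz x₀ := h3
        _ ≤ U * (2 * H) := mul_le_mul_of_nonneg_left hszH (by positivity)
        _ = _ := by ring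
    have h4 := Real.log_le_log (mul_pos (by linarith [hrr1 j]) (by linarith [hrad1 j])) h1
    rw [Real.log_mul (by linarith [hrr1 j]) (by linarith [hrad1 j]),
      Real.log_mul (by positivity) (by positivity)] at h4
    rw [hc]
    linarith
  have k2 : ∑ j, Real.log (rad (dv P j x₀)) ≤ Real.log (rq P x₀) + c := by
    have h1 := prod_rad_le hP hm0.cop hm0.ne univ
    rw [card_univ, Fintype.card_fin] at h1
    have h2 : ∏ j, (rad (dv P j x₀) : ℝ) ≤ (Dt P : ℝ) ^ q * rq P x₀ := by exact_mod_cast h1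
    have h3 := Real.log_le_log (Finset.prod_pos fun j _ => by linarith [hrad1 j]) h2
    rw [Real.log_prod (fun j _ => by linarith [hrad1 j]),
      Real.log_mul (by positivity) (by positivity), Real.log_pow] at h3
    rw [hc]
    linarith
  have k3 : Real.log H ≤ 9 / (7 * (q : ℝ)) * Real.log (rq P x₀) + c := by
    have h1 := Real.log_le_log hH0 (hHsz.trans hm0.hi)
    rw [Real.log_rpow hrq0] at h1
    linarith
  have k4 : M * Real.log (rq P x₀) ≤ Real.log H + c := by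
    have h1 := Real.log_le_log (by positivity) (hm0.lo.trans hszH)
    rw [Real.log_mul hκ.ne' (by positivity), Real.log_rpow hrq0,
      Real.log_mul (by norm_num) (by positivity)] at h1
    have h2 := neg_abs_le (Real.log κ)
    rw [hc]
    linarith
  obtain ⟨S, hS2, hS3, hS4⟩ := hch (Real.log (rq P x₀)) (Real.log H)
    (fun j => Real.log (rad (dv P j x₀))) (fun j => Real.log (rr (dv P j x₀)))
    (Real.log_nonneg hrq1) (Real.log_nonneg hHr) (fun j => Real.log_nonneg (hrr1 j))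
    (fun j => Real.log_le_log (by linarith [hrr1 j]) (by exact_mod_cast rr_le_rad _))
    k1 k2 k3 k4
  rw [← hF] at hS3 hS4
  have hcb := hcl S hS2 H hH1 x₀ hAt0 T (by
    intro x hx
    obtain ⟨hmx, hax, hxf⟩ := hT x hx
    have hAx : At P H x := by rw [hH]; exact hmx.at hax
    exact ⟨hAx, ⟨fun j => log_near (hAt0.dv_pos j) (hxf j).1,
      fun j => log_near (hAx.dv_pos j) (hxf j).1.symm,
      fun j => log_near (up_pos _) (hxf j).2.1, fun j => log_near (rr_pos _) (hxf j).2.2⟩⟩)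
  refine hcb.trans ?_
  have hexp := exp_bound (C₁ := C₁) hF0 hrq0 hm0.le
  have hA : (∏ j ∈ S, (rad (dv P j x₀) : ℝ)) / (H : ℝ) ^ (S.card - 2) ≤ X ^ F * Real.exp C₁ :=
    prod_bound hS2 hrad1 hH0 ((Real.exp_le_exp.2 hS3).trans hexp)
  have hB : (∏ j ∈ S, (rr (dv P j x₀) : ℝ)) ≤ X ^ F * Real.exp C₁ :=
    prod_bound' hrr1 ((Real.exp_le_exp.2 hS4).trans hexp)
  have hHX : (H : ℝ) ^ ε ≤ X ^ ε :=
    Real.rpow_le_rpow hH0.le (hHsz.trans (hm0.sz_le hq)) hε.le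
  exact class_fin hX0 hC₂ hH0 hHX hA hB (Real.exp_pos _)

theorem mod_upper (hq : 3 ≤ q) (hP : ∀ i j, i ≠ j → dt (P i) (P j) ≠ 0) (κ M ε : ℝ)
    (hκ : 0 < κ) (hε : 0 < ε) : ∃ C : ℝ, 0 < C ∧ ∀ X : ℝ, 1 ≤ X → ∀ Q : Finset (ℤ × ℤ),
      (∀ x ∈ Q, Mod P κ M X x) →
      (Q.card : ℝ) ≤ C * X ^ (max (12 / (7 * (q : ℝ))) (1 - ((q : ℝ) - 2) * M) + ε) := by
  classical
  obtain ⟨F, hF⟩ : ∃ F : ℝ, F = max (12 / (7 * (q : ℝ))) (1 - ((q : ℝ) - 2) * M) := ⟨_, rfl⟩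
  obtain ⟨U, hU1, hU2, hU3⟩ := exists_U P
  have hUr : (1 : ℝ) ≤ U := by exact_mod_cast hU1
  obtain ⟨C₂, hC₂, hcl⟩ := class_mod hq hP κ M (ε / 3) hκ (by positivity) hF
  obtain ⟨D, hD, hL⟩ := log_pow_le (3 * q + 1) (ε / 3) (by positivity)
  refine ⟨D * (2 * (U : ℝ)) ^ (ε / 3) * C₂, by positivity, ?_⟩
  intro X hX Q hQ
  have hX0 : 0 < X := by linarith
  obtain ⟨N, hN⟩ : ∃ N : ℕ, N = U * ⌈X⌉₊ := ⟨_, rfl⟩
  have hceil : 1 ≤ ⌈X⌉₊ := Nat.one_le_ceil_iff.2 hX0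
  have hN1 : 1 ≤ N := by rw [hN]; exact Nat.one_le_iff_ne_zero.2 (by positivity)
  have hNX : (N : ℝ) ≤ 2 * U * X := by
    rw [hN]
    push_cast
    have h1 : (⌈X⌉₊ : ℝ) ≤ 2 * X := by
      have := (Nat.ceil_lt_add_one hX0.le).le
      linarith
    calc (U : ℝ) * ⌈X⌉₊ ≤ U * (2 * X) := mul_le_mul_of_nonneg_left h1 (by positivity)
      _ = _ := by ring
  obtain ⟨L, hLd⟩ : ∃ L, L = Nat.log 2 N + 1 := ⟨_, rfl⟩
  have hszN : ∀ x ∈ Q, U * sz x ≤ N := by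
    intro x hx
    rw [hN]
    apply Nat.mul_le_mul_left
    exact_mod_cast ((hQ x hx).sz_le hq).trans (Nat.le_ceil X)
  have hdvN : ∀ x ∈ Q, ∀ j, dv P j x ≤ N := fun x hx j => (hU2 j x).trans (hszN x hx)
  have hlt : ∀ m, m ≤ N → Nat.log 2 m < L := by
    intro m hm
    rw [hLd]
    exact Nat.lt_succ_of_le (Nat.log_mono_right hm)
  obtain ⟨K, hK⟩ : ∃ K : Finset (ℕ × (Fin q → ℕ × ℕ × ℕ)), K = range L ×ˢ
    Fintype.piFinset (fun _ : Fin q => range L ×ˢ (range L ×ˢ range L)) := ⟨_, rfl⟩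
  have hb1 : (Q.card : ℝ) ≤ (K.card : ℝ) * (C₂ * X ^ (ε / 3 + F)) := by
    apply card_le_of_cover _ _ (fun z x => Nat.log 2 (sz x) = z.1 ∧ ∀ j,
      Nat.log 2 (dv P j x) = (z.2 j).1 ∧ Nat.log 2 (up (dv P j x)) = (z.2 j).2.1 ∧
      Nat.log 2 (rr (dv P j x)) = (z.2 j).2.2)
    · intro x hx
      have x2 := (hQ x hx).ne
      refine ⟨(Nat.log 2 (sz x), fun j => (Nat.log 2 (dv P j x), Nat.log 2 (up (dv P j x)),
        Nat.log 2 (rr (dv P j x)))), ?_, rfl, fun j => ⟨rfl, rfl, rfl⟩⟩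
      rw [hK, mem_product, mem_range, Fintype.mem_piFinset]
      refine ⟨hlt _ ((Nat.le_mul_of_pos_left _ hU1).trans (hszN x hx)), fun j => ?_⟩
      have hd0 : dv P j x ≠ 0 := (Int.natAbs_pos.2 (x2 j)).ne'
      have hd := hdvN x hx j
      have hu : up (dv P j x) ≤ dv P j x :=
        Nat.le_of_dvd (Nat.pos_of_ne_zero hd0) (Dvd.intro _ (up_mul_sp hd0))
      have hr : rr (dv P j x) ≤ dv P j x :=
        le_trans (Nat.le_mul_of_pos_right _ (Nat.pos_of_ne_zero (by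
          rw [rad_eq]; exact (Nat.mul_pos (up_pos _) (rr_pos _)).ne'))) (rr_mul_rad_le hd0)
      rw [mem_product, mem_product, mem_range, mem_range, mem_range]
      exact ⟨hlt _ hd, hlt _ (hu.trans hd), hlt _ (hr.trans hd)⟩
    · rintro ⟨a, f⟩ _
      rcases (Q.filter fun x => Nat.log 2 (sz x) = a ∧ ∀ j,
        Nat.log 2 (dv P j x) = (f j).1 ∧ Nat.log 2 (up (dv P j x)) = (f j).2.1 ∧
        Nat.log 2 (rr (dv P j x)) = (f j).2.2).eq_empty_or_nonempty with h0 | ⟨x₀, hx₀⟩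
      · rw [h0, card_empty, Nat.cast_zero]
        positivity
      · refine hcl X hX a x₀ _ hx₀ ?_
        rw [mem_filter] at hx₀
        obtain ⟨hx₀Q, hx₀a, hx₀f⟩ := hx₀
        intro x hx
        rw [mem_filter] at hx
        obtain ⟨hxQ, hxa, hxf⟩ := hx
        refine ⟨hQ x hxQ, hxa, fun j => ⟨?_, ?_, ?_⟩⟩
        · rw [(hxf j).1, (hx₀f j).1]
        · rw [(hxf j).2.1, (hx₀f j).2.1]
        · rw [(hxf j).2.2, (hx₀f j).2.2]
  have hcard : (K.card : ℝ) ≤ D * ((2 * (U : ℝ)) ^ (ε / 3) * X ^ (ε / 3)) := by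
    rw [hK, card_product, Fintype.card_piFinset, card_range]
    simp only [card_product, card_range, prod_const, card_univ, Fintype.card_fin]
    have e1 : L * (L * (L * L)) ^ q = L ^ (3 * q + 1) := by
      rw [show L * (L * L) = L ^ 3 by ring, ← pow_mul, pow_succ]; ring
    rw [e1, hLd]
    push_cast
    have h1 := hL N hN1
    push_cast at h1
    refine h1.trans ?_
    rw [← Real.mul_rpow (by positivity) hX0.le]
    exact mul_le_mul_of_nonneg_left (Real.rpow_le_rpow (Nat.cast_nonneg _) hNX (by positivity))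
      hD.le
  rw [← hF]
  calc (Q.card : ℝ) ≤ _ := hb1
    _ ≤ D * ((2 * (U : ℝ)) ^ (ε / 3) * X ^ (ε / 3)) * (C₂ * X ^ (ε / 3 + F)) :=
        mul_le_mul_of_nonneg_right hcard (by positivity)
    _ = D * (2 * (U : ℝ)) ^ (ε / 3) * C₂ * (X ^ (ε / 3) * X ^ (ε / 3 + F)) := by ring
    _ = D * (2 * (U : ℝ)) ^ (ε / 3) * C₂ * X ^ (ε / 3 + (ε / 3 + F)) := by
        rw [← Real.rpow_add hX0]
    _ ≤ _ := by
        apply mul_le_mul_of_nonneg_left _ (by positivity)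
        exact Real.rpow_le_rpow_of_exponent_le hX (by linarith)

end Pool.Agent.T2H20.VS
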