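import Pool.Agent.T2H20.VS.Mb
import Pool.Agent.T2H20.VS.Mc
import Pool.Agent.T2H20.VS.Mf

/-! # The exceptional set for `q` points of the line, at all heights -/

set_option autoImplicit false

namespace Pool.Agent.T2H20.VS

open Finset Pool.Agent.H785R2.ABC Pool.Agent.T2H20.ABC Pool.Agent.T2H20.AH Filter Topology

variable {q : ℕ} {P : Fin q → ℤ × ℤ}

/-- The coprime pairs `x` with `rq P x ≤ X` and `κ (rq P x) ^ M ≤ sz x`. -/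
def LX (P : Fin q → ℤ × ℤ) (κ M X : ℝ) : Set (ℤ × ℤ) :=
  {x | IsCoprime x.1 x.2 ∧ (∀ j, dt (P j) x ≠ 0) ∧ (rq P x : ℝ) ≤ X ∧
    κ * (rq P x : ℝ) ^ M ≤ (sz x : ℝ)}

/-- **the upper bound** -/
theorem line_upper (hq : 3 ≤ q) (hP : ∀ i j, i ≠ j → dt (P i) (P j) ≠ 0) (κ M ε : ℝ)
    (hκ : 0 < κ) (hε : 0 < ε) : ∃ C : ℝ, 0 < C ∧ ∀ X : ℝ, 1 ≤ X → (LX P κ M X).Finite ∧
      ((LX P κ M X).ncard : ℝ) ≤
        C * X ^ (max (12 / (7 * (q : ℝ))) (1 - ((q : ℝ) - 2) * M) + ε) := by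
  classical
  obtain ⟨C₁, hC₁, h1⟩ := mod_upper hq hP κ M ε hκ hε
  obtain ⟨C₂, hC₂, h2⟩ := large_upper hq hP 1 ε one_pos hε
  refine ⟨C₁ + C₂, by positivity, fun X hX => fin_of_bdd fun Q hQ => ?_⟩
  obtain ⟨F, hF⟩ : ∃ F : ℝ, F = max (12 / (7 * (q : ℝ))) (1 - ((q : ℝ) - 2) * M) := ⟨_, rfl⟩
  have hX0 : 0 < X := by linarith
  have hsplit := Finset.card_filter_add_card_filter_not (s := Q)
    (fun x => (sz x : ℝ) ≤ (rq P x : ℝ) ^ (9 / (7 * (q : ℝ))))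
  have a1 := h1 X hX (Q.filter fun x => (sz x : ℝ) ≤ (rq P x : ℝ) ^ (9 / (7 * (q : ℝ))))
    (fun x hx => by
      rw [mem_filter] at hx
      obtain ⟨x1, x2, x3, x4⟩ := hQ x hx.1
      exact ⟨x1, x2, x3, x4, hx.2⟩)
  obtain ⟨b1, b2⟩ := h2 X hX
  have a2 : ((Q.filter fun x => ¬ (sz x : ℝ) ≤ (rq P x : ℝ) ^ (9 / (7 * (q : ℝ)))).card : ℝ) ≤
      C₂ * X ^ (12 / (7 * (q : ℝ)) + ε) := by
    refine le_trans ?_ b2
    rw [← Set.ncard_coe_finset]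
    refine Nat.cast_le.2 (Set.ncard_le_ncard ?_ b1)
    intro x hx
    rw [mem_coe, mem_filter] at hx
    obtain ⟨x1, x2, x3, x4⟩ := hQ x hx.1
    refine ⟨x1, x2, x3, ?_⟩
    rw [one_mul]
    exact (not_le.1 hx.2).le
  have a3 : X ^ (12 / (7 * (q : ℝ)) + ε) ≤ X ^ (F + ε) :=
    Real.rpow_le_rpow_of_exponent_le hX (by
      have : 12 / (7 * (q : ℝ)) ≤ F := by rw [hF]; exact le_max_left _ _
      linarith)
  rw [← hF] at a1 ⊢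
  have e : (Q.card : ℝ) =
      ((Q.filter fun x => (sz x : ℝ) ≤ (rq P x : ℝ) ^ (9 / (7 * (q : ℝ)))).card : ℝ) +
      ((Q.filter fun x => ¬ (sz x : ℝ) ≤ (rq P x : ℝ) ^ (9 / (7 * (q : ℝ)))).card : ℝ) := by
    exact_mod_cast hsplit.symm
  rw [e]
  have a4 : C₂ * X ^ (12 / (7 * (q : ℝ)) + ε) ≤ C₂ * X ^ (F + ε) :=
    mul_le_mul_of_nonneg_left a3 hC₂.le
  calc _ ≤ C₁ * X ^ (F + ε) + C₂ * X ^ (F + ε) := add_le_add a1 (a2.trans a4)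
    _ = _ := by ring

/-- **the lower bound** -/
theorem line_lower (hq : 3 ≤ q) (hP : ∀ i j, i ≠ j → dt (P i) (P j) ≠ 0) {κ M ε : ℝ}
    (hκ : 0 < κ) (hM : 1 / (q : ℝ) < M) (hM1 : M < 1 / ((q : ℝ) - 1)) (hε : 0 < ε) :
    ∃ X₀ : ℝ, ∀ X : ℝ, X₀ ≤ X →
      X ^ (1 - ((q : ℝ) - 2) * M - ε) ≤ ((LX P κ M X).ncard : ℝ) := by
  obtain ⟨X₀, h⟩ := lower hq hP hκ hM hM1 hε
  obtain ⟨C, hC, hup⟩ := line_upper hq hP κ M 1 hκ one_pos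
  refine ⟨max X₀ 1, fun X hX => ?_⟩
  obtain ⟨Q, hQ, hc⟩ := h X ((le_max_left _ _).trans hX)
  refine hc.trans ?_
  rw [← Set.ncard_coe_finset]
  exact Nat.cast_le.2 (Set.ncard_le_ncard (fun x hx => hQ x hx)
    (hup X ((le_max_right _ _).trans hX)).1)

/-- **the exact exponent** -/
theorem line_tendsto (hq : 3 ≤ q) (hP : ∀ i j, i ≠ j → dt (P i) (P j) ≠ 0) {κ M : ℝ}
    (hκ : 0 < κ) (hM : 1 / (q : ℝ) < M)
    (hM1 : M ≤ (7 * (q : ℝ) - 12) / (7 * (q : ℝ) * ((q : ℝ) - 2))) :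
    Tendsto (fun X : ℝ => Real.log ((LX P κ M X).ncard : ℝ) / Real.log X) atTop
      (𝓝 (1 - ((q : ℝ) - 2) * M)) := by
  have hq3 : (3 : ℝ) ≤ q := by exact_mod_cast hq
  have hq2 : (0 : ℝ) < (q : ℝ) - 2 := by linarith
  have hq1 : (0 : ℝ) < (q : ℝ) - 1 := by linarith
  have hle : 12 / (7 * (q : ℝ)) ≤ 1 - ((q : ℝ) - 2) * M := by
    rw [le_div_iff₀ (by positivity)] at hM1
    rw [div_le_iff₀ (by positivity)]
    nlinarith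
  have hlt : M < 1 / ((q : ℝ) - 1) := by
    refine lt_of_le_of_lt hM1 ?_
    rw [div_lt_div_iff₀ (by positivity) hq1]
    nlinarith
  refine tendsto_exponent (fun ε hε => ?_) fun ε hε => line_lower hq hP hκ hM hlt hε
  obtain ⟨C, hC, h⟩ := line_upper hq hP κ M ε hκ hε
  refine ⟨C, hC, fun X hX => ?_⟩
  have := (h X hX).2
  rwa [max_eq_right hle] at this

end Pool.Agent.T2H20.VS
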